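import Pool.Agent.Work.MP_2738db_nt_W.TwoLog2

/-!
Bounding the prime exponent of the third base through the `p`-adic two logarithms theorem.
-/

set_option autoImplicit false

namespace Pool.Agent.Work.MP_2738db_nt_W

open Finset BigOperators

/-- If `p < ℓ` are primes and `p ^ M` divides `u ^ ℓ - v ^ ℓ` with `u, v` prime to `p`, then it
divides `u - v`. -/
lemma dvd_sub_of_dvd_pow_sub {p ℓ M : ℕ} (hp : p.Prime) (hℓ : ℓ.Prime) (hpℓ : p < ℓ) {u v : ℤ}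
    (hu : ¬ (p : ℤ) ∣ u) (h : (p : ℤ) ^ M ∣ u ^ ℓ - v ^ ℓ) : (p : ℤ) ^ M ∣ u - v := by
  rcases Nat.eq_zero_or_pos M with rfl | hM
  · simp
  haveI : Fact p.Prime := ⟨hp⟩
  have hpp : Prime (p : ℤ) := Nat.prime_iff_prime_int.mp hp
  have h1 : (p : ℤ) ∣ u ^ ℓ - v ^ ℓ := (dvd_pow_self _ hM.ne').trans h
  have h2 : ((u : ZMod p)) ^ ℓ = (v : ZMod p) ^ ℓ := by
    have := (ZMod.intCast_zmod_eq_zero_iff_dvd _ p).mpr h1
    push_cast at this
    exact sub_eq_zero.mp this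
  have hu0 : (u : ZMod p) ≠ 0 := by
    intro h0
    exact hu ((ZMod.intCast_zmod_eq_zero_iff_dvd _ p).mp h0)
  have hv0 : (v : ZMod p) ≠ 0 := by
    intro h0
    rw [h0, zero_pow hℓ.ne_zero] at h2
    exact hu0 (pow_eq_zero_iff hℓ.ne_zero |>.mp h2)
  have hcop : Nat.Coprime ℓ (p - 1) := by
    rw [Nat.Prime.coprime_iff_not_dvd hℓ]
    intro hd
    have h3 := Nat.le_of_dvd (by have := hp.two_le; omega) hd
    omega
  have h3 : (u : ZMod p) = (v : ZMod p) := by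
    have h4 : ((u : ZMod p) / v) ^ ℓ = 1 := by
      rw [div_pow, h2, div_self (pow_ne_zero _ hv0)]
    have h5 : ((u : ZMod p) / v) ^ (p - 1) = 1 := ZMod.pow_card_sub_one_eq_one (div_ne_zero hu0 hv0)
    have h6 : orderOf ((u : ZMod p) / v) ∣ Nat.gcd ℓ (p - 1) :=
      Nat.dvd_gcd (orderOf_dvd_of_pow_eq_one h4) (orderOf_dvd_of_pow_eq_one h5)
    rw [hcop.gcd_eq_one, Nat.dvd_one, orderOf_eq_one_iff] at h6
    exact (div_eq_one_iff_eq hv0).mp h6
  have h4 : (p : ℤ) ∣ u - v := by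
    apply (ZMod.intCast_zmod_eq_zero_iff_dvd _ p).mp
    push_cast
    exact sub_eq_zero.mpr h3
  have h5 : ¬ (p : ℤ) ∣ ((ℓ : ℕ) : ℤ) := by
    intro hd
    have := Int.natCast_dvd_natCast.mp hd
    have := (Nat.prime_dvd_prime_iff_eq hp hℓ).mp this
    omega
  have h6 := emultiplicity_pow_sub_pow_of_prime hpp h4 hu (n := ℓ) (by exact_mod_cast h5)
  rw [pow_dvd_iff_le_emultiplicity] at h ⊢
  rwa [h6] at h

theorem stepA_core {N w p : ℕ} (hN : 3 ≤ N) (hp : p.Prime) (hpw : p ≤ w)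
    {b c a n k ℓ : ℕ} (hb : 2 ≤ b) (hc : 2 ≤ c) (ha : 2 ≤ a) (hbN : b ≤ N) (hcN : c ≤ N)
    (hpb : p ∣ b) (hpc : ¬ p ∣ c) (hpa : ¬ p ∣ a) (hn : 1 ≤ n) (hk : 1 ≤ k) (hℓ : ℓ.Prime)
    (hbig : 3.2 * 10 ^ 8 * (w : ℝ) ^ 2 * (Real.log N) ^ 2 * (1 + Real.log ℓ) ^ 2 < ℓ)
    (hck : c ^ k ≤ b ^ n) {η : ℤ} (hη : η = 1 ∨ η = -1)
    (heq : (b : ℤ) ^ n = (a : ℤ) ^ ℓ - η * (c : ℤ) ^ k) : False := by
  have hw2 : 2 ≤ w := hp.two_le.trans hpw
  have hwR : (2 : ℝ) ≤ w := by exact_mod_cast hw2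
  have hu1 : 1 ≤ Real.log N := by
    rw [Real.le_log_iff_exp_le (by positivity)]
    have h1 := Real.exp_one_lt_d9
    have h2 : (3 : ℝ) ≤ N := by exact_mod_cast hN
    linarith
  set u : ℝ := Real.log N with hu
  have hℓ1 : (1 : ℝ) ≤ ℓ := by exact_mod_cast hℓ.one_lt.le
  set lam : ℝ := 1 + Real.log ℓ with hlam
  have hlam1 : 1 ≤ lam := by have := Real.log_nonneg hℓ1; linarith
  have hℓ0 : (0 : ℝ) < ℓ := by linarith
  -- basic sizes
  have hbR : (2 : ℝ) ≤ b := by exact_mod_cast hb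
  have hcR : (2 : ℝ) ≤ c := by exact_mod_cast hc
  have haR : (2 : ℝ) ≤ a := by exact_mod_cast ha
  have hl2 := Real.log_two_gt_d9
  have hl2' := Real.log_two_lt_d9
  have hlogb : 0 < Real.log b := Real.log_pos (by linarith)
  have hlogbN : Real.log b ≤ u := Real.log_le_log (by linarith) (by exact_mod_cast hbN)
  have hlogcN : Real.log c ≤ u := Real.log_le_log (by linarith) (by exact_mod_cast hcN)
  have hlog2c : Real.log 2 ≤ Real.log c := Real.log_le_log (by norm_num) hcR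
  have hlog2b : Real.log 2 ≤ Real.log b := Real.log_le_log (by norm_num) hbR
  have hlog2a : Real.log 2 ≤ Real.log a := Real.log_le_log (by norm_num) haR
  set h : ℝ := n * Real.log b with hh
  have hnR : (1 : ℝ) ≤ n := by exact_mod_cast hn
  have hkR : (1 : ℝ) ≤ k := by exact_mod_cast hk
  have hh0 : Real.log 2 ≤ h := by nlinarith
  have hckR : (c : ℝ) ^ k ≤ (b : ℝ) ^ n := by exact_mod_cast hck
  have hkc : k * Real.log c ≤ h := by
    have := Real.log_le_log (by positivity) hckR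
    rwa [Real.log_pow, Real.log_pow] at this
  have haℓ : (a : ℝ) ^ ℓ ≤ 2 * (b : ℝ) ^ n := by
    have h1 : (b : ℝ) ^ n = (a : ℝ) ^ ℓ - (η : ℝ) * (c : ℝ) ^ k := by exact_mod_cast heq
    rcases hη with rfl | rfl
    · push_cast at h1; linarith
    · push_cast at h1
      have : 0 ≤ (c : ℝ) ^ k := by positivity
      have : 0 ≤ (b : ℝ) ^ n := by positivity
      linarith
  have haℓ' : ℓ * Real.log a ≤ Real.log 2 + h := by
    have := Real.log_le_log (by positivity) haℓ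
    rwa [Real.log_pow, Real.log_mul (by norm_num) (by positivity), Real.log_pow] at this
  have hah : ℓ * Real.log a ≤ 2 * h := by linarith
  have hh2 : ℓ * Real.log 2 ≤ 2 * h := by
    have : ℓ * Real.log 2 ≤ ℓ * Real.log a := by gcongr
    linarith
  have hnh : h ≤ n * u := by rw [hh]; gcongr
  have hww : (4 : ℝ) ≤ (w : ℝ) ^ 2 := by nlinarith
  have hbig1 : 3.2 * 10 ^ 8 * u ^ 2 * 4 ≤ ℓ := by
    have h1 : (1 : ℝ) ≤ lam ^ 2 := by nlinarith
    have h2 : 3.2 * 10 ^ 8 * u ^ 2 * 4 ≤ 3.2 * 10 ^ 8 * (w : ℝ) ^ 2 * u ^ 2 * lam ^ 2 := by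
      calc 3.2 * 10 ^ 8 * u ^ 2 * 4 = 3.2 * 10 ^ 8 * 4 * u ^ 2 * 1 := by ring
        _ ≤ 3.2 * 10 ^ 8 * (w : ℝ) ^ 2 * u ^ 2 * lam ^ 2 := by gcongr
    linarith
  have hpℓ : p < ℓ := by
    have h1 : (w : ℝ) < ℓ := by
      have h1 : (1 : ℝ) ≤ lam ^ 2 := by nlinarith
      have h2 : (1 : ℝ) ≤ u ^ 2 := by nlinarith
      have h3 : (w : ℝ) ≤ (w : ℝ) ^ 2 := by nlinarith
      have h4 : (w : ℝ) ^ 2 * 1 * 1 ≤ (w : ℝ) ^ 2 * u ^ 2 * lam ^ 2 := by gcongr
      nlinarith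
    have : w < ℓ := by exact_mod_cast h1
    omega
  -- power of `p`
  have hpn : (p : ℤ) ^ n ∣ (a : ℤ) ^ ℓ - η * (c : ℤ) ^ k := by
    rw [← heq]
    exact pow_dvd_pow_of_dvd (Int.natCast_dvd_natCast.mpr hpb) n
  by_cases hℓk : ℓ ∣ k
  · -- first case
    obtain ⟨k1, rfl⟩ := hℓk
    have hodd : Odd ℓ := hℓ.odd_of_ne_two (by have := hp.two_le; omega)
    have hηℓ : η ^ ℓ = η := by
      rcases hη with rfl | rfl
      · simp
      · exact hodd.neg_one_pow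
    have h1 : (a : ℤ) ^ ℓ - η * (c : ℤ) ^ (ℓ * k1) = (a : ℤ) ^ ℓ - (η * (c : ℤ) ^ k1) ^ ℓ := by
      rw [mul_pow, hηℓ, ← pow_mul, mul_comm k1]
    rw [h1] at hpn heq
    have hpa' : ¬ (p : ℤ) ∣ (a : ℤ) := by exact_mod_cast hpa
    have h2 := dvd_sub_of_dvd_pow_sub hp hℓ hpℓ hpa' hpn
    have h3 : (a : ℤ) - η * (c : ℤ) ^ k1 ≠ 0 := by
      intro h0
      have h4 : (a : ℤ) = η * (c : ℤ) ^ k1 := by linarith
      rw [← h4, sub_self] at heq
      have : (0 : ℤ) < (b : ℤ) ^ n := by positivity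
      omega
    have h4 : ((p : ℤ) ^ n) ≤ |(a : ℤ) - η * (c : ℤ) ^ k1| := by
      have := Int.le_of_dvd (abs_pos.mpr h3) ((dvd_abs _ _).mpr h2)
      exact this
    have h5 : |(a : ℤ) - η * (c : ℤ) ^ k1| ≤ (a : ℤ) + (c : ℤ) ^ k1 := by
      have h6 : (0 : ℤ) ≤ (c : ℤ) ^ k1 := by positivity
      have h7 : (0 : ℤ) ≤ (a : ℤ) := by positivity
      rcases hη with rfl | rfl
      · rw [abs_le]; constructor <;> linarith
      · rw [abs_le]; constructor <;> linarith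
    have h6 : (p : ℝ) ^ n ≤ (a : ℝ) + (c : ℝ) ^ k1 := by exact_mod_cast h4.trans h5
    have h7 : Real.log ((a : ℝ) + (c : ℝ) ^ k1) ≤ 2 * Real.log 2 + 2 * h / ℓ := by
      have h8 : Real.log a ≤ Real.log 2 + 2 * h / ℓ := by
        have : Real.log a ≤ 2 * h / ℓ := by rw [le_div_iff₀ hℓ0]; linarith
        linarith
      have h9 : Real.log ((c : ℝ) ^ k1) ≤ Real.log 2 + 2 * h / ℓ := by
        rw [Real.log_pow]
        have : (k1 : ℝ) * Real.log c ≤ h / ℓ := by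
          rw [le_div_iff₀ hℓ0]
          push_cast at hkc
          linarith
        have h10 : h / ℓ ≤ 2 * h / ℓ := by gcongr; linarith
        linarith
      have hE : (a : ℝ) + (c : ℝ) ^ k1 ≤ Real.exp (2 * Real.log 2 + 2 * h / ℓ) := by
        have e1 : (a : ℝ) ≤ Real.exp (Real.log 2 + 2 * h / ℓ) := by
          rw [← Real.log_le_iff_le_exp (by positivity)]; exact h8
        have e2 : (c : ℝ) ^ k1 ≤ Real.exp (Real.log 2 + 2 * h / ℓ) := by
          rw [← Real.log_le_iff_le_exp (by positivity)]; exact h9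
        have e3 : Real.exp (2 * Real.log 2 + 2 * h / ℓ) = 2 * Real.exp (Real.log 2 + 2 * h / ℓ) := by
          rw [show 2 * Real.log 2 + 2 * h / ℓ = Real.log 2 + (Real.log 2 + 2 * h / ℓ) by ring,
            Real.exp_add (Real.log 2), Real.exp_log (by norm_num)]
        rw [e3]; linarith
      rw [Real.log_le_iff_le_exp (by positivity)]
      exact hE
    have h8 : n * Real.log 2 ≤ 2 * Real.log 2 + 2 * h / ℓ := by
      have h9 := Real.log_le_log (by have := hp.pos; positivity) h6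
      rw [Real.log_pow] at h9
      have h10 : Real.log 2 ≤ Real.log p := Real.log_le_log (by norm_num) (by exact_mod_cast hp.two_le)
      have h11 : (n : ℝ) * Real.log 2 ≤ n * Real.log p := by gcongr
      linarith
    -- contradiction
    have hu0 : 0 < u := by linarith
    have h9 : h * Real.log 2 ≤ u * (2 * Real.log 2) + u * (2 * h / ℓ) := by
      calc h * Real.log 2 ≤ (n * u) * Real.log 2 := by gcongr
        _ = u * (n * Real.log 2) := by ring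
        _ ≤ u * (2 * Real.log 2 + 2 * h / ℓ) := by gcongr
        _ = _ := by ring
    have h10 : u * (2 * h / ℓ) ≤ h * 0.01 := by
      rw [mul_div_assoc', div_le_iff₀ hℓ0]
      have hh00 : 0 < h := by linarith
      have h11 : u ≤ u ^ 2 := by nlinarith
      have : 200 * u ≤ ℓ := by nlinarith
      nlinarith
    have h11 : h * 0.6 ≤ 2 * u := by nlinarith
    nlinarith
  · -- second case
    have hcop : Nat.Coprime ℓ k := (Nat.Prime.coprime_iff_not_dvd hℓ).mpr hℓk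
    haveI : Fact p.Prime := ⟨hp⟩
    set T : ℕ := 2 * (p - 1) with hT
    have hT2 : 2 ≤ T := by have := hp.two_le; omega
    have hT2w : T ≤ 2 * w := by omega
    have hTR : (2 : ℝ) ≤ T := by exact_mod_cast hT2
    have hTwR : (T : ℝ) ≤ 2 * w := by exact_mod_cast hT2w
    have key : ∀ z : ℕ, ¬ p ∣ z → (p : ℤ) ∣ ((z ^ T : ℕ) : ℤ) - 1 := by
      intro z hz
      apply (ZMod.intCast_zmod_eq_zero_iff_dvd _ p).mp
      push_cast
      have hz0 : (z : ZMod p) ≠ 0 := by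
        intro h0
        exact hz ((ZMod.natCast_eq_zero_iff _ _).mp h0)
      rw [hT, mul_comm 2, pow_mul, ZMod.pow_card_sub_one_eq_one hz0]
      simp
    have hηT : η ^ T = 1 := by
      rcases hη with rfl | rfl
      · simp
      · rw [hT, pow_mul]; simp
    have hdiv : (p : ℤ) ^ n ∣ (((a ^ T : ℕ) : ℤ)) ^ ℓ - (((c ^ T : ℕ) : ℤ)) ^ k := by
      have h1 : (p : ℤ) ^ n ∣ ((a : ℤ) ^ ℓ) ^ T - (η * (c : ℤ) ^ k) ^ T :=
        hpn.trans (sub_dvd_pow_sub_pow _ _ T)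
      have h2 : ((a : ℤ) ^ ℓ) ^ T - (η * (c : ℤ) ^ k) ^ T
          = (((a ^ T : ℕ) : ℤ)) ^ ℓ - (((c ^ T : ℕ) : ℤ)) ^ k := by
        rw [mul_pow, hηT, one_mul]
        push_cast
        rw [← pow_mul, ← pow_mul, ← pow_mul, ← pow_mul, mul_comm T ℓ, mul_comm T k]
      rwa [h2] at h1
    have hA1 : T * Real.log a ≤ T * (2 * h / ℓ) := by
      have : Real.log a ≤ 2 * h / ℓ := by rw [le_div_iff₀ hℓ0]; linarith
      gcongr
    have hlogX : Real.log ((a ^ T : ℕ) : ℝ) = T * Real.log a := by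
      push_cast; rw [Real.log_pow]
    have hlogY : Real.log ((c ^ T : ℕ) : ℝ) = T * Real.log c := by
      push_cast; rw [Real.log_pow]
    have hfin := two_log hp (X := a ^ T) (Y := c ^ T) (k₀ := k) (ℓ := ℓ) (M := n)
      (Nat.one_le_pow _ _ (by omega))
      (by
        calc 2 ≤ c := hc
          _ = c ^ 1 := (pow_one c).symm
          _ ≤ c ^ T := Nat.pow_le_pow_right (by omega) (by omega))
      hℓ.one_lt.le hcop (key a hpa) (key c hpc)
      (T * (2 * h / ℓ)) (T * u)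
      (by
        have : (1 : ℝ) ≤ T * Real.log a := by nlinarith
        linarith)
      (by nlinarith)
      (by rw [hlogX]; exact hA1)
      (by rw [hlogY]; gcongr)
      (by
        rw [mul_assoc, div_mul_cancel₀ _ hℓ0.ne']
        have h1 : (k : ℝ) * Real.log 2 ≤ h := by
          have : (k : ℝ) * Real.log 2 ≤ k * Real.log c := by gcongr
          linarith
        nlinarith)
      (by
        rw [← hlam]
        have h1 : 6200 * (T * u) * lam ≤ 6200 * ((2 * w) * u) * lam := by gcongr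
        have h2 : (w : ℝ) * u * lam ≤ (w : ℝ) ^ 2 * u ^ 2 * lam ^ 2 := by
          have e1 : (w : ℝ) ≤ (w : ℝ) ^ 2 := by nlinarith
          have e2 : u ≤ u ^ 2 := by nlinarith
          have e3 : lam ≤ lam ^ 2 := by nlinarith
          gcongr
        have h3 : 0 ≤ (w : ℝ) ^ 2 * u ^ 2 * lam ^ 2 := by positivity
        nlinarith)
      hdiv
    rw [← hlam] at hfin
    have hu0 : 0 < u := by linarith
    have hh00 : 0 < h := by linarith
    have h1 : (n : ℝ) * ℓ ≤ 4 * 10 ^ 7 * (T * (2 * h)) * (T * u) * lam ^ 2 := by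
      have := mul_le_mul_of_nonneg_right hfin hℓ0.le
      refine this.trans (le_of_eq ?_)
      field_simp
    have h2 : h * ℓ ≤ 4 * 10 ^ 7 * (T * (2 * h)) * (T * u) * lam ^ 2 * u := by
      calc h * ℓ ≤ (n * u) * ℓ := by gcongr
        _ = (n * ℓ) * u := by ring
        _ ≤ _ := by gcongr
    have h3 : h * ℓ ≤ h * (3.2 * 10 ^ 8 * (w : ℝ) ^ 2 * u ^ 2 * lam ^ 2) := by
      refine h2.trans ?_
      have e1 : (T : ℝ) ^ 2 ≤ 4 * (w : ℝ) ^ 2 := by nlinarith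
      calc 4 * 10 ^ 7 * (T * (2 * h)) * (T * u) * lam ^ 2 * u
          = h * (8 * 10 ^ 7 * (T : ℝ) ^ 2 * u ^ 2 * lam ^ 2) := by ring
        _ ≤ h * (8 * 10 ^ 7 * (4 * (w : ℝ) ^ 2) * u ^ 2 * lam ^ 2) := by gcongr
        _ = _ := by ring
    have h4 : (ℓ : ℝ) ≤ 3.2 * 10 ^ 8 * (w : ℝ) ^ 2 * u ^ 2 * lam ^ 2 := le_of_mul_le_mul_left h3 hh00
    linarith

/-- Pairs `b, c` with small prime factors: no perfect `ℓ`-th powers with `ℓ` large. -/
theorem stepA {N w : ℕ} (hN : 3 ≤ N) {b c p p' : ℕ} (hb0 : 0 < b) (hc0 : 0 < c) (hbN : b ≤ N)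
    (hcN : c ≤ N) (hbc : Nat.Coprime b c) (hp : p.Prime) (hpw : p ≤ w) (hpb : p ∣ b)
    (hp' : p'.Prime) (hpw' : p' ≤ w) (hpc : p' ∣ c) {ℓ : ℕ} (hℓ : ℓ.Prime)
    (hbig : 3.2 * 10 ^ 8 * (w : ℝ) ^ 2 * (Real.log N) ^ 2 * (1 + Real.log ℓ) ^ 2 < ℓ)
    {a n k : ℕ} (ha : 2 ≤ a) (hn : 1 ≤ n) (hk : 1 ≤ k) :
    a ^ ℓ + b ^ n ≠ c ^ k ∧ b ^ n + c ^ k ≠ a ^ ℓ ∧ c ^ k + a ^ ℓ ≠ b ^ n := by
  have hb : 2 ≤ b := hp.two_le.trans (Nat.le_of_dvd hb0 hpb)
  have hc : 2 ≤ c := hp'.two_le.trans (Nat.le_of_dvd hc0 hpc)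
  have hpc' : ¬ p ∣ c := by
    intro h
    have := Nat.dvd_gcd hpb h
    rw [hbc.gcd_eq_one] at this
    exact hp.one_lt.ne' (Nat.dvd_one.mp this)
  have hpb' : ¬ p' ∣ b := by
    intro h
    have := Nat.dvd_gcd h hpc
    rw [hbc.gcd_eq_one] at this
    exact hp'.one_lt.ne' (Nat.dvd_one.mp this)
  have hn0 : n ≠ 0 := by omega
  have hk0 : k ≠ 0 := by omega
  have hℓ0 : ℓ ≠ 0 := hℓ.ne_zero
  have hapos : 0 < a ^ ℓ := by positivity
  have hbpos : 0 < b ^ n := by positivity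
  have hcpos : 0 < c ^ k := by positivity
  refine ⟨?_, ?_, ?_⟩
  · intro h
    -- a^ℓ + b^n = c^k
    have hpa' : ¬ p' ∣ a := by
      intro hd
      have h1 : p' ∣ b ^ n := by
        have h2 : p' ∣ a ^ ℓ := dvd_pow hd hℓ0
        have h3 : p' ∣ c ^ k := dvd_pow hpc hk0
        rw [← h] at h3
        exact (Nat.dvd_add_right h2).mp h3
      exact hpb' (hp'.dvd_of_dvd_pow h1)
    refine stepA_core hN hp' hpw' (b := c) (c := b) (a := a) (n := k) (k := n) hc hb ha hcN hbN hpc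
      hpb' hpa' hk hn hℓ hbig (by omega) (η := -1) (Or.inr rfl) ?_
    have : ((a ^ ℓ + b ^ n : ℕ) : ℤ) = ((c ^ k : ℕ) : ℤ) := by rw [h]
    push_cast at this
    linarith
  · intro h
    have hpa : ¬ p ∣ a := by
      intro hd
      have h1 : p ∣ c ^ k := by
        have h2 : p ∣ a ^ ℓ := dvd_pow hd hℓ0
        have h3 : p ∣ b ^ n := dvd_pow hpb hn0
        rw [← h] at h2
        exact (Nat.dvd_add_right h3).mp h2
      exact hpc' (hp.dvd_of_dvd_pow h1)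
    have hpa' : ¬ p' ∣ a := by
      intro hd
      have h1 : p' ∣ b ^ n := by
        have h2 : p' ∣ a ^ ℓ := dvd_pow hd hℓ0
        have h3 : p' ∣ c ^ k := dvd_pow hpc hk0
        rw [← h] at h2
        exact (Nat.dvd_add_left h3).mp h2
      exact hpb' (hp'.dvd_of_dvd_pow h1)
    have hz : ((b ^ n + c ^ k : ℕ) : ℤ) = ((a ^ ℓ : ℕ) : ℤ) := by rw [h]
    push_cast at hz
    rcases le_total (c ^ k) (b ^ n) with hle | hle
    · exact stepA_core hN hp hpw (b := b) (c := c) (a := a) (n := n) (k := k) hb hc ha hbN hcN hpb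
        hpc' hpa hn hk hℓ hbig hle (η := 1) (Or.inl rfl) (by linarith)
    · exact stepA_core hN hp' hpw' (b := c) (c := b) (a := a) (n := k) (k := n) hc hb ha hcN hbN hpc
        hpb' hpa' hk hn hℓ hbig hle (η := 1) (Or.inl rfl) (by linarith)
  · intro h
    have hpa : ¬ p ∣ a := by
      intro hd
      have h1 : p ∣ c ^ k := by
        have h2 : p ∣ a ^ ℓ := dvd_pow hd hℓ0
        have h3 : p ∣ b ^ n := dvd_pow hpb hn0
        rw [← h] at h3
        exact (Nat.dvd_add_left h2).mp h3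
      exact hpc' (hp.dvd_of_dvd_pow h1)
    refine stepA_core hN hp hpw (b := b) (c := c) (a := a) (n := n) (k := k) hb hc ha hbN hcN hpb
      hpc' hpa hn hk hℓ hbig (by omega) (η := -1) (Or.inr rfl) ?_
    have : ((c ^ k + a ^ ℓ : ℕ) : ℤ) = ((b ^ n : ℕ) : ℤ) := by rw [h]
    push_cast at this
    linarith

/-- The numerical condition of `stepA` holds for `ℓ ≥ (log N) ^ 3` and `N` large. -/
theorem stepA_numeric (w : ℕ) : ∃ N₀ : ℕ, ∀ N : ℕ, N₀ ≤ N → ∀ ℓ : ℕ, (Real.log N) ^ 3 ≤ ℓ →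
    3.2 * 10 ^ 8 * (w : ℝ) ^ 2 * (Real.log N) ^ 2 * (1 + Real.log ℓ) ^ 2 < ℓ := by
  set K : ℝ := 3.2 * 10 ^ 8 * (w : ℝ) ^ 2 with hK
  have hK0 : 0 ≤ K := by positivity
  refine ⟨⌈Real.exp ((169 * K + 1) ^ 2)⌉₊ + 1, fun N hN ℓ hℓ => ?_⟩
  have hNR : Real.exp ((169 * K + 1) ^ 2) ≤ N := by
    have h1 : ((⌈Real.exp ((169 * K + 1) ^ 2)⌉₊ + 1 : ℕ) : ℝ) ≤ N := by exact_mod_cast hN
    push_cast at h1
    have := Nat.le_ceil (Real.exp ((169 * K + 1) ^ 2))
    linarith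
  have hN0 : (0 : ℝ) < N := lt_of_lt_of_le (Real.exp_pos _) hNR
  have hlogN : (169 * K + 1) ^ 2 ≤ Real.log N := by
    rw [Real.le_log_iff_exp_le hN0]; exact hNR
  have hu1 : 1 ≤ Real.log N := by nlinarith
  set u := Real.log N with hu
  have hℓ1 : (1 : ℝ) ≤ ℓ := by
    have : (1 : ℝ) ≤ u ^ 3 := one_le_pow₀ hu1
    linarith
  have hℓ0 : (0 : ℝ) < ℓ := by linarith
  set z : ℝ := (ℓ : ℝ) ^ (1 / 12 : ℝ) with hz
  have hz1 : 1 ≤ z := Real.one_le_rpow hℓ1 (by norm_num)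
  have hz12 : z ^ 12 = ℓ := by
    rw [hz, ← Real.rpow_natCast, ← Real.rpow_mul hℓ0.le]; norm_num
  have hlog : Real.log ℓ ≤ 12 * z := by
    have := Real.log_le_rpow_div hℓ0.le (show (0 : ℝ) < 1 / 12 by norm_num)
    rw [← hz] at this
    linarith
  have hlog0 : 0 ≤ Real.log ℓ := Real.log_nonneg hℓ1
  have h1 : (1 + Real.log ℓ) ^ 2 ≤ 169 * z ^ 2 := by nlinarith
  have h2 : u ≤ z ^ 4 := by
    have : u ^ 3 ≤ (z ^ 4) ^ 3 := by
      rw [← pow_mul]; norm_num; rw [hz12]; exact hℓ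
    exact le_of_pow_le_pow_left₀ (by norm_num) (by positivity) this
  have h3 : u ^ 2 ≤ z ^ 8 := by
    calc u ^ 2 ≤ (z ^ 4) ^ 2 := by gcongr
      _ = z ^ 8 := by ring
  have h4 : 169 * K < z ^ 2 := by
    have h5 : (169 * K + 1) ^ 2 ≤ (z ^ 2) ^ 2 := by
      calc (169 * K + 1) ^ 2 ≤ u := hlogN
        _ ≤ z ^ 4 := h2
        _ = (z ^ 2) ^ 2 := by ring
    have := le_of_pow_le_pow_left₀ (two_ne_zero) (by positivity) h5
    linarith
  calc K * u ^ 2 * (1 + Real.log ℓ) ^ 2 ≤ K * z ^ 8 * (169 * z ^ 2) := by gcongr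
    _ = (169 * K) * z ^ 10 := by ring
    _ < z ^ 2 * z ^ 10 := by
        apply mul_lt_mul_of_pos_right h4; positivity
    _ = ℓ := by rw [← pow_add]; norm_num; exact hz12

end Pool.Agent.Work.MP_2738db_nt_W
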