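import Pool.Agent.Work.MP_2738db_nt_W.TwoLog

/-!
Choice of parameters: the p-adic two logarithms theorem.
-/

namespace Pool.Agent.Work.MP_2738db_nt_W

open Finset BigOperators

lemma choose_bound {K ℓ k z : ℕ} (hK : 1 ≤ K) (hℓ : 1 ≤ ℓ) (hk : k < K) (hz : z ≤ K * ℓ) :
    (Nat.choose z k : ℝ) ≤ Real.exp K * (ℓ : ℝ) ^ K := by
  have hℓ0 : (0 : ℝ) < ℓ := by exact_mod_cast hℓ
  have hK0 : (0 : ℝ) < K := by exact_mod_cast hK
  have h1 : (Nat.choose z k : ℝ) ≤ Nat.choose (K * ℓ) k := by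
    exact_mod_cast Nat.choose_le_choose k hz
  have h2 : (Nat.choose (K * ℓ) k : ℝ) * (1 / ℓ : ℝ) ^ k ≤ (1 + 1 / ℓ : ℝ) ^ (K * ℓ) := by
    rw [add_comm, add_pow]
    by_cases hkk : k ≤ K * ℓ
    · have h3 := Finset.single_le_sum (f := fun m => (1 / ℓ : ℝ) ^ m * 1 ^ (K * ℓ - m) * (Nat.choose (K * ℓ) m : ℝ))
        (s := range (K * ℓ + 1)) (fun m _ => by positivity) (mem_range.mpr (Nat.lt_succ_of_le hkk))
      refine le_trans (le_of_eq ?_) h3
      simp only [one_pow, mul_one]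
      ring
    · rw [Nat.choose_eq_zero_of_lt (by omega)]
      simp only [Nat.cast_zero, zero_mul]
      positivity
  have h4 : (1 + 1 / ℓ : ℝ) ^ (K * ℓ) ≤ Real.exp K := by
    calc (1 + 1 / ℓ : ℝ) ^ (K * ℓ) ≤ (Real.exp (1 / ℓ)) ^ (K * ℓ) := by
          apply pow_le_pow_left₀ (by positivity)
          rw [add_comm]
          exact Real.add_one_le_exp _
      _ = Real.exp K := by
          rw [← Real.exp_nat_mul]
          congr 1
          push_cast
          field_simp
  have h5 : (Nat.choose (K * ℓ) k : ℝ) ≤ Real.exp K * (ℓ : ℝ) ^ k := by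
    have h6 := h2.trans h4
    rw [one_div, inv_pow] at h6
    have h7 : (0 : ℝ) < (ℓ : ℝ) ^ k := by positivity
    calc (Nat.choose (K * ℓ) k : ℝ) = ((Nat.choose (K * ℓ) k : ℝ) * ((ℓ : ℝ) ^ k)⁻¹) * (ℓ : ℝ) ^ k := by
          field_simp
      _ ≤ Real.exp K * (ℓ : ℝ) ^ k := mul_le_mul_of_nonneg_right h6 h7.le
  refine h1.trans (h5.trans ?_)
  apply mul_le_mul_of_nonneg_left _ (Real.exp_pos _).le
  exact pow_le_pow_right₀ (by exact_mod_cast hℓ) hk.le

lemma log_le_tenth {t : ℝ} (ht : 100 ≤ t) : Real.log t ≤ t / 10 := by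
  have h1 : Real.log t = Real.log (t / 100) + Real.log 100 := by
    rw [← Real.log_mul (by positivity) (by norm_num)]
    congr 1; ring
  have h2 : Real.log (t / 100) ≤ t / 100 - 1 := Real.log_le_sub_one_of_pos (by positivity)
  have h3 : Real.log 100 ≤ 5 := by
    rw [show (100 : ℝ) = 10 ^ 2 by norm_num, Real.log_pow]
    have h4 : Real.log 10 ≤ 5 / 2 := by
      rw [Real.log_le_iff_le_exp (by norm_num)]
      have h5 : (2.7 : ℝ) ≤ Real.exp 1 := by linarith [Real.exp_one_gt_d9]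
      have h6 : Real.exp (5 / 2) = (Real.exp 1) ^ (5 / 2 : ℝ) := by
        rw [← Real.exp_one_rpow]
      have h7 : Real.exp (5 / 2) = Real.exp 1 * Real.exp 1 * Real.exp (1 / 2) := by
        rw [← Real.exp_add, ← Real.exp_add]; norm_num
      have h8 : (1.5 : ℝ) ≤ Real.exp (1 / 2) := by
        have := Real.add_one_le_exp (1 / 2 : ℝ); linarith
      rw [h7]
      nlinarith
    push_cast
    linarith
  linarith

/-- p-adic two logarithms. -/
theorem two_log {p M : ℕ} (hp : p.Prime) {X Y k₀ ℓ : ℕ}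
    (hX0 : 1 ≤ X) (hY0 : 2 ≤ Y) (hℓ : 1 ≤ ℓ) (hcop : Nat.Coprime ℓ k₀)
    (hX : (p : ℤ) ∣ (X : ℤ) - 1) (hY : (p : ℤ) ∣ (Y : ℤ) - 1)
    (A B : ℝ) (hA : 1 ≤ A) (hB : 1 ≤ B) (hXA : Real.log X ≤ A) (hYB : Real.log Y ≤ B)
    (hk : (k₀ : ℝ) ≤ A * ℓ) (hℓB : 6200 * B * (1 + Real.log ℓ) ≤ ℓ)
    (h : (p : ℤ) ^ M ∣ (X : ℤ) ^ ℓ - (Y : ℤ) ^ k₀) :
    (M : ℝ) ≤ 4 * 10 ^ 7 * A * B * (1 + Real.log ℓ) ^ 2 := by
  by_contra hcon
  rw [not_le] at hcon
  have hℓ1 : (1 : ℝ) ≤ ℓ := by exact_mod_cast hℓ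
  set lam : ℝ := 1 + Real.log ℓ with hlam
  have hlam1 : 1 ≤ lam := by have := Real.log_nonneg hℓ1; linarith
  set L : ℕ := ⌈60 * lam⌉₊ with hLdef
  have hL1 : 60 * lam ≤ L := Nat.le_ceil _
  have hL2 : (L : ℝ) ≤ 61 * lam := by
    have := Nat.ceil_lt_add_one (show 0 ≤ 60 * lam by linarith)
    rw [← hLdef] at this
    linarith
  have hL60 : (60 : ℝ) ≤ L := by linarith
  set K : ℕ := ⌈10 ^ 4 * L * A * B⌉₊ with hKdef
  have hAB : 1 ≤ A * B := by nlinarith
  have hK1 : 10 ^ 4 * L * A * B ≤ K := Nat.le_ceil _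
  have hK2 : (K : ℝ) ≤ 10 ^ 4 * L * A * B + 1 := by
    have := Nat.ceil_lt_add_one (show 0 ≤ 10 ^ 4 * L * A * B by positivity)
    rw [← hKdef] at this
    linarith
  set R : ℕ := ⌈100 * L * B⌉₊ + 1 with hRdef
  have hR1 : 100 * L * B + 1 ≤ R := by
    rw [hRdef]; push_cast
    have := Nat.le_ceil (100 * L * B)
    linarith
  have hR2 : (R : ℝ) ≤ 100 * L * B + 2 := by
    rw [hRdef]; push_cast
    have := Nat.ceil_lt_add_one (show 0 ≤ 100 * L * B by positivity)
    linarith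
  set S : ℕ := ⌈100 * L * A⌉₊ with hSdef
  have hS1 : 100 * L * A ≤ S := Nat.le_ceil _
  have hS2 : (S : ℝ) ≤ 100 * L * A + 1 := by
    have := Nat.ceil_lt_add_one (show 0 ≤ 100 * L * A by positivity)
    rw [← hSdef] at this
    linarith
  set q : ℝ := L * (A * B) with hq
  have hLq : (L : ℝ) ≤ q := by rw [hq]; nlinarith
  have hLA : (L : ℝ) * A ≤ q := by rw [hq]; nlinarith [mul_nonneg (show (0:ℝ) ≤ L by positivity) (show (0:ℝ) ≤ A by linarith)]
  have hLB : (L : ℝ) * B ≤ q := by rw [hq]; nlinarith [mul_nonneg (show (0:ℝ) ≤ L by positivity) (show (0:ℝ) ≤ B by linarith)]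
  have hAq : 60 * A ≤ q := by nlinarith
  have hBq : 60 * B ≤ q := by nlinarith
  have hq60 : 60 ≤ q := by linarith
  have hKq : 10 ^ 4 * q ≤ K := by rw [hq]; linarith [hK1]
  have hK0 : 1 ≤ K := by
    have : (1 : ℝ) ≤ K := by linarith
    exact_mod_cast this
  have hL0 : 1 ≤ L := by
    have : (1 : ℝ) ≤ L := by linarith
    exact_mod_cast this
  -- conditions
  have hRℓ : R ≤ ℓ := by
    have h1 : (R : ℝ) ≤ ℓ := by
      have h2 : 100 * L * B ≤ 6100 * B * lam := by nlinarith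
      have h3 : (2 : ℝ) ≤ 100 * B * lam := by nlinarith
      nlinarith
    exact_mod_cast h1
  have hKL : K * L ≤ R * S := by
    have h1 : (K : ℝ) * L ≤ R * S := by
      calc (K : ℝ) * L ≤ (10 ^ 4 * L * A * B + 1) * L := by nlinarith
        _ ≤ (100 * L * B + 1) * (100 * L * A) := by nlinarith
        _ ≤ R * S := by
            apply mul_le_mul hR1 hS1 (by positivity) (by positivity)
    exact_mod_cast h1
  have hZ : R * k₀ + (S + L) * ℓ ≤ K * ℓ := by
    have h1 : (R : ℝ) * k₀ + (S + L) * ℓ ≤ K * ℓ := by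
      have h2 : (R : ℝ) * k₀ ≤ (100 * L * B + 2) * A * ℓ := by
        calc (R : ℝ) * k₀ ≤ (100 * L * B + 2) * (A * ℓ) :=
              mul_le_mul hR2 hk (by positivity) (by positivity)
          _ = _ := by ring
      have h3 : (100 * L * B + 2) * A + (S + L) ≤ K := by
        have h4 : (100 * L * B + 2) * A = 100 * q + 2 * A := by rw [hq]; ring
        rw [h4]
        nlinarith
      nlinarith
    exact_mod_cast h1
  have hM' : K * L ≤ M := by
    have h1 : (K : ℝ) * L ≤ M := by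
      calc (K : ℝ) * L ≤ (10 ^ 4 * L * A * B + 1) * L := by nlinarith
        _ ≤ (10 ^ 4 + 1) * L ^ 2 * (A * B) := by nlinarith [mul_nonneg (show (0:ℝ) ≤ L by positivity) (show (0:ℝ) ≤ L by positivity)]
        _ ≤ (10 ^ 4 + 1) * (61 * lam) ^ 2 * (A * B) := by
            apply mul_le_mul_of_nonneg_right _ (by linarith)
            apply mul_le_mul_of_nonneg_left _ (by norm_num)
            exact pow_le_pow_left₀ (by positivity) hL2 2
        _ ≤ 4 * 10 ^ 7 * A * B * lam ^ 2 := by nlinarith [mul_nonneg (show (0:ℝ) ≤ A * B by linarith) (sq_nonneg lam)]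
        _ ≤ M := hcon.le
    exact_mod_cast h1
  have hcore := core_ineq hp hX0 hY0 hcop hX hY h hRℓ hKL hK0 hL0 hM' hZ (Real.exp K * (ℓ : ℝ) ^ K)
    (fun k hk z hz => choose_bound hK0 hℓ hk hz)
  -- take logarithms
  set G : ℕ := ∑ l ∈ range L, l with hG
  have hG2 : (G : ℝ) * 2 = L * (L - 1) := by
    have h1 := Finset.sum_range_id_mul_two L
    rw [← hG] at h1
    have h2 : ((G * 2 : ℕ) : ℝ) = ((L * (L - 1) : ℕ) : ℝ) := by rw [h1]
    push_cast [Nat.cast_sub hL0] at h2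
    exact h2
  have hG3 : (49 / 100 : ℝ) * L ^ 2 ≤ G := by nlinarith
  have hXpos : (0 : ℝ) < X := by exact_mod_cast hX0
  have hYpos : (0 : ℝ) < Y := by exact_mod_cast (by omega : 0 < Y)
  have hℓpos : (0 : ℝ) < ℓ := by linarith
  have hlog := Real.log_le_log (by have := hp.pos; positivity) hcore
  have hfac : Real.log ((K * L).factorial : ℝ) ≤ (K * L : ℝ) * Real.log (K * L) := by
    have h1 : (((K * L).factorial : ℕ) : ℝ) ≤ ((K * L : ℕ) : ℝ) ^ (K * L) := by
      exact_mod_cast Nat.factorial_le_pow (K * L)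
    have h2 := Real.log_le_log (by positivity) h1
    rw [Real.log_pow] at h2
    push_cast at h2
    exact h2
  rw [Real.log_mul (by positivity) (by positivity), Real.log_mul (by positivity) (by positivity),
    Real.log_pow, Real.log_pow, Real.log_pow, Real.log_mul (Real.exp_pos _).ne' (by positivity),
    Real.log_exp, Real.log_pow, Real.log_mul (by positivity) (by positivity), Real.log_pow,
    Real.log_pow] at hlog
  push_cast at hlog
  have hlog2 : (69 / 100 : ℝ) ≤ Real.log p := by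
    have h1 : Real.log 2 ≤ Real.log p := Real.log_le_log (by norm_num) (by exact_mod_cast hp.two_le)
    have h2 := Real.log_two_gt_d9
    linarith
  have hK0' : (0 : ℝ) < K := by exact_mod_cast hK0
  have hL0' : (0 : ℝ) < L := by exact_mod_cast hL0
  have hG0 : (0 : ℝ) ≤ G := by positivity
  -- left side
  have hleft : (69 / 100 : ℝ) * (K * K * G) ≤ (K * K * G) * Real.log p := by
    rw [mul_comm]
    exact mul_le_mul_of_nonneg_left hlog2 (by positivity)
  -- exponent part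
  have hexp : (R : ℝ) * Real.log X + (S + L) * Real.log Y ≤ K * (21 / 1000) := by
    have h1 : (R : ℝ) * Real.log X ≤ (100 * L * B + 2) * A :=
      (mul_le_mul_of_nonneg_left hXA (by positivity)).trans (mul_le_mul_of_nonneg_right hR2 (by linarith))
    have h2 : ((S : ℝ) + L) * Real.log Y ≤ (100 * L * A + 1 + L) * B :=
      (mul_le_mul_of_nonneg_left hYB (by positivity)).trans (mul_le_mul_of_nonneg_right (by linarith) (by linarith))
    have h3 : (100 * L * B + 2) * A = 100 * q + 2 * A := by rw [hq]; ring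
    have h4 : (100 * L * A + 1 + L) * B = 100 * q + B + L * B := by rw [hq]; ring
    rw [h3] at h1
    rw [h4] at h2
    nlinarith
  have hexp2 : (K : ℝ) * G * (R * Real.log X + (S + L) * Real.log Y) ≤ (21 / 1000) * (K * K * G) := by
    calc (K : ℝ) * G * (R * Real.log X + (S + L) * Real.log Y) ≤ (K * G) * (K * (21 / 1000)) :=
          mul_le_mul_of_nonneg_left hexp (by positivity)
      _ = _ := by ring
  have hmid : (K : ℝ) * L * (K + K * Real.log ℓ) ≤ (K * K * L ^ 2) / 60 := by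
    have h1 : (K : ℝ) + K * Real.log ℓ = K * lam := by rw [hlam]; ring
    rw [h1]
    have h2 : lam ≤ L / 60 := by linarith
    calc (K : ℝ) * L * (K * lam) = (K * K * L) * lam := by ring
      _ ≤ (K * K * L) * (L / 60) := mul_le_mul_of_nonneg_left h2 (by positivity)
      _ = _ := by ring
  have hfac2 : (K * L : ℝ) * Real.log (K * L) ≤ (K * K * L ^ 2) / 10 := by
    have h1 : (100 : ℝ) ≤ K * L := by nlinarith
    have h2 := log_le_tenth h1
    calc (K * L : ℝ) * Real.log (K * L) ≤ (K * L : ℝ) * ((K * L) / 10) :=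
          mul_le_mul_of_nonneg_left h2 (by positivity)
      _ = _ := by ring
  have hfinal : (K * K * G : ℝ) * (669 / 1000) ≤ (K * K * L ^ 2) * (7 / 60) := by
    linarith
  have hKK : (0 : ℝ) < K * K := by positivity
  have h8 : (K * K * G : ℝ) * (669 / 1000) ≥ (K * K) * ((49 / 100) * L ^ 2) * (669 / 1000) := by
    apply mul_le_mul_of_nonneg_right _ (by norm_num)
    exact mul_le_mul_of_nonneg_left hG3 hKK.le
  have h9 : (0 : ℝ) < K * K * L ^ 2 := by positivity
  nlinarith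

end Pool.Agent.Work.MP_2738db_nt_W
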