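import Pool.Agent.Work.MP_2738db_nt_W.Local
import Pool.Agent.Work.MP_2738db_nt.Descent

/-!
Counting pairs in a box by residue conditions, the descent on the exponents, and the union bound.
-/

set_option autoImplicit false

namespace Pool.Agent.Work.MP_2738db_nt_W

open Finset BigOperators Pool.Agent.Work.MP_2738db_nt

/-- Pairs in the box `[1, N₁] × [1, N₂]` with residues in prescribed sets modulo the primes of
`Q`. -/
theorem box_count {Q : Finset ℕ} (hQ : ∀ q ∈ Q, q.Prime) {N₁ N₂ : ℕ} (hW₁ : ∏ q ∈ Q, q ≤ N₁)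
    (hW₂ : ∏ q ∈ Q, q ≤ N₂)
    (A : (q : ℕ) → Set (ZMod q × ZMod q)) (hA : ∀ q ∈ Q, 6 * Nat.card (A q) ≤ 5 * q ^ 2) :
    (Nat.card {p : ℕ × ℕ // (p.1 ≤ N₁ ∧ p.2 ≤ N₂) ∧
      ∀ q ∈ Q, ((p.1 : ZMod q), (p.2 : ZMod q)) ∈ A q} : ℝ) ≤
      4 * ((N₁ : ℝ) * N₂) * (5 / 6) ^ Q.card := by
  classical
  set W := ∏ q ∈ Q, q with hWdef
  have hW0 : 0 < W := Finset.prod_pos (fun q hq => (hQ q hq).pos)
  have hNm : ∀ N : ℕ, N < (N / W + 1) * W := by
    intro N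
    rw [add_mul, one_mul]
    have := Nat.div_add_mod N W
    have := Nat.mod_lt N hW0
    rw [mul_comm (N / W)]
    omega
  have hm2 : ∀ N : ℕ, W ≤ N → (N / W + 1) * W ≤ 2 * N := by
    intro N hN
    rw [add_mul, one_mul]
    have := Nat.div_mul_le_self N W
    omega
  set m₁ := N₁ / W + 1 with hm₁
  set m₂ := N₂ / W + 1 with hm₂
  have hne : ∀ q : Q, NeZero (q : ℕ) := fun q => ⟨(hQ q q.2).ne_zero⟩
  have hle : Nat.card {p : ℕ × ℕ // (p.1 ≤ N₁ ∧ p.2 ≤ N₂) ∧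
      ∀ q ∈ Q, ((p.1 : ZMod q), (p.2 : ZMod q)) ∈ A q} ≤
      Nat.card ((Fin m₁ × Fin m₂) × ((q : Q) → A (q : ℕ))) := by
    apply Nat.card_le_card_of_injective (fun p : {p : ℕ × ℕ // (p.1 ≤ N₁ ∧ p.2 ≤ N₂) ∧
      ∀ q ∈ Q, ((p.1 : ZMod q), (p.2 : ZMod q)) ∈ A q} =>
      (((⟨p.1.1 / W, (Nat.div_lt_iff_lt_mul hW0).mpr (lt_of_le_of_lt p.2.1.1 (hNm N₁))⟩,
        ⟨p.1.2 / W, (Nat.div_lt_iff_lt_mul hW0).mpr (lt_of_le_of_lt p.2.1.2 (hNm N₂))⟩) :
          Fin m₁ × Fin m₂),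
        (fun q : Q => (⟨((p.1.1 : ZMod (q : ℕ)), (p.1.2 : ZMod (q : ℕ))), p.2.2 q q.2⟩ : A (q : ℕ)))))
    rintro ⟨⟨x, y⟩, hp⟩ ⟨⟨x', y'⟩, hp'⟩ h
    simp only [Prod.mk.injEq, Fin.mk.injEq] at h
    obtain ⟨⟨h1, h2⟩, h3⟩ := h
    have key : ∀ u v : ℕ, u / W = v / W → (∀ q ∈ Q, (u : ZMod q) = (v : ZMod q)) → u = v := by
      intro u v huv hq
      have h4 : u ≡ v [MOD W] := by
        rw [hWdef]
        have h5 : ((∏ q ∈ Q, q : ℕ) : ℤ) ∣ (v : ℤ) - u := by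
          have h6 : ∀ q ∈ Q, (q : ℤ) ∣ (v : ℤ) - u := by
            intro q hqQ
            have := (ZMod.natCast_eq_natCast_iff u v q).mp (hq q hqQ)
            exact this.dvd
          have h7 : (∏ q ∈ Q, (q : ℤ)) ∣ (v : ℤ) - u := by
            apply Finset.prod_dvd_of_coprime
            · intro q hq q' hq' hqq
              have : Nat.Coprime q q' := (Nat.coprime_primes (hQ q hq) (hQ q' hq')).mpr hqq
              exact Nat.isCoprime_iff_coprime.mpr this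
            · exact h6
          rw [Nat.cast_prod]
          exact h7
        exact (Nat.modEq_iff_dvd).mpr h5
      have h5 : u % W = v % W := h4
      rw [← Nat.div_add_mod u W, ← Nat.div_add_mod v W, huv, h5]
    have h4 : ∀ q ∈ Q, (x : ZMod q) = (x' : ZMod q) ∧ (y : ZMod q) = (y' : ZMod q) := by
      intro q hq
      have h5 := congrFun h3 ⟨q, hq⟩
      have h6 := congrArg Subtype.val h5
      simp only [Prod.mk.injEq] at h6
      exact h6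
    have e1 := key x x' h1 (fun q hq => (h4 q hq).1)
    have e2 := key y y' h2 (fun q hq => (h4 q hq).2)
    subst e1
    subst e2
    rfl
  have hcard : (Nat.card ((Fin m₁ × Fin m₂) × ((q : Q) → A (q : ℕ))) : ℝ) ≤
      4 * ((N₁ : ℝ) * N₂) * (5 / 6) ^ Q.card := by
    rw [Nat.card_prod, Nat.card_prod, Nat.card_pi, Nat.card_eq_fintype_card (α := Fin m₁),
      Fintype.card_fin, Nat.card_eq_fintype_card (α := Fin m₂), Fintype.card_fin]
    push_cast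
    have h1 : ∏ q : Q, (Nat.card (A (q : ℕ)) : ℝ) ≤ ∏ q : Q, ((5 / 6) * (q : ℝ) ^ 2) := by
      apply Finset.prod_le_prod
      · intro q _; positivity
      · intro q _
        have h2 : (6 : ℝ) * Nat.card (A (q : ℕ)) ≤ 5 * ((q : ℕ) : ℝ) ^ 2 := by
          exact_mod_cast hA q q.2
        linarith
    have h2 : ∏ q : Q, ((5 / 6) * ((q : ℕ) : ℝ) ^ 2) = (5 / 6) ^ Q.card * (W : ℝ) ^ 2 := by
      rw [Finset.prod_mul_distrib, Finset.prod_const, Finset.card_univ, Fintype.card_coe,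
        Finset.prod_pow]
      congr 2
      rw [hWdef]
      push_cast
      exact Finset.prod_coe_sort Q (fun q => (q : ℝ))
    rw [h2] at h1
    have h3 : (m₁ : ℝ) * W ≤ 2 * N₁ := by exact_mod_cast hm2 N₁ hW₁
    have h4 : (m₂ : ℝ) * W ≤ 2 * N₂ := by exact_mod_cast hm2 N₂ hW₂
    calc (m₁ : ℝ) * m₂ * ∏ q : Q, (Nat.card (A (q : ℕ)) : ℝ)
        ≤ (m₁ : ℝ) * m₂ * ((5 / 6) ^ Q.card * (W : ℝ) ^ 2) := by gcongr
      _ = ((m₁ : ℝ) * W) * ((m₂ : ℝ) * W) * (5 / 6) ^ Q.card := by ring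
      _ ≤ (2 * N₁) * (2 * N₂) * (5 / 6) ^ Q.card := by gcongr
      _ = _ := by ring
  calc (Nat.card {p : ℕ × ℕ // (p.1 ≤ N₁ ∧ p.2 ≤ N₂) ∧
        ∀ q ∈ Q, ((p.1 : ZMod q), (p.2 : ZMod q)) ∈ A q} : ℝ)
      ≤ (Nat.card ((Fin m₁ × Fin m₂) × ((q : Q) → A (q : ℕ))) : ℝ) := by exact_mod_cast hle
    _ ≤ _ := hcard

/-- One descent step. -/
lemma descent_one {S : Set ℕ} {ℓ r b c n k : ℕ} (hr : r.Prime) (hrodd : Odd r) (hrS : r ∈ S)
    (hbc : Nat.Coprime b c) {e : ℤ} (he : e = 1 ∨ e = -1) {s z : ℕ} (hs0 : s ≠ 0) (hs : Supp S s)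
    (heq : ((b : ℤ) ^ (r * n) + e * (c : ℤ) ^ (r * k)).natAbs = s * z ^ ℓ) (hℓ : ℓ ≠ 0) :
    ∃ s' w : ℕ, s' ≠ 0 ∧ Supp S s' ∧ ((b : ℤ) ^ n + e * (c : ℤ) ^ k).natAbs = s' * w ^ ℓ := by
  set X : ℤ := (b : ℤ) ^ n with hX
  set Y : ℤ := e * (c : ℤ) ^ k with hY
  have hel : e ^ r = e := by
    rcases he with rfl | rfl
    · simp
    · exact hrodd.neg_one_pow
  have hXY : (b : ℤ) ^ (r * n) + e * (c : ℤ) ^ (r * k) = X ^ r + Y ^ r := by
    rw [hX, hY, mul_pow, hel, ← pow_mul, ← pow_mul, mul_comm n r, mul_comm k r]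
  rw [hXY] at heq
  by_cases hXY0 : X + Y = 0
  · refine ⟨1, 0, one_ne_zero, supp_one S, ?_⟩
    rw [hXY0, zero_pow hℓ]
    simp
  have hne : X ^ r + Y ^ r ≠ 0 := by
    intro h0
    apply hXY0
    have h1 : X ^ r = (-Y) ^ r := by rw [hrodd.neg_pow]; linarith
    have h2 : X = -Y := hrodd.strictMono_pow.injective h1
    linarith
  have hval : ∀ p : ℕ, p.Prime → p ∉ S → ℓ ∣ (X + Y).natAbs.factorization p := by
    intro p hp hpS
    by_cases hd : (p : ℤ) ∣ X + Y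
    · have hpl : ¬ p ∣ r := by
        intro hpl
        rw [(Nat.prime_dvd_prime_iff_eq hp hr).mp hpl] at hpS
        exact hpS hrS
      have hXd : ¬ (p : ℤ) ∣ X := by
        intro hpX
        have hpY : (p : ℤ) ∣ Y := (dvd_add_right hpX).mp hd
        have hpa : p ∣ b := by
          have : p ∣ b ^ n := by
            have h3 : (p : ℤ) ∣ ((b ^ n : ℕ) : ℤ) := by push_cast; exact hpX
            exact_mod_cast h3
          exact hp.dvd_of_dvd_pow this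
        have hpb : p ∣ c := by
          have h3 : (p : ℤ) ∣ (c : ℤ) ^ k := by
            rcases he with rfl | rfl
            · rw [hY, one_mul] at hpY; exact hpY
            · rw [hY, neg_one_mul] at hpY; exact (dvd_neg).mp hpY
          have h4 : (p : ℤ) ∣ ((c ^ k : ℕ) : ℤ) := by push_cast; exact h3
          have : p ∣ c ^ k := by exact_mod_cast h4
          exact hp.dvd_of_dvd_pow this
        have := Nat.dvd_gcd hpa hpb
        rw [hbc] at this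
        exact hp.one_lt.ne' (Nat.dvd_one.mp this)
      rw [factorization_eq_of_pow hrodd hp hpl hXd hd hXY0 hne]
      exact dvd_factorization_of_eq (Int.natAbs_ne_zero.mpr hne) hs heq hp hpS
    · have h3 : ¬ p ∣ (X + Y).natAbs := by
        intro h4
        exact hd (Int.natCast_dvd.mpr h4)
      rw [Nat.factorization_eq_zero_of_not_dvd h3]
      exact dvd_zero _
  obtain ⟨s', w, hs'0, hs', hw⟩ := exists_decomp (Int.natAbs_ne_zero.mpr hXY0) hval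
  exact ⟨s', w, hs'0, hs', hw⟩

/-- The full descent: the gcd of the exponents gets prime to the odd primes of `S`. -/
lemma descent_all {S : Set ℕ} {ℓ b c : ℕ} (hℓ : ℓ ≠ 0) (hbc : Nat.Coprime b c) {e : ℤ}
    (he : e = 1 ∨ e = -1) : ∀ n k : ℕ, 0 < n → 0 < k → ∀ s z : ℕ, s ≠ 0 → Supp S s →
      ((b : ℤ) ^ n + e * (c : ℤ) ^ k).natAbs = s * z ^ ℓ →
      ∃ n1 k1 : ℕ, 0 < n1 ∧ 0 < k1 ∧ (∀ r : ℕ, r.Prime → r ≠ 2 → r ∈ S → ¬ (r ∣ n1 ∧ r ∣ k1)) ∧
        ∃ s' w : ℕ, s' ≠ 0 ∧ Supp S s' ∧ ((b : ℤ) ^ n1 + e * (c : ℤ) ^ k1).natAbs = s' * w ^ ℓ := by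
  intro n
  induction n using Nat.strong_induction_on with
  | _ n ih =>
  intro k hn hk s z hs0 hs heq
  by_cases hex : ∃ r : ℕ, r.Prime ∧ r ≠ 2 ∧ r ∈ S ∧ r ∣ n ∧ r ∣ k
  · obtain ⟨r, hr, hr2, hrS, ⟨n', rfl⟩, ⟨k', rfl⟩⟩ := hex
    have hrodd : Odd r := hr.odd_of_ne_two hr2
    have hn' : 0 < n' := Nat.pos_of_mul_pos_left hn
    have hk' : 0 < k' := Nat.pos_of_mul_pos_left hk
    have hlt : n' < r * n' := by
      have := hr.two_le
      nlinarith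
    obtain ⟨s', w, hs'0, hs', hw⟩ := descent_one hr hrodd hrS hbc he hs0 hs heq hℓ
    exact ih n' hlt k' hn' hk' s' w hs'0 hs' hw
  · refine ⟨n, k, hn, hk, ?_, s, z, hs0, hs, heq⟩
    intro r hr hr2 hrS hd
    exact hex ⟨r, hr, hr2, hrS, hd.1, hd.2⟩

/-- The reduced numbers supported on the primes of `L`. -/
def red (L ℓ : ℕ) (e : L.primeFactors → Fin ℓ) : ℕ := ∏ p : L.primeFactors, (p : ℕ) ^ ((e p : ℕ))

lemma exists_red' {L ℓ s : ℕ} (hℓ : 0 < ℓ) (hs0 : s ≠ 0) (hs : Supp {p | p ∈ L.primeFactors} s) :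
    ∃ (e : L.primeFactors → Fin ℓ) (u : ℕ), s = red L ℓ e * u ^ ℓ := by
  classical
  refine ⟨fun p => ⟨s.factorization p % ℓ, Nat.mod_lt _ hℓ⟩,
    ∏ p : L.primeFactors, (p : ℕ) ^ (s.factorization p / ℓ), ?_⟩
  rw [red, ← Finset.prod_pow, ← Finset.prod_mul_distrib]
  have h1 : ∏ p : L.primeFactors, (p : ℕ) ^ (s.factorization p) = s := by
    rw [Finset.prod_coe_sort L.primeFactors (fun p => p ^ (s.factorization p))]
    conv_rhs => rw [← Nat.prod_factorization_pow_eq_self hs0]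
    rw [Finsupp.prod, Nat.support_factorization]
    symm
    apply Finset.prod_subset
    · intro p hp
      exact hs p (Nat.prime_of_mem_primeFactors hp) (Nat.dvd_of_mem_primeFactors hp)
    · intro p hp hps
      have hpp := Nat.prime_of_mem_primeFactors hp
      have : s.factorization p = 0 := by
        apply Nat.factorization_eq_zero_of_not_dvd
        intro hd
        exact hps (Nat.mem_primeFactors.mpr ⟨hpp, hd, hs0⟩)
      rw [this, pow_zero]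
  conv_lhs => rw [← h1]
  apply Finset.prod_congr rfl
  intro p _
  rw [← pow_mul, ← pow_add]
  congr 1
  have := Nat.mod_add_div (s.factorization p) ℓ
  simp only
  rw [mul_comm (s.factorization p / ℓ) ℓ]
  exact this.symm

lemma red_ne_zero {L ℓ q : ℕ} [Fact q.Prime] (hqL : ¬ q ∣ L) (e : L.primeFactors → Fin ℓ) :
    ((red L ℓ e : ℕ) : ZMod q) ≠ 0 := by
  classical
  rw [red]
  push_cast
  apply Finset.prod_ne_zero_iff.mpr
  intro p _
  apply pow_ne_zero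
  intro h0
  have h1 := (ZMod.natCast_eq_zero_iff _ _).mp h0
  exact hqL (h1.trans (Nat.dvd_of_mem_primeFactors p.2))

/-- Exponents matter only modulo `L`. -/
lemma pow_reduce {q L n : ℕ} [hq : Fact q.Prime] (hqL : q - 1 ∣ L) (hn : 0 < n) (x : ZMod q) :
    x ^ n = x ^ ((n - 1) % L + 1) := by
  by_cases hx : x = 0
  · rw [hx, zero_pow hn.ne', zero_pow (by omega)]
  · have h1 : x ^ L = 1 := by
      obtain ⟨t, rfl⟩ := hqL
      rw [pow_mul, ZMod.pow_card_sub_one_eq_one hx, one_pow]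
    have h2 : n = L * ((n - 1) / L) + ((n - 1) % L + 1) := by
      have := Nat.div_add_mod (n - 1) L
      omega
    conv_lhs => rw [h2, pow_add, pow_mul, h1, one_pow, one_mul]

/-- The gcd condition. -/
lemma gcd_le_two {q g : ℕ} (hq : q % 4 = 3) (hg : g ∣ q - 1)
    (h : ∀ r : ℕ, r.Prime → r ≠ 2 → ¬ r ∣ g) : g ≤ 2 := by
  rcases Nat.eq_two_pow_or_exists_odd_prime_and_dvd g with ⟨v, hv⟩ | ⟨r, hr, hrg, hrodd⟩
  · rcases Nat.lt_or_ge v 2 with h1 | h1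
    · interval_cases v <;> simp at hv <;> omega
    · exfalso
      have h4 : 4 ∣ q - 1 := by
        refine Dvd.dvd.trans ?_ hg
        rw [hv]
        exact pow_dvd_pow 2 h1
      omega
  · exfalso
    refine h r hr ?_ hrg
    rintro rfl
    exact (by decide : ¬ Odd 2) hrodd

/-- The bad pairs for the exponent `ℓ`. -/
def BadPow (N₁ N₂ ℓ : ℕ) : Set (ℕ × ℕ) :=
  {p | (1 ≤ p.1 ∧ p.1 ≤ N₁) ∧ (1 ≤ p.2 ∧ p.2 ≤ N₂) ∧ Nat.Coprime p.1 p.2 ∧
    ∃ a n k : ℕ, 0 < n ∧ 0 < k ∧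
      (a ^ ℓ + p.1 ^ n = p.2 ^ k ∨ p.1 ^ n + p.2 ^ k = a ^ ℓ ∨ p.2 ^ k + a ^ ℓ = p.1 ^ n)}

/-- **The sieve bound.** -/
theorem sieve_bound {ℓ N₁ N₂ L : ℕ} {Q : Finset ℕ} (hℓ : ℓ.Prime) (hℓ2 : ℓ ≠ 2) (hL : 0 < L)
    (hQ : ∀ q ∈ Q, q.Prime ∧ q % 4 = 3 ∧ ℓ ∣ q - 1 ∧ q - 1 ∣ L ∧ ¬ q ∣ L ∧ 24 ≤ q)
    (hW₁ : ∏ q ∈ Q, q ≤ N₁) (hW₂ : ∏ q ∈ Q, q ≤ N₂) :
    (Nat.card (BadPow N₁ N₂ ℓ) : ℝ) ≤
      8 * (L : ℝ) ^ 2 * (ℓ : ℝ) ^ L.primeFactors.card * (5 / 6) ^ Q.card * ((N₁ : ℝ) * N₂) := by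
  classical
  have hfinbox : ∀ P : Set (ℕ × ℕ), (∀ p ∈ P, (1 ≤ p.1 ∧ p.1 ≤ N₁) ∧ (1 ≤ p.2 ∧ p.2 ≤ N₂)) →
      P.Finite ∧ Nat.card P ≤ N₁ * N₂ := by
    intro P hP
    have h1 : P ⊆ ((Finset.Icc 1 N₁) ×ˢ (Finset.Icc 1 N₂) : Finset (ℕ × ℕ)) := by
      intro p hp
      have := hP p hp
      simp only [Finset.coe_product, Finset.coe_Icc, Set.mem_prod, Set.mem_Icc]
      exact this
    refine ⟨(Finset.finite_toSet _).subset h1, ?_⟩
    have h2 := Set.ncard_le_ncard h1 (Finset.finite_toSet _)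
    rw [Set.ncard_coe_finset, Finset.card_product, Nat.card_Icc, Nat.card_Icc] at h2
    rw [Nat.card_coe_set_eq]
    simpa using h2
  rcases Q.eq_empty_or_nonempty with hQe | hQne
  · have h1 := (hfinbox (BadPow N₁ N₂ ℓ) (fun p hp => ⟨hp.1, hp.2.1⟩)).2
    have hL1 : (1 : ℝ) ≤ L := by exact_mod_cast hL
    have hℓ1 : (1 : ℝ) ≤ ℓ := by exact_mod_cast hℓ.one_lt.le
    rw [hQe, Finset.card_empty, pow_zero, mul_one]
    have h2 : (1 : ℝ) ≤ (L : ℝ) ^ 2 := one_le_pow₀ hL1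
    have h3 : (1 : ℝ) ≤ (ℓ : ℝ) ^ L.primeFactors.card := one_le_pow₀ hℓ1
    calc (Nat.card (BadPow N₁ N₂ ℓ) : ℝ) ≤ ((N₁ * N₂ : ℕ) : ℝ) := by exact_mod_cast h1
      _ = 1 * 1 * 1 * ((N₁ : ℝ) * N₂) := by push_cast; ring
      _ ≤ 8 * (L : ℝ) ^ 2 * (ℓ : ℝ) ^ L.primeFactors.card * ((N₁ : ℝ) * N₂) := by
          gcongr
          norm_num
  have hℓL : ℓ ∣ L := by
    obtain ⟨q, hq⟩ := hQne
    exact (hQ q hq).2.2.1.trans (hQ q hq).2.2.2.1
  -- the index set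
  let ι := (Fin L × Fin L) × (Bool × (L.primeFactors → Fin ℓ))
  let sg : Bool → ℤ := fun t => if t then 1 else -1
  let good : Fin L → Fin L → Prop := fun i j =>
    (∀ q ∈ Q, Nat.gcd (Nat.gcd ((i : ℕ) + 1) ((j : ℕ) + 1)) (q - 1) ≤ 2) ∧
      ¬ (ℓ ∣ (i : ℕ) + 1 ∧ ℓ ∣ (j : ℕ) + 1)
  let Bx : ι → Set (ℕ × ℕ) := fun t =>
    {p | good t.1.1 t.1.2 ∧ (p.1 ≤ N₁ ∧ p.2 ≤ N₂) ∧ ∀ q ∈ Q, ((p.1 : ZMod q), (p.2 : ZMod q)) ∈
      {r : ZMod q × ZMod q | ∃ s : ZMod q, r.1 ^ ((t.1.1 : ℕ) + 1) +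
        ((sg t.2.1 : ℤ) : ZMod q) * r.2 ^ ((t.1.2 : ℕ) + 1) = (red L ℓ t.2.2 : ZMod q) * s ^ ℓ}}
  have hBx : ∀ t : ι, (Nat.card (Bx t) : ℝ) ≤ 4 * ((N₁ : ℝ) * N₂) * (5 / 6) ^ Q.card := by
    intro t
    by_cases hg : good t.1.1 t.1.2
    · have h1 := box_count (Q := Q) (fun q hq => (hQ q hq).1) hW₁ hW₂
        (fun q => {r : ZMod q × ZMod q | ∃ s : ZMod q, r.1 ^ ((t.1.1 : ℕ) + 1) +
          ((sg t.2.1 : ℤ) : ZMod q) * r.2 ^ ((t.1.2 : ℕ) + 1) = (red L ℓ t.2.2 : ZMod q) * s ^ ℓ})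
        (by
          intro q hq
          have : Fact q.Prime := ⟨(hQ q hq).1⟩
          obtain ⟨_, _, h3, h4, h5, h6⟩ := hQ q hq
          apply local_count hℓ hℓ2 h3 h6 (Nat.succ_pos _) (Nat.succ_pos _) (hg.1 q hq) hg.2
          · simp only [sg]
            split_ifs <;> simp
          · exact red_ne_zero h5 _)
      refine le_trans (le_of_eq ?_) h1
      congr 1
      apply Nat.card_congr
      apply Equiv.subtypeEquivRight
      intro p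
      simp only [Bx, Set.mem_ofPred_eq]
      exact ⟨fun h => h.2, fun h => ⟨hg, h⟩⟩
    · have : Bx t = ∅ := by
        ext p
        simp only [Bx, Set.mem_ofPred_eq, Set.mem_empty_iff_false, iff_false]
        exact fun h => hg h.1
      rw [this]
      simp
      positivity
  -- covering
  have hcover : BadPow N₁ N₂ ℓ ⊆ ⋃ t : ι, Bx t := by
    rintro ⟨b, c⟩ ⟨⟨hb1, hbN⟩, ⟨hc1, hcN⟩, hbc, a, n, k, hn, hk, heq⟩
    simp only at hb1 hbN hc1 hcN hbc heq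
    obtain ⟨sgn, hsgn⟩ : ∃ t : Bool, ((b : ℤ) ^ n + sg t * (c : ℤ) ^ k).natAbs = 1 * a ^ ℓ := by
      rcases heq with h | h | h
      · refine ⟨false, ?_⟩
        have : ((a ^ ℓ + b ^ n : ℕ) : ℤ) = ((c ^ k : ℕ) : ℤ) := by rw [h]
        push_cast at this
        have h2 : (b : ℤ) ^ n + sg false * (c : ℤ) ^ k = - (((a ^ ℓ : ℕ)) : ℤ) := by
          simp only [sg]; push_cast; simp; linarith
        rw [h2, Int.natAbs_neg, Int.natAbs_natCast, one_mul]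
      · refine ⟨true, ?_⟩
        have : ((b ^ n + c ^ k : ℕ) : ℤ) = ((a ^ ℓ : ℕ) : ℤ) := by rw [h]
        push_cast at this
        have h2 : (b : ℤ) ^ n + sg true * (c : ℤ) ^ k = (((a ^ ℓ : ℕ)) : ℤ) := by
          simp only [sg]; push_cast; simp; linarith
        rw [h2, Int.natAbs_natCast, one_mul]
      · refine ⟨false, ?_⟩
        have : ((c ^ k + a ^ ℓ : ℕ) : ℤ) = ((b ^ n : ℕ) : ℤ) := by rw [h]
        push_cast at this
        have h2 : (b : ℤ) ^ n + sg false * (c : ℤ) ^ k = (((a ^ ℓ : ℕ)) : ℤ) := by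
          simp only [sg]; push_cast; simp; linarith
        rw [h2, Int.natAbs_natCast, one_mul]
    have hsg1 : sg sgn = 1 ∨ sg sgn = -1 := by
      simp only [sg]
      split_ifs
      · left; rfl
      · right; rfl
    obtain ⟨n1, k1, hn1, hk1, hS, s, w, hs0, hs, hw⟩ :=
      descent_all (S := {p | p ∈ L.primeFactors}) hℓ.ne_zero hbc hsg1 n k hn hk 1 a one_ne_zero
        (supp_one _) hsgn
    obtain ⟨e, u, heu⟩ := exists_red' hℓ.pos hs0 hs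
    have hi : (n1 - 1) % L < L := Nat.mod_lt _ hL
    have hj : (k1 - 1) % L < L := Nat.mod_lt _ hL
    rw [Set.mem_iUnion]
    refine ⟨((⟨(n1 - 1) % L, hi⟩, ⟨(k1 - 1) % L, hj⟩), (sgn, e)), ?_, ⟨hbN, hcN⟩, ?_⟩
    · -- good
      have hmod : ∀ d m : ℕ, 0 < m → d ∣ L → (d ∣ (m - 1) % L + 1 ↔ d ∣ m) := by
        intro d m hm hd
        have h2 : m = L * ((m - 1) / L) + ((m - 1) % L + 1) := by
          have := Nat.div_add_mod (m - 1) L
          omega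
        constructor
        · intro h
          rw [h2]
          exact dvd_add (hd.mul_right _) h
        · intro h
          rw [h2] at h
          exact (Nat.dvd_add_right (hd.mul_right _)).mp h
      refine ⟨?_, ?_⟩
      · intro q hq
        obtain ⟨_, hq4, _, hqL, _, _⟩ := hQ q hq
        apply gcd_le_two hq4 (Nat.gcd_dvd_right _ _)
        intro r hr hr2 hrg
        have hrq : r ∣ q - 1 := hrg.trans (Nat.gcd_dvd_right _ _)
        have hrL : r ∣ L := hrq.trans hqL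
        have hr1 : r ∣ Nat.gcd ((n1 - 1) % L + 1) ((k1 - 1) % L + 1) :=
          hrg.trans (Nat.gcd_dvd_left _ _)
        have h1 := (hmod r n1 hn1 hrL).mp (hr1.trans (Nat.gcd_dvd_left _ _))
        have h2 := (hmod r k1 hk1 hrL).mp (hr1.trans (Nat.gcd_dvd_right _ _))
        exact hS r hr hr2 (Nat.mem_primeFactors.mpr ⟨hr, hrL, hL.ne'⟩) ⟨h1, h2⟩
      · rintro ⟨h1, h2⟩
        have h1' := (hmod ℓ n1 hn1 hℓL).mp h1
        have h2' := (hmod ℓ k1 hk1 hℓL).mp h2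
        exact hS ℓ hℓ hℓ2 (Nat.mem_primeFactors.mpr ⟨hℓ, hℓL, hL.ne'⟩) ⟨h1', h2'⟩
    · intro q hq
      have : Fact q.Prime := ⟨(hQ q hq).1⟩
      obtain ⟨_, hq4, _, hqL, _, _⟩ := hQ q hq
      simp only [Set.mem_ofPred_eq]
      rw [← pow_reduce hqL hn1, ← pow_reduce hqL hk1]
      have hodd : Odd ℓ := hℓ.odd_of_ne_two hℓ2
      -- sign
      obtain ⟨δ, hδ, hδeq⟩ : ∃ δ : ℤ, (δ = 1 ∨ δ = -1) ∧
          (b : ℤ) ^ n1 + sg sgn * (c : ℤ) ^ k1 = δ * ((s * w ^ ℓ : ℕ) : ℤ) := by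
        rw [← hw]
        rcases Int.natAbs_eq ((b : ℤ) ^ n1 + sg sgn * (c : ℤ) ^ k1) with h1 | h1
        · exact ⟨1, Or.inl rfl, by rw [one_mul]; exact h1⟩
        · exact ⟨-1, Or.inr rfl, by rw [neg_one_mul]; exact h1⟩
      refine ⟨((δ * (u * w : ℤ) : ℤ) : ZMod q), ?_⟩
      have hδℓ : δ ^ ℓ = δ := by
        rcases hδ with rfl | rfl
        · simp
        · exact hodd.neg_one_pow
      have h1 : (b : ℤ) ^ n1 + sg sgn * (c : ℤ) ^ k1 = (red L ℓ e : ℤ) * (δ * (u * w : ℤ)) ^ ℓ := by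
        rw [hδeq, mul_pow δ, hδℓ, heu]
        push_cast
        ring
      have h2 := congrArg (Int.cast : ℤ → ZMod q) h1
      push_cast at h2 ⊢
      exact h2
  -- counting
  have hBfin : ∀ t : ι, (Bx t).Finite := by
    intro t
    have h1 : Bx t ⊆ ((Finset.Icc 0 N₁) ×ˢ (Finset.Icc 0 N₂) : Finset (ℕ × ℕ)) := by
      intro p hp
      simp only [Finset.coe_product, Finset.coe_Icc, Set.mem_prod, Set.mem_Icc]
      exact ⟨⟨Nat.zero_le _, hp.2.1.1⟩, ⟨Nat.zero_le _, hp.2.1.2⟩⟩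
    exact (Finset.finite_toSet _).subset h1
  have hcount : Nat.card (BadPow N₁ N₂ ℓ) ≤ ∑ t : ι, Nat.card (Bx t) := by
    have h1 : (⋃ t : ι, Bx t).Finite := Set.finite_iUnion hBfin
    have h2 := Set.ncard_le_ncard hcover h1
    have h3 := Set.ncard_iUnion_le_of_fintype Bx
    rw [Nat.card_coe_set_eq]
    refine (h2.trans h3).trans (le_of_eq ?_)
    apply Finset.sum_congr rfl
    intro t _
    rw [Nat.card_coe_set_eq]
  have hι : Fintype.card ι = L * L * (2 * ℓ ^ L.primeFactors.card) := by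
    simp only [ι, Fintype.card_prod, Fintype.card_fin, Fintype.card_bool, Fintype.card_fun,
      Fintype.card_coe]
  calc (Nat.card (BadPow N₁ N₂ ℓ) : ℝ) ≤ ((∑ t : ι, Nat.card (Bx t) : ℕ) : ℝ) := by
        exact_mod_cast hcount
    _ = ∑ t : ι, (Nat.card (Bx t) : ℝ) := by push_cast; rfl
    _ ≤ ∑ _t : ι, 4 * ((N₁ : ℝ) * N₂) * (5 / 6) ^ Q.card := Finset.sum_le_sum (fun t _ => hBx t)
    _ = (Fintype.card ι : ℝ) * (4 * ((N₁ : ℝ) * N₂) * (5 / 6) ^ Q.card) := by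
        rw [Finset.sum_const, Finset.card_univ, nsmul_eq_mul]
    _ = _ := by rw [hι]; push_cast; ring

end Pool.Agent.Work.MP_2738db_nt_W
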