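import Pool.Agent.Work.MP_2738db_nt_W.StepA
import Pool.Agent.Work.MP_2738db_nt_W.Box
import Pool.Agent.Work.MP_2738db_nt.Pairs

/-!
Assembly: for almost all coprime pairs `b, c`, no `b ^ n + c ^ k` and no `|b ^ n - c ^ k|` is a
perfect power.
-/

set_option autoImplicit false

namespace Pool.Agent.Work.MP_2738db_nt_W

open Finset BigOperators Pool.Agent.Work.MP_2738db_nt

/-- What is needed about primes in progressions. -/
def SieveHyp (A : ℕ) : Prop :=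
  ∃ T₀ : ℝ, ∀ t : ℝ, T₀ ≤ t → ∀ ℓ : ℕ, ℓ.Prime → ℓ ≠ 2 → (ℓ : ℝ) ≤ t ^ A →
    ∃ (Q : Finset ℕ) (L : ℕ), 0 < L ∧
      (∀ q ∈ Q, q.Prime ∧ q % 4 = 3 ∧ ℓ ∣ q - 1 ∧ q - 1 ∣ L ∧ ¬ q ∣ L ∧ 100 * ℓ ≤ q) ∧
      ((∏ q ∈ Q, q : ℕ) : ℝ) ≤ Real.exp (t ^ 4) ∧
      8 * (L : ℝ) ^ 2 * (ℓ : ℝ) ^ (L.primeFactors.card) * (5 / 6 : ℝ) ^ (Q.card) ≤ (t⁻¹) ^ (A + 4)

/-- Pairs in a box in a set of residue classes. -/
lemma card_box_residues {M N₁ N₂ : ℕ} (hM : 0 < M) (hMN₁ : M ≤ N₁) (hMN₂ : M ≤ N₂)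
    (R : Set (ZMod M × ZMod M)) {δ : ℝ} (hδ : 0 ≤ δ) (hR : (Nat.card R : ℝ) ≤ δ * (M : ℝ) ^ 2) :
    (Nat.card {p : ℕ × ℕ // (p.1 ≤ N₁ ∧ p.2 ≤ N₂) ∧ ((p.1 : ZMod M), (p.2 : ZMod M)) ∈ R} : ℝ) ≤
      4 * δ * ((N₁ : ℝ) * N₂) := by
  classical
  have : NeZero M := ⟨hM.ne'⟩
  have hNm : ∀ N : ℕ, N < (N / M + 1) * M := by
    intro N
    rw [add_mul, one_mul]
    have := Nat.div_add_mod N M
    have := Nat.mod_lt N hM
    rw [mul_comm (N / M)]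
    omega
  have hm2 : ∀ N : ℕ, M ≤ N → (N / M + 1) * M ≤ 2 * N := by
    intro N hN
    rw [add_mul, one_mul]
    have := Nat.div_mul_le_self N M
    omega
  set m₁ := N₁ / M + 1 with hm₁
  set m₂ := N₂ / M + 1 with hm₂
  have hle : Nat.card {p : ℕ × ℕ // (p.1 ≤ N₁ ∧ p.2 ≤ N₂) ∧
      ((p.1 : ZMod M), (p.2 : ZMod M)) ∈ R} ≤ Nat.card ((Fin m₁ × Fin m₂) × R) := by
    apply Nat.card_le_card_of_injective (fun p : {p : ℕ × ℕ // (p.1 ≤ N₁ ∧ p.2 ≤ N₂) ∧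
      ((p.1 : ZMod M), (p.2 : ZMod M)) ∈ R} =>
      (((⟨p.1.1 / M, (Nat.div_lt_iff_lt_mul hM).mpr (lt_of_le_of_lt p.2.1.1 (hNm N₁))⟩,
        ⟨p.1.2 / M, (Nat.div_lt_iff_lt_mul hM).mpr (lt_of_le_of_lt p.2.1.2 (hNm N₂))⟩) :
          Fin m₁ × Fin m₂),
        (⟨((p.1.1 : ZMod M), (p.1.2 : ZMod M)), p.2.2⟩ : R)))
    rintro ⟨⟨x, y⟩, hp⟩ ⟨⟨x', y'⟩, hp'⟩ h
    simp only [Prod.mk.injEq, Fin.mk.injEq, Subtype.mk.injEq] at h
    obtain ⟨⟨h1, h2⟩, h3, h4⟩ := h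
    have key : ∀ u v : ℕ, u / M = v / M → (u : ZMod M) = (v : ZMod M) → u = v := by
      intro u v huv hq
      have h5 : u % M = v % M := (ZMod.natCast_eq_natCast_iff u v M).mp hq
      rw [← Nat.div_add_mod u M, ← Nat.div_add_mod v M, huv, h5]
    have e1 := key x x' h1 h3
    have e2 := key y y' h2 h4
    subst e1
    subst e2
    rfl
  have h1 : (Nat.card ((Fin m₁ × Fin m₂) × R) : ℝ) = (m₁ : ℝ) * m₂ * Nat.card R := by
    rw [Nat.card_prod, Nat.card_prod, Nat.card_eq_fintype_card (α := Fin m₁), Fintype.card_fin,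
      Nat.card_eq_fintype_card (α := Fin m₂), Fintype.card_fin]
    push_cast
    ring
  have h3 : (m₁ : ℝ) * M ≤ 2 * N₁ := by exact_mod_cast hm2 N₁ hMN₁
  have h4 : (m₂ : ℝ) * M ≤ 2 * N₂ := by exact_mod_cast hm2 N₂ hMN₂
  calc (Nat.card {p : ℕ × ℕ // (p.1 ≤ N₁ ∧ p.2 ≤ N₂) ∧ ((p.1 : ZMod M), (p.2 : ZMod M)) ∈ R} : ℝ)
      ≤ (Nat.card ((Fin m₁ × Fin m₂) × R) : ℝ) := by exact_mod_cast hle
    _ = (m₁ : ℝ) * m₂ * Nat.card R := h1
    _ ≤ (m₁ : ℝ) * m₂ * (δ * (M : ℝ) ^ 2) := by gcongr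
    _ = δ * (((m₁ : ℝ) * M) * ((m₂ : ℝ) * M)) := by ring
    _ ≤ δ * ((2 * N₁) * (2 * N₂)) := by gcongr
    _ = 4 * δ * ((N₁ : ℝ) * N₂) := by ring

/-- Residues free of small prime factors are rare. -/
lemma exists_rough (δ : ℝ) (hδ : 0 < δ) : ∃ w : ℕ,
    (Nat.card {v : ZMod (primorial w) //
      ∀ q (hq : q ∈ PP w), (ZMod.castHom (dvd_primorial_of_mem hq) (ZMod q)) v ≠ 0} : ℝ)
      ≤ δ * (primorial w : ℝ) := by
  classical
  -- divergence of the sum of reciprocals of primes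
  have hdiv : ∃ w : ℕ, - Real.log δ ≤ ∑ q ∈ PP w, (1 : ℝ) / q := by
    have h0 := not_summable_one_div_on_primes
    rw [not_summable_iff_tendsto_nat_atTop_of_nonneg (by
      intro n
      apply Set.indicator_nonneg
      intro x _
      positivity)] at h0
    obtain ⟨w, hw⟩ := (Filter.tendsto_atTop.mp h0 (- Real.log δ)).exists_forall_of_atTop
    refine ⟨w, ?_⟩
    have h1 := hw (w + 1) (Nat.le_succ w)
    refine h1.trans (le_of_eq ?_)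
    rw [PP, Finset.sum_filter]
    apply Finset.sum_congr rfl
    intro n _
    rw [Set.indicator_apply]
    rfl
  obtain ⟨w, hw⟩ := hdiv
  refine ⟨w, ?_⟩
  have h1 := card_compl_le (d := 1) (y := w) (fun q u => u 0 = 0)
  have h2 : Nat.card {v : ZMod (primorial w) //
      ∀ q (hq : q ∈ PP w), (ZMod.castHom (dvd_primorial_of_mem hq) (ZMod q)) v ≠ 0} =
      Nat.card {v : Fin 1 → ZMod (primorial w) // ∀ q (hq : q ∈ PP w),
        ¬ (fun i => ZMod.castHom (dvd_primorial_of_mem hq) (ZMod q) (v i)) 0 = 0} := by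
    apply Nat.card_congr
    exact
      { toFun := fun v => ⟨fun _ => v.1, fun q hq => v.2 q hq⟩
        invFun := fun v => ⟨v.1 0, fun q hq => v.2 q hq⟩
        left_inv := fun v => by
          apply Subtype.ext
          rfl
        right_inv := fun v => by
          apply Subtype.ext
          funext i
          fin_cases i
          rfl }
  rw [h2]
  refine h1.trans ?_
  rw [pow_one, mul_comm]
  have h3 : Real.exp (- ∑ q ∈ PP w, (Nat.card {u : Fin 1 → ZMod q // u 0 = 0} : ℝ) / (q : ℝ) ^ 1) ≤ δ := by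
    rw [← Real.le_log_iff_exp_le hδ, neg_le]
    refine hw.trans (le_of_eq ?_)
    apply Finset.sum_congr rfl
    intro q hq
    have h4 : Nat.card {u : Fin 1 → ZMod q // u 0 = 0} = 1 := by
      rw [Nat.card_eq_one_iff_unique]
      refine ⟨⟨?_⟩, ⟨⟨fun _ => 0, rfl⟩⟩⟩
      rintro ⟨u, hu⟩ ⟨v, hv⟩
      apply Subtype.ext
      funext i
      fin_cases i
      simp only [Fin.zero_eta]
      rw [hu, hv]
    rw [h4]
    simp
  gcongr

/-- The bad pairs. -/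
def Bad (N₁ N₂ : ℕ) : Set (ℕ × ℕ) :=
  {p | (1 ≤ p.1 ∧ p.1 ≤ N₁) ∧ (1 ≤ p.2 ∧ p.2 ≤ N₂) ∧ Nat.Coprime p.1 p.2 ∧
    ∃ a m n k : ℕ, 1 ≤ a ∧ 2 ≤ m ∧ 1 ≤ n ∧ 1 ≤ k ∧
      (a ^ m + p.1 ^ n = p.2 ^ k ∨ p.1 ^ n + p.2 ^ k = a ^ m ∨ p.2 ^ k + a ^ m = p.1 ^ n)}

/-- A finite version of the case `ℓ = 2`. -/
lemma square_part (δ : ℝ) (hδ : 0 < δ) : ∃ (M : ℕ) (R : Set (ZMod M × ZMod M)), 0 < M ∧
    (Nat.card R : ℝ) ≤ δ * (M : ℝ) ^ 2 ∧
    ∀ b c a n k : ℕ, 0 < n → 0 < k → Nat.Coprime b c →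
      (a ^ 2 + b ^ n = c ^ k ∨ b ^ n + c ^ k = a ^ 2 ∨ c ^ k + a ^ 2 = b ^ n) →
      ((b : ZMod M), (c : ZMod M)) ∈ R := by
  classical
  obtain ⟨y0, hy0⟩ := aa_genPair 2 δ hδ
  obtain ⟨R, hR, hR'⟩ := hy0 y0 le_rfl
  let f : ZMod (primorial y0) × ZMod (primorial y0) → (Fin 2 → ZMod (primorial y0)) :=
    fun p => ![p.1, p.2]
  have hf : Function.Injective f := by
    intro p p' h
    have h0 := congrFun h 0
    have h1 := congrFun h 1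
    simp only [f, Matrix.cons_val_zero, Matrix.cons_val_one] at h0 h1
    exact Prod.ext h0 h1
  refine ⟨primorial y0, {p | f p ∉ R}, primorial_pos y0, ?_, ?_⟩
  · have h1 : Nat.card {p : ZMod (primorial y0) × ZMod (primorial y0) | f p ∉ R} ≤ (Rᶜ : Finset _).card := by
      have h2 : Nat.card {p : ZMod (primorial y0) × ZMod (primorial y0) | f p ∉ R} ≤
          Nat.card (Rᶜ : Finset (Fin 2 → ZMod (primorial y0))) := by
        apply Nat.card_le_card_of_injective (fun p : {p : ZMod (primorial y0) × ZMod (primorial y0) | f p ∉ R} =>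
          (⟨f p.1, Finset.mem_compl.mpr p.2⟩ : (Rᶜ : Finset (Fin 2 → ZMod (primorial y0)))))
        intro p p' h
        exact Subtype.ext (hf (congrArg Subtype.val h))
      rwa [Nat.card_eq_fintype_card (α := (Rᶜ : Finset (Fin 2 → ZMod (primorial y0)))),
        Fintype.card_coe] at h2
    have h3 : (R.card : ℝ) + ((Rᶜ : Finset _).card : ℝ) = (primorial y0 : ℝ) ^ 2 := by
      have h4 := Finset.card_add_card_compl R
      rw [Fintype.card_fun, ZMod.card, Fintype.card_fin] at h4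
      exact_mod_cast h4
    have h5 : (Nat.card {p : ZMod (primorial y0) × ZMod (primorial y0) | f p ∉ R} : ℝ) ≤ ((Rᶜ : Finset _).card : ℝ) := by
      exact_mod_cast h1
    linarith
  · intro b c a n k hn hk hbc heq hmem
    have hgen : GenPair 2 b c := by
      have h1 := hR' ![b, c] (by
        have h2 : (fun i => ((![b, c] : Fin 2 → ℕ) i : ZMod (primorial y0))) =
            f ((b : ZMod (primorial y0)), (c : ZMod (primorial y0))) := by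
          funext i
          fin_cases i <;> simp [f]
        rw [h2]
        exact hmem)
      simpa using h1
    obtain ⟨h1, h2, h3⟩ := genPair_contra (s := 1) (z := a) hbc hgen Nat.prime_two le_rfl hn hk
      one_ne_zero (noLarge_one 2)
    rw [one_mul] at h1 h2 h3
    rcases heq with h | h | h
    · exact h3 (by rw [← h]; ring)
    · exact h1 h
    · exact h2 h.symm

/-- **Assembly.** -/
theorem main_bound (κ : ℕ) (hyp : SieveHyp (12 * κ)) (ε : ℝ) (hε : 0 < ε) :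
    ∃ N₀ : ℕ, ∀ N₁ N₂ : ℕ, N₀ ≤ N₁ → N₀ ≤ N₂ → Real.log N₁ ≤ (Real.log N₂) ^ κ →
      Real.log N₂ ≤ (Real.log N₁) ^ κ → (Nat.card (Bad N₁ N₂) : ℝ) ≤ ε * ((N₁ : ℝ) * N₂) := by
  classical
  obtain ⟨T₀, hT⟩ := hyp
  -- parameters
  obtain ⟨M, R, hM, hRcard, hR⟩ := square_part (ε / 16) (by positivity)
  obtain ⟨w, hw⟩ := exists_rough (ε / 16) (by positivity)
  obtain ⟨N₃, hN₃⟩ := stepA_numeric w
  -- pairs with rough first coordinate
  set P := primorial w with hP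
  have hPpos : 0 < P := primorial_pos w
  set Rg : Set (ZMod P) := {v | ∀ q (hq : q ∈ PP w),
    (ZMod.castHom (dvd_primorial_of_mem hq) (ZMod q)) v ≠ 0} with hRg
  have hRg1 : (Nat.card Rg : ℝ) ≤ ε / 16 * P := hw
  set R1 : Set (ZMod P × ZMod P) := {v | v.1 ∈ Rg} with hR1
  set R2 : Set (ZMod P × ZMod P) := {v | v.2 ∈ Rg} with hR2
  have hcR1 : (Nat.card R1 : ℝ) ≤ ε / 16 * (P : ℝ) ^ 2 := by
    have h1 : Nat.card R1 ≤ Nat.card (Rg × ZMod P) := by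
      apply Nat.card_le_card_of_injective (fun p : R1 => ((⟨p.1.1, p.2⟩ : Rg), p.1.2))
      rintro ⟨⟨x, y⟩, h⟩ ⟨⟨x', y'⟩, h'⟩ heq
      simp only [Prod.mk.injEq, Subtype.mk.injEq] at heq
      obtain ⟨rfl, rfl⟩ := heq
      rfl
    rw [Nat.card_prod, Nat.card_zmod] at h1
    calc (Nat.card R1 : ℝ) ≤ ((Nat.card Rg * P : ℕ) : ℝ) := by exact_mod_cast h1
      _ = (Nat.card Rg : ℝ) * P := by push_cast; ring
      _ ≤ (ε / 16 * P) * P := by gcongr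
      _ = _ := by ring
  have hcR2 : (Nat.card R2 : ℝ) ≤ ε / 16 * (P : ℝ) ^ 2 := by
    have h1 : Nat.card R2 ≤ Nat.card (Rg × ZMod P) := by
      apply Nat.card_le_card_of_injective (fun p : R2 => ((⟨p.1.2, p.2⟩ : Rg), p.1.1))
      rintro ⟨⟨x, y⟩, h⟩ ⟨⟨x', y'⟩, h'⟩ heq
      simp only [Prod.mk.injEq, Subtype.mk.injEq] at heq
      obtain ⟨rfl, rfl⟩ := heq
      rfl
    rw [Nat.card_prod, Nat.card_zmod] at h1
    calc (Nat.card R2 : ℝ) ≤ ((Nat.card Rg * P : ℕ) : ℝ) := by exact_mod_cast h1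
      _ = (Nat.card Rg : ℝ) * P := by push_cast; ring
      _ ≤ (ε / 16 * P) * P := by gcongr
      _ = _ := by ring
  have hrough : ∀ b : ℕ, (∀ p : ℕ, p.Prime → p ≤ w → ¬ p ∣ b) → ((b : ZMod P)) ∈ Rg := by
    intro b hb q hq h0
    rw [map_natCast] at h0
    exact hb q (mem_PP.mp hq).1 (mem_PP.mp hq).2 ((ZMod.natCast_eq_zero_iff _ _).mp h0)
  refine ⟨max (max N₃ (max M P)) (max 3 (max ⌈Real.exp ((max T₀ 1) ^ 4)⌉₊ ⌈Real.exp (4 / ε)⌉₊)),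
    fun N₁ N₂ hN₁ hN₂ hκ₁ hκ₂ => ?_⟩
  -- the smaller and the larger side
  set Nm := min N₁ N₂ with hNm
  set N := max N₁ N₂ with hNdef
  have hmin := le_min hN₁ hN₂
  rw [← hNm] at hmin
  have hmN : Nm ≤ N := (min_le_left _ _).trans (le_max_left _ _)
  have hNmM : M ≤ Nm := le_trans (le_trans (le_trans (le_max_left _ _) (le_max_right _ _)) (le_max_left _ _)) hmin
  have hNmP : P ≤ Nm := le_trans (le_trans (le_trans (le_max_right _ _) (le_max_right _ _)) (le_max_left _ _)) hmin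
  have hNN₃ : N₃ ≤ N := le_trans (le_trans (le_trans (le_max_left _ _) (le_max_left _ _)) hmin) hmN
  have hNm3 : 3 ≤ Nm := le_trans (le_trans (le_max_left _ _) (le_max_right _ _)) hmin
  have hNmT : ⌈Real.exp ((max T₀ 1) ^ 4)⌉₊ ≤ Nm :=
    le_trans (le_trans (le_trans (le_max_left _ _) (le_max_right _ _)) (le_max_right _ _)) hmin
  have hNmε : ⌈Real.exp (4 / ε)⌉₊ ≤ Nm :=
    le_trans (le_trans (le_trans (le_max_right _ _) (le_max_right _ _)) (le_max_right _ _)) hmin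
  have hm₁ : Nm ≤ N₁ := min_le_left _ _
  have hm₂ : Nm ≤ N₂ := min_le_right _ _
  have hM₁ : N₁ ≤ N := le_max_left _ _
  have hM₂ : N₂ ≤ N := le_max_right _ _
  have hNm0 : (0 : ℝ) < Nm := by
    have : (3 : ℝ) ≤ Nm := by exact_mod_cast hNm3
    linarith
  have hN3 : 3 ≤ N := hNm3.trans hmN
  have hN0 : (0 : ℝ) < N := by
    have : (3 : ℝ) ≤ N := by exact_mod_cast hN3
    linarith
  set v := Real.log Nm with hv
  set u := Real.log N with hu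
  have hv1 : 1 ≤ v := by
    rw [hv, Real.le_log_iff_exp_le hNm0]
    have h1 := Real.exp_one_lt_d9
    have h2 : (3 : ℝ) ≤ Nm := by exact_mod_cast hNm3
    linarith
  have hv0 : 0 < v := by linarith
  have hvT : (max T₀ 1) ^ 4 ≤ v := by
    rw [hv, Real.le_log_iff_exp_le hNm0]
    exact (Nat.le_ceil _).trans (by exact_mod_cast hNmT)
  have hvε : 4 / ε ≤ v := by
    rw [hv, Real.le_log_iff_exp_le hNm0]
    exact (Nat.le_ceil _).trans (by exact_mod_cast hNmε)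
  have huv : u ≤ v ^ κ := by
    rcases le_total N₁ N₂ with h | h
    · have e1 : N = N₂ := max_eq_right h
      have e2 : Nm = N₁ := min_eq_left h
      rw [hu, e1, hv, e2]
      exact hκ₂
    · have e1 : N = N₁ := max_eq_left h
      have e2 : Nm = N₂ := min_eq_right h
      rw [hu, e1, hv, e2]
      exact hκ₁
  have hu0 : 0 < u := by
    have : v ≤ u := Real.log_le_log hNm0 (by exact_mod_cast hmN)
    linarith
  set t : ℝ := v ^ (1 / 4 : ℝ) with ht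
  have ht0 : 0 < t := Real.rpow_pos_of_pos hv0 _
  have ht1 : 1 ≤ t := Real.one_le_rpow hv1 (by norm_num)
  have ht4 : t ^ 4 = v := by
    rw [ht, ← Real.rpow_natCast, ← Real.rpow_mul hv0.le]; norm_num
  have hu3 : u ^ 3 ≤ t ^ (12 * κ) := by
    calc u ^ 3 ≤ (v ^ κ) ^ 3 := by gcongr
      _ = t ^ (12 * κ) := by rw [← ht4, ← pow_mul, ← pow_mul]; congr 1; ring
  have htT : T₀ ≤ t := by
    by_contra hcon
    rw [not_le] at hcon
    have h1 : t < max T₀ 1 := lt_of_lt_of_le hcon (le_max_left _ _)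
    have : t ^ 4 < (max T₀ 1) ^ 4 := by gcongr
    linarith
  -- the sieve part
  set Ls : Finset ℕ := (Finset.Icc 1 ⌊u ^ 3⌋₊).filter (fun ℓ => ℓ.Prime ∧ ℓ ≠ 2) with hLs
  have hsieve : ∀ ℓ ∈ Ls, (Nat.card (BadPow N₁ N₂ ℓ) : ℝ) ≤
      (t⁻¹) ^ (12 * κ + 4) * ((N₁ : ℝ) * N₂) := by
    intro ℓ hℓ
    rw [hLs, Finset.mem_filter, Finset.mem_Icc] at hℓ
    obtain ⟨⟨hℓ1, hℓu⟩, hℓp, hℓ2⟩ := hℓ
    have hℓR : (ℓ : ℝ) ≤ t ^ (12 * κ) :=
      ((Nat.le_floor_iff (by positivity)).mp hℓu).trans hu3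
    obtain ⟨Q, L, hL, hQ, hW, hfin⟩ := hT t htT ℓ hℓp hℓ2 hℓR
    have hW' : ∏ q ∈ Q, q ≤ Nm := by
      rw [ht4, hv, Real.exp_log hNm0] at hW
      exact_mod_cast hW
    have h1 := sieve_bound hℓp hℓ2 hL (Q := Q) (N₁ := N₁) (N₂ := N₂) (fun q hq => by
      obtain ⟨h1, h2, h3, h4, h5, h6⟩ := hQ q hq
      refine ⟨h1, h2, h3, h4, h5, ?_⟩
      have := hℓp.two_le
      omega) (hW'.trans hm₁) (hW'.trans hm₂)
    refine h1.trans ?_
    gcongr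
  -- covering
  set B0 : Set (ℕ × ℕ) := {p | (p.1 ≤ N₁ ∧ p.2 ≤ N₂) ∧ ((p.1 : ZMod M), (p.2 : ZMod M)) ∈ R} with hB0
  set B1 : Set (ℕ × ℕ) := {p | (p.1 ≤ N₁ ∧ p.2 ≤ N₂) ∧ ((p.1 : ZMod P), (p.2 : ZMod P)) ∈ R1} with hB1
  set B2 : Set (ℕ × ℕ) := {p | (p.1 ≤ N₁ ∧ p.2 ≤ N₂) ∧ ((p.1 : ZMod P), (p.2 : ZMod P)) ∈ R2} with hB2
  have hcB0 : (Nat.card B0 : ℝ) ≤ 4 * (ε / 16) * ((N₁ : ℝ) * N₂) :=
    card_box_residues hM (hNmM.trans hm₁) (hNmM.trans hm₂) R (by positivity) hRcard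
  have hcB1 : (Nat.card B1 : ℝ) ≤ 4 * (ε / 16) * ((N₁ : ℝ) * N₂) :=
    card_box_residues hPpos (hNmP.trans hm₁) (hNmP.trans hm₂) R1 (by positivity) hcR1
  have hcB2 : (Nat.card B2 : ℝ) ≤ 4 * (ε / 16) * ((N₁ : ℝ) * N₂) :=
    card_box_residues hPpos (hNmP.trans hm₁) (hNmP.trans hm₂) R2 (by positivity) hcR2
  have hfinbox : ∀ S : Set (ℕ × ℕ), (∀ p ∈ S, p.1 ≤ N₁ ∧ p.2 ≤ N₂) → S.Finite := by
    intro S hS
    have h1 : S ⊆ ((Finset.Icc 0 N₁) ×ˢ (Finset.Icc 0 N₂) : Finset (ℕ × ℕ)) := by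
      intro p hp
      have := hS p hp
      simp only [Finset.coe_product, Finset.coe_Icc, Set.mem_prod, Set.mem_Icc]
      exact ⟨⟨Nat.zero_le _, this.1⟩, ⟨Nat.zero_le _, this.2⟩⟩
    exact (Finset.finite_toSet _).subset h1
  have hcover : Bad N₁ N₂ ⊆ (B0 ∪ B1 ∪ B2) ∪ ⋃ ℓ ∈ Ls, BadPow N₁ N₂ ℓ := by
    rintro ⟨b, c⟩ ⟨⟨hb1, hbN⟩, ⟨hc1, hcN⟩, hbc, a, m, n, k, ha, hm, hn, hk, heq⟩
    simp only at hb1 hbN hc1 hcN hbc heq
    -- a prime factor of `m`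
    obtain ⟨ℓ, hℓ, m', rfl⟩ : ∃ ℓ : ℕ, ℓ.Prime ∧ ℓ ∣ m := Nat.exists_prime_and_dvd (by omega)
    set a' := a ^ m' with ha'
    have haa : a ^ (ℓ * m') = a' ^ ℓ := by rw [ha', ← pow_mul, mul_comm]
    rw [haa] at heq
    have ha'1 : 1 ≤ a' := Nat.one_le_pow _ _ ha
    by_cases hsq : ℓ = 2 ∨ a' = 1
    · -- squares
      have heq2 : ∃ z : ℕ, (z ^ 2 + b ^ n = c ^ k ∨ b ^ n + c ^ k = z ^ 2 ∨ c ^ k + z ^ 2 = b ^ n) := by
        rcases hsq with rfl | h1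
        · exact ⟨a', heq⟩
        · rw [h1, one_pow] at heq
          exact ⟨1, by rw [one_pow]; exact heq⟩
      obtain ⟨z, hz⟩ := heq2
      left; left; left
      exact ⟨⟨hbN, hcN⟩, hR b c z n k hn hk hbc hz⟩
    · rw [not_or] at hsq
      obtain ⟨hℓ2, ha1⟩ := hsq
      by_cases hℓu : ℓ ≤ ⌊u ^ 3⌋₊
      · right
        rw [Set.mem_iUnion₂]
        refine ⟨ℓ, ?_, ⟨hb1, hbN⟩, ⟨hc1, hcN⟩, hbc, a', n, k, hn, hk, heq⟩
        rw [hLs, Finset.mem_filter, Finset.mem_Icc]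
        exact ⟨⟨hℓ.one_lt.le, hℓu⟩, hℓ, hℓ2⟩
      · left
        have hℓR : u ^ 3 ≤ ℓ := by
          rw [not_le] at hℓu
          exact (Nat.lt_of_floor_lt hℓu).le
        have hbig := hN₃ N hNN₃ ℓ hℓR
        by_cases hbr : ∃ p : ℕ, p.Prime ∧ p ≤ w ∧ p ∣ b
        · by_cases hcr : ∃ p : ℕ, p.Prime ∧ p ≤ w ∧ p ∣ c
          · exfalso
            obtain ⟨p, hp, hpw, hpb⟩ := hbr
            obtain ⟨p', hp', hpw', hpc⟩ := hcr
            obtain ⟨h1, h2, h3⟩ := stepA hN3 (by omega) (by omega) (hbN.trans hM₁) (hcN.trans hM₂)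
              hbc hp hpw hpb hp' hpw' hpc hℓ hbig (a := a') (n := n) (k := k) (by omega) hn hk
            rcases heq with h | h | h
            · exact h1 h
            · exact h2 h
            · exact h3 h
          · right
            refine ⟨⟨hbN, hcN⟩, ?_⟩
            exact hrough c (fun p hp hpw hpc => hcr ⟨p, hp, hpw, hpc⟩)
        · left; right
          refine ⟨⟨hbN, hcN⟩, ?_⟩
          exact hrough b (fun p hp hpw hpc => hbr ⟨p, hp, hpw, hpc⟩)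
  -- counting
  have hB0f : B0.Finite := hfinbox B0 (fun p hp => hp.1)
  have hB1f : B1.Finite := hfinbox B1 (fun p hp => hp.1)
  have hB2f : B2.Finite := hfinbox B2 (fun p hp => hp.1)
  have hBpf : ∀ ℓ, (BadPow N₁ N₂ ℓ).Finite := fun ℓ =>
    hfinbox _ (fun p hp => ⟨hp.1.2, hp.2.1.2⟩)
  have hUf : (⋃ ℓ ∈ Ls, BadPow N₁ N₂ ℓ).Finite :=
    Set.Finite.biUnion (Finset.finite_toSet Ls) (fun ℓ _ => hBpf ℓ)
  have hc1 : (Bad N₁ N₂).ncard ≤ B0.ncard + B1.ncard + B2.ncard +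
      ∑ ℓ ∈ Ls, (BadPow N₁ N₂ ℓ).ncard := by
    have h1 := Set.ncard_le_ncard hcover (((hB0f.union hB1f).union hB2f).union hUf)
    have h2 := Set.ncard_union_le (B0 ∪ B1 ∪ B2) (⋃ ℓ ∈ Ls, BadPow N₁ N₂ ℓ)
    have h3 := Set.ncard_union_le (B0 ∪ B1) B2
    have h4 := Set.ncard_union_le B0 B1
    have h5 : (⋃ ℓ ∈ Ls, BadPow N₁ N₂ ℓ).ncard ≤ ∑ ℓ ∈ Ls, (BadPow N₁ N₂ ℓ).ncard :=
      Finset.set_ncard_biUnion_le Ls _
    omega
  have hc2 : (Nat.card (Bad N₁ N₂) : ℝ) ≤ Nat.card B0 + Nat.card B1 + Nat.card B2 +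
      ∑ ℓ ∈ Ls, (Nat.card (BadPow N₁ N₂ ℓ) : ℝ) := by
    simp only [Nat.card_coe_set_eq]
    exact_mod_cast hc1
  have hc3 : ∑ ℓ ∈ Ls, (Nat.card (BadPow N₁ N₂ ℓ) : ℝ) ≤ ε / 4 * ((N₁ : ℝ) * N₂) := by
    have hcard : (Ls.card : ℝ) ≤ t ^ (12 * κ) := by
      have h1 : Ls.card ≤ ⌊u ^ 3⌋₊ := by
        rw [hLs]
        refine (Finset.card_filter_le _ _).trans ?_
        rw [Nat.card_Icc]
        omega
      calc (Ls.card : ℝ) ≤ (⌊u ^ 3⌋₊ : ℝ) := by exact_mod_cast h1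
        _ ≤ u ^ 3 := Nat.floor_le (by positivity)
        _ ≤ _ := hu3
    calc ∑ ℓ ∈ Ls, (Nat.card (BadPow N₁ N₂ ℓ) : ℝ)
        ≤ ∑ _ℓ ∈ Ls, (t⁻¹) ^ (12 * κ + 4) * ((N₁ : ℝ) * N₂) := Finset.sum_le_sum hsieve
      _ = (Ls.card : ℝ) * ((t⁻¹) ^ (12 * κ + 4) * ((N₁ : ℝ) * N₂)) := by
          rw [Finset.sum_const, nsmul_eq_mul]
      _ ≤ t ^ (12 * κ) * ((t⁻¹) ^ (12 * κ + 4) * ((N₁ : ℝ) * N₂)) := by gcongr
      _ = (t⁻¹) ^ 4 * ((N₁ : ℝ) * N₂) := by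
          have : t ^ (12 * κ) * (t⁻¹) ^ (12 * κ + 4) = (t⁻¹) ^ 4 := by
            rw [pow_add, ← mul_assoc, ← mul_pow, mul_inv_cancel₀ ht0.ne', one_pow, one_mul]
          rw [← mul_assoc, this]
      _ = v⁻¹ * ((N₁ : ℝ) * N₂) := by rw [inv_pow, ht4]
      _ ≤ ε / 4 * ((N₁ : ℝ) * N₂) := by
          have : v⁻¹ ≤ ε / 4 := by
            rw [inv_le_comm₀ hv0 (by positivity)]
            rw [inv_div]
            exact hvε
          gcongr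
  linarith

end Pool.Agent.Work.MP_2738db_nt_W
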