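import Mathlib

/-!
Local densities: for a prime `q ≡ 1 mod ℓ` and exponents `n, k` whose gcd is almost prime to
`q - 1`, the value `x ^ n + ε y ^ k` is rarely `ρ` times an `ℓ`-th power modulo `q`.
-/

set_option autoImplicit false

namespace Pool.Agent.Work.MP_2738db_nt_W

open Finset BigOperators

section Group

variable {G : Type*} [CommGroup G] [Finite G] [IsCyclic G]

/-- Fibres of `(x, y) ↦ y ^ k * x ^ (-n)` on a cyclic group. -/
lemma card_fibre (n k : ℕ) (hg : Nat.gcd (Nat.gcd n k) (Nat.card G) ≤ 2) (z : G) :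
    Nat.card {p : G × G // p.2 ^ k = z * p.1 ^ n} ≤ 2 * Nat.card G := by
  classical
  let φ : G × G →* G :=
    { toFun := fun p => p.2 ^ k * (p.1 ^ n)⁻¹
      map_one' := by simp
      map_mul' := fun p r => by
        simp only [Prod.fst_mul, Prod.snd_mul, mul_pow, mul_inv]
        exact mul_mul_mul_comm _ _ _ _ }
  have hφ : ∀ p : G × G, φ p = p.2 ^ k * (p.1 ^ n)⁻¹ := fun p => rfl
  have hGpos : 0 < Nat.card G := Nat.card_pos
  -- the range is large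
  have hle : (powMonoidHom (Nat.gcd n k) : G →* G).range ≤ φ.range := by
    rintro _ ⟨t, rfl⟩
    refine ⟨(t ^ (- Nat.gcdA n k), t ^ (Nat.gcdB n k)), ?_⟩
    rw [hφ]
    simp only [powMonoidHom_apply]
    rw [← zpow_natCast t, Nat.gcd_eq_gcd_ab, ← zpow_natCast, ← zpow_natCast, ← zpow_mul, ← zpow_mul,
      ← zpow_neg, ← zpow_add]
    congr 1
    ring
  have hcard1 : Nat.card (powMonoidHom (Nat.gcd n k) : G →* G).range ≤ Nat.card φ.range :=
    Nat.card_le_card_of_injective (Subgroup.inclusion hle) (Subgroup.inclusion_injective hle)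
  have hcard2 : Nat.card G ≤ 2 * Nat.card φ.range := by
    rw [IsCyclic.card_powMonoidHom_range, Nat.gcd_comm] at hcard1
    have hd : Nat.gcd (Nat.gcd n k) (Nat.card G) ∣ Nat.card G := Nat.gcd_dvd_right _ _
    calc Nat.card G = Nat.gcd (Nat.gcd n k) (Nat.card G) * (Nat.card G / Nat.gcd (Nat.gcd n k) (Nat.card G)) :=
          (Nat.mul_div_cancel' hd).symm
      _ ≤ 2 * Nat.card φ.range := Nat.mul_le_mul hg hcard1
  have hker : Nat.card φ.ker * Nat.card φ.range = Nat.card G * Nat.card G := by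
    rw [← Subgroup.index_ker, Subgroup.card_mul_index, Nat.card_prod]
  have hker2 : Nat.card φ.ker ≤ 2 * Nat.card G := by
    have h1 : Nat.card φ.ker * Nat.card G ≤ (2 * Nat.card G) * Nat.card G := by
      calc Nat.card φ.ker * Nat.card G ≤ Nat.card φ.ker * (2 * Nat.card φ.range) :=
            Nat.mul_le_mul_left _ hcard2
        _ = 2 * (Nat.card φ.ker * Nat.card φ.range) := by ring
        _ = (2 * Nat.card G) * Nat.card G := by rw [hker]; ring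
    exact Nat.le_of_mul_le_mul_right h1 hGpos
  -- the fibre
  by_cases hne : Nonempty {p : G × G // p.2 ^ k = z * p.1 ^ n}
  · obtain ⟨p0⟩ := hne
    have hz : ∀ p : {p : G × G // p.2 ^ k = z * p.1 ^ n}, φ p.1 = z := by
      intro p
      rw [hφ, p.2, mul_inv_cancel_right]
    refine le_trans (Nat.card_le_card_of_injective
      (fun p : {p : G × G // p.2 ^ k = z * p.1 ^ n} => (⟨p.1 * p0.1⁻¹, by
        rw [MonoidHom.mem_ker, map_mul, map_inv, hz, hz, mul_inv_cancel]⟩ : φ.ker)) ?_) hker2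
    intro p r hpr
    have h1 : p.1 * p0.1⁻¹ = r.1 * p0.1⁻¹ := congrArg Subtype.val hpr
    exact Subtype.ext (mul_right_cancel h1)
  · rw [not_nonempty_iff] at hne
    rw [Nat.card_of_isEmpty]
    exact Nat.zero_le _

end Group

/-- The number of `ℓ`-th powers. -/
lemma card_powers {q ℓ : ℕ} [hq : Fact q.Prime] (h : ℓ ∣ q - 1) :
    Nat.card (powMonoidHom ℓ : (ZMod q)ˣ →* (ZMod q)ˣ).range * ℓ = q - 1 := by
  rw [IsCyclic.card_powMonoidHom_range]
  have hcard : Nat.card (ZMod q)ˣ = q - 1 := by rw [Nat.card_eq_fintype_card, ZMod.card_units q]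
  rw [hcard, Nat.gcd_eq_right h, Nat.div_mul_cancel h]

/-- Values `α + β z` which are `ρ` times a power. -/
lemma card_shift {q ℓ : ℕ} [hq : Fact q.Prime] (h : ℓ ∣ q - 1) {α β ρ : ZMod q}
    (hβ : β ≠ 0) (hρ : ρ ≠ 0) :
    Nat.card {z : (ZMod q)ˣ // ∃ s : (ZMod q)ˣ, α + β * (z : ZMod q) = ρ * (s : ZMod q) ^ ℓ} * ℓ
      ≤ q - 1 := by
  classical
  rw [← card_powers h]
  apply Nat.mul_le_mul_right
  choose! f hf using fun (z : {z : (ZMod q)ˣ // ∃ s : (ZMod q)ˣ,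
    α + β * (z : ZMod q) = ρ * (s : ZMod q) ^ ℓ}) => z.2
  apply Nat.card_le_card_of_injective (fun z => (⟨(f z) ^ ℓ, ⟨f z, rfl⟩⟩ :
    (powMonoidHom ℓ : (ZMod q)ˣ →* (ZMod q)ˣ).range))
  intro z z' hzz
  have h1 : (f z) ^ ℓ = (f z') ^ ℓ := congrArg Subtype.val hzz
  have h2 : ((f z : (ZMod q)ˣ) : ZMod q) ^ ℓ = ((f z' : (ZMod q)ˣ) : ZMod q) ^ ℓ := by
    exact_mod_cast congrArg Units.val h1
  have h3 : α + β * ((z : (ZMod q)ˣ) : ZMod q) = α + β * ((z' : (ZMod q)ˣ) : ZMod q) := by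
    rw [hf z, hf z', h2]
  have h4 := mul_left_cancel₀ hβ (add_left_cancel h3)
  exact Subtype.ext (Units.ext h4)

/-- The unit part of the local count. -/
lemma card_unit_part {q ℓ : ℕ} [hq : Fact q.Prime] (hℓ : ℓ.Prime) (h : ℓ ∣ q - 1) {n k : ℕ}
    (hg : Nat.gcd (Nat.gcd n k) (q - 1) ≤ 2) (hnk : ¬ (ℓ ∣ n ∧ ℓ ∣ k)) {ε ρ : ZMod q}
    (hε : ε ≠ 0) (hρ : ρ ≠ 0) :
    Nat.card {p : (ZMod q)ˣ × (ZMod q)ˣ // ∃ s : (ZMod q)ˣ,
      (p.1 : ZMod q) ^ n + ε * (p.2 : ZMod q) ^ k = ρ * (s : ZMod q) ^ ℓ} * ℓ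
      ≤ 2 * ((q - 1) * (q - 1)) := by
  classical
  have hcard : Nat.card (ZMod q)ˣ = q - 1 := by rw [Nat.card_eq_fintype_card, ZMod.card_units q]
  by_cases hn : ℓ ∣ n
  · -- `x ^ n` is a power
    have hk : ¬ ℓ ∣ k := fun hk => hnk ⟨hn, hk⟩
    obtain ⟨n1, rfl⟩ := hn
    set Z := {z : (ZMod q)ˣ // ∃ s : (ZMod q)ˣ, 1 + ε * (z : ZMod q) = ρ * (s : ZMod q) ^ ℓ} with hZ
    have hZc := card_shift (q := q) (ℓ := ℓ) h (α := 1) (β := ε) (ρ := ρ) hε hρ
    have hle : Nat.card {p : (ZMod q)ˣ × (ZMod q)ˣ // ∃ s : (ZMod q)ˣ,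
        (p.1 : ZMod q) ^ (ℓ * n1) + ε * (p.2 : ZMod q) ^ k = ρ * (s : ZMod q) ^ ℓ} ≤
        Nat.card (Σ z : Z, {p : (ZMod q)ˣ × (ZMod q)ˣ // p.2 ^ k = z.1 * p.1 ^ (ℓ * n1)}) := by
      apply Nat.card_le_card_of_injective (fun p : {p : (ZMod q)ˣ × (ZMod q)ˣ // ∃ s : (ZMod q)ˣ,
        (p.1 : ZMod q) ^ (ℓ * n1) + ε * (p.2 : ZMod q) ^ k = ρ * (s : ZMod q) ^ ℓ} =>
        (⟨⟨p.1.2 ^ k * (p.1.1 ^ (ℓ * n1))⁻¹, by
          obtain ⟨s, hs⟩ := p.2
          refine ⟨s * (p.1.1 ^ n1)⁻¹, ?_⟩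
          have hx : ((p.1.1 : (ZMod q)ˣ) : ZMod q) ^ (ℓ * n1) ≠ 0 := pow_ne_zero _ (Units.ne_zero _)
          have hx1 : ((p.1.1 : (ZMod q)ˣ) : ZMod q) ^ n1 ≠ 0 := pow_ne_zero _ (Units.ne_zero _)
          push_cast
          rw [mul_pow, inv_pow, ← pow_mul, mul_comm n1 ℓ]
          rw [← mul_assoc ρ, ← hs]
          field_simp⟩, ⟨p.1, by rw [inv_mul_cancel_right]⟩⟩ :
          Σ z : Z, {p : (ZMod q)ˣ × (ZMod q)ˣ // p.2 ^ k = z.1 * p.1 ^ (ℓ * n1)}))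
      intro p r hpr
      have h2 : (p.1 : (ZMod q)ˣ × (ZMod q)ˣ) = r.1 := by
        have := congrArg (fun t : (Σ z : Z, {p : (ZMod q)ˣ × (ZMod q)ˣ //
          p.2 ^ k = z.1 * p.1 ^ (ℓ * n1)}) => t.2.1) hpr
        exact this
      exact Subtype.ext h2
    have hsig : Nat.card (Σ z : Z, {p : (ZMod q)ˣ × (ZMod q)ˣ // p.2 ^ k = z.1 * p.1 ^ (ℓ * n1)})
        ≤ Nat.card Z * (2 * (q - 1)) := by
      rw [Nat.card_sigma]
      calc ∑ z : Z, Nat.card {p : (ZMod q)ˣ × (ZMod q)ˣ // p.2 ^ k = z.1 * p.1 ^ (ℓ * n1)}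
          ≤ ∑ _z : Z, 2 * (q - 1) := by
            apply Finset.sum_le_sum
            intro z _
            have := card_fibre (G := (ZMod q)ˣ) (ℓ * n1) k (by rw [hcard]; exact hg) z.1
            rwa [hcard] at this
        _ = Nat.card Z * (2 * (q - 1)) := by
            rw [Finset.sum_const, Finset.card_univ, smul_eq_mul, Nat.card_eq_fintype_card]
    calc _ ≤ (Nat.card Z * (2 * (q - 1))) * ℓ := Nat.mul_le_mul_right _ (hle.trans hsig)
      _ = (Nat.card Z * ℓ) * (2 * (q - 1)) := by ring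
      _ ≤ (q - 1) * (2 * (q - 1)) := Nat.mul_le_mul_right _ hZc
      _ = _ := by ring
  · by_cases hk : ℓ ∣ k
    · obtain ⟨k1, rfl⟩ := hk
      set Z := {z : (ZMod q)ˣ // ∃ s : (ZMod q)ˣ, ε + 1 * (z : ZMod q) = ρ * (s : ZMod q) ^ ℓ} with hZ
      have hZc := card_shift (q := q) (ℓ := ℓ) h (α := ε) (β := 1) (ρ := ρ) one_ne_zero hρ
      have hle : Nat.card {p : (ZMod q)ˣ × (ZMod q)ˣ // ∃ s : (ZMod q)ˣ,
          (p.1 : ZMod q) ^ n + ε * (p.2 : ZMod q) ^ (ℓ * k1) = ρ * (s : ZMod q) ^ ℓ} ≤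
          Nat.card (Σ z : Z, {p : (ZMod q)ˣ × (ZMod q)ˣ // p.2 ^ n = z.1 * p.1 ^ (ℓ * k1)}) := by
        apply Nat.card_le_card_of_injective (fun p : {p : (ZMod q)ˣ × (ZMod q)ˣ // ∃ s : (ZMod q)ˣ,
          (p.1 : ZMod q) ^ n + ε * (p.2 : ZMod q) ^ (ℓ * k1) = ρ * (s : ZMod q) ^ ℓ} =>
          (⟨⟨p.1.1 ^ n * (p.1.2 ^ (ℓ * k1))⁻¹, by
            obtain ⟨s, hs⟩ := p.2
            refine ⟨s * (p.1.2 ^ k1)⁻¹, ?_⟩
            have hx : ((p.1.2 : (ZMod q)ˣ) : ZMod q) ^ (ℓ * k1) ≠ 0 := pow_ne_zero _ (Units.ne_zero _)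
            have hx1 : ((p.1.2 : (ZMod q)ˣ) : ZMod q) ^ k1 ≠ 0 := pow_ne_zero _ (Units.ne_zero _)
            push_cast
            rw [mul_pow, inv_pow, ← pow_mul, mul_comm k1 ℓ]
            rw [← mul_assoc ρ, ← hs]
            field_simp
            ring⟩, ⟨(p.1.2, p.1.1), by rw [inv_mul_cancel_right]⟩⟩ :
            Σ z : Z, {p : (ZMod q)ˣ × (ZMod q)ˣ // p.2 ^ n = z.1 * p.1 ^ (ℓ * k1)}))
        intro p r hpr
        have h2 : ((p.1.2, p.1.1) : (ZMod q)ˣ × (ZMod q)ˣ) = (r.1.2, r.1.1) := by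
          have := congrArg (fun t : (Σ z : Z, {p : (ZMod q)ˣ × (ZMod q)ˣ //
            p.2 ^ n = z.1 * p.1 ^ (ℓ * k1)}) => t.2.1) hpr
          exact this
        have h3 := congrArg Prod.fst h2
        have h4 := congrArg Prod.snd h2
        exact Subtype.ext (Prod.ext h4 h3)
      have hsig : Nat.card (Σ z : Z, {p : (ZMod q)ˣ × (ZMod q)ˣ // p.2 ^ n = z.1 * p.1 ^ (ℓ * k1)})
          ≤ Nat.card Z * (2 * (q - 1)) := by
        rw [Nat.card_sigma]
        calc ∑ z : Z, Nat.card {p : (ZMod q)ˣ × (ZMod q)ˣ // p.2 ^ n = z.1 * p.1 ^ (ℓ * k1)}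
            ≤ ∑ _z : Z, 2 * (q - 1) := by
              apply Finset.sum_le_sum
              intro z _
              have := card_fibre (G := (ZMod q)ˣ) (ℓ * k1) n
                (by rw [hcard, Nat.gcd_comm (ℓ * k1) n]; exact hg) z.1
              rwa [hcard] at this
          _ = Nat.card Z * (2 * (q - 1)) := by
              rw [Finset.sum_const, Finset.card_univ, smul_eq_mul, Nat.card_eq_fintype_card]
      calc _ ≤ (Nat.card Z * (2 * (q - 1))) * ℓ := Nat.mul_le_mul_right _ (hle.trans hsig)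
        _ = (Nat.card Z * ℓ) * (2 * (q - 1)) := by ring
        _ ≤ (q - 1) * (2 * (q - 1)) := Nat.mul_le_mul_right _ hZc
        _ = _ := by ring
    · -- scaling
      obtain ⟨γ, hγ⟩ := IsCyclic.exists_generator (α := (ZMod q)ˣ)
      have hord : orderOf γ = q - 1 := by
        rw [orderOf_eq_card_of_forall_mem_zpowers hγ, hcard]
      have hpow : ∀ (j : ℤ) (η : (ZMod q)ˣ), γ ^ j = η ^ ℓ → (ℓ : ℤ) ∣ j := by
        intro j η hj
        obtain ⟨m, rfl⟩ := Subgroup.mem_zpowers_iff.mp (hγ η)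
        rw [← zpow_natCast, ← zpow_mul] at hj
        have h1 : γ ^ (j - m * ℓ) = 1 := by rw [zpow_sub, hj, mul_inv_cancel]
        have h2 := orderOf_dvd_iff_zpow_eq_one.mpr h1
        rw [hord] at h2
        have h3 : (ℓ : ℤ) ∣ ((q - 1 : ℕ) : ℤ) := Int.natCast_dvd_natCast.mpr h
        have h4 := h3.trans h2
        have h5 : (ℓ : ℤ) ∣ m * ℓ := Dvd.intro_left m rfl
        have := dvd_add h4 h5
        rwa [sub_add_cancel] at this
      set E := {p : (ZMod q)ˣ × (ZMod q)ˣ // ∃ s : (ZMod q)ˣ,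
        (p.1 : ZMod q) ^ n + ε * (p.2 : ZMod q) ^ k = ρ * (s : ZMod q) ^ ℓ} with hE
      have hle : Nat.card (E × Fin ℓ) ≤ Nat.card ((ZMod q)ˣ × (ZMod q)ˣ) := by
        apply Nat.card_le_card_of_injective (fun t : E × Fin ℓ =>
          ((γ ^ ((t.2 : ℕ) * k) * t.1.1.1, γ ^ ((t.2 : ℕ) * n) * t.1.1.2) :
            (ZMod q)ˣ × (ZMod q)ˣ))
        intro t t' htt
        obtain ⟨⟨⟨x, y⟩, s, hs⟩, i⟩ := t
        obtain ⟨⟨⟨x', y'⟩, s', hs'⟩, i'⟩ := t'
        simp only [Prod.mk.injEq] at htt hs hs'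
        obtain ⟨h1, h2⟩ := htt
        have h1' := congrArg (fun u : (ZMod q)ˣ => (u : ZMod q)) h1
        have h2' := congrArg (fun u : (ZMod q)ˣ => (u : ZMod q)) h2
        simp only [Units.val_mul, Units.val_pow_eq_pow_val] at h1' h2'
        have hval : ((γ : (ZMod q)ˣ) : ZMod q) ^ ((i : ℕ) * (n * k)) * ((x : ZMod q) ^ n + ε * (y : ZMod q) ^ k)
            = (γ : ZMod q) ^ ((i' : ℕ) * (n * k)) * ((x' : ZMod q) ^ n + ε * (y' : ZMod q) ^ k) := by
          have e1 : ((γ : (ZMod q)ˣ) : ZMod q) ^ ((i : ℕ) * (n * k)) * ((x : ZMod q) ^ n + ε * (y : ZMod q) ^ k)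
              = ((γ : ZMod q) ^ ((i : ℕ) * k) * x) ^ n + ε * ((γ : ZMod q) ^ ((i : ℕ) * n) * y) ^ k := by
            rw [mul_pow, mul_pow, ← pow_mul, ← pow_mul]; ring
          have e2 : ((γ : (ZMod q)ˣ) : ZMod q) ^ ((i' : ℕ) * (n * k)) * ((x' : ZMod q) ^ n + ε * (y' : ZMod q) ^ k)
              = ((γ : ZMod q) ^ ((i' : ℕ) * k) * x') ^ n + ε * ((γ : ZMod q) ^ ((i' : ℕ) * n) * y') ^ k := by
            rw [mul_pow, mul_pow, ← pow_mul, ← pow_mul]; ring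
          rw [e1, e2, h1', h2']
        rw [hs, hs'] at hval
        have hval2 : γ ^ ((i : ℕ) * (n * k)) * s ^ ℓ = γ ^ ((i' : ℕ) * (n * k)) * s' ^ ℓ := by
          apply Units.ext
          push_cast
          have : ρ * (((γ : (ZMod q)ˣ) : ZMod q) ^ ((i : ℕ) * (n * k)) * (s : ZMod q) ^ ℓ)
              = ρ * ((γ : ZMod q) ^ ((i' : ℕ) * (n * k)) * (s' : ZMod q) ^ ℓ) := by
            calc _ = ((γ : (ZMod q)ˣ) : ZMod q) ^ ((i : ℕ) * (n * k)) * (ρ * (s : ZMod q) ^ ℓ) := by ring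
              _ = _ := hval
              _ = _ := by ring
          exact mul_left_cancel₀ hρ this
        have h3 : γ ^ ((((i : ℕ) : ℤ) - ((i' : ℕ) : ℤ)) * ((n : ℤ) * k)) = (s' * s⁻¹) ^ ℓ := by
          rw [sub_mul, zpow_sub, mul_pow, inv_pow]
          rw [mul_inv_eq_iff_eq_mul]
          have e1 : γ ^ (((i : ℕ) : ℤ) * ((n : ℤ) * k)) = γ ^ ((i : ℕ) * (n * k)) := by
            rw [← zpow_natCast]; push_cast; rfl
          have e2 : γ ^ (((i' : ℕ) : ℤ) * ((n : ℤ) * k)) = γ ^ ((i' : ℕ) * (n * k)) := by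
            rw [← zpow_natCast]; push_cast; rfl
          rw [e1, e2, mul_right_comm, eq_mul_inv_iff_mul_eq, hval2, mul_comm]
        have h4 := hpow _ _ h3
        have hℓZ : Prime (ℓ : ℤ) := Nat.prime_iff_prime_int.mp hℓ
        have h5 : (ℓ : ℤ) ∣ ((i : ℕ) : ℤ) - ((i' : ℕ) : ℤ) := by
          rcases hℓZ.dvd_or_dvd h4 with h5 | h5
          · exact h5
          · rcases hℓZ.dvd_or_dvd h5 with h6 | h6
            · exact absurd (Int.natCast_dvd_natCast.mp h6) hn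
            · exact absurd (Int.natCast_dvd_natCast.mp h6) hk
        have h6 : i = i' := by
          have hi := i.2
          have hi' := i'.2
          have : ((i : ℕ) : ℤ) - ((i' : ℕ) : ℤ) = 0 := by
            apply Int.eq_zero_of_abs_lt_dvd h5
            rw [abs_lt]
            constructor <;> omega
          apply Fin.ext
          omega
        subst h6
        have h7 := mul_left_cancel h1
        have h8 := mul_left_cancel h2
        subst h7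
        subst h8
        rfl
      rw [Nat.card_prod, Nat.card_prod, hcard, Nat.card_eq_fintype_card (α := Fin ℓ),
        Fintype.card_fin] at hle
      omega

/-- **The local count.** -/
theorem local_count {q ℓ : ℕ} [hq : Fact q.Prime] (hℓ : ℓ.Prime) (hℓ2 : ℓ ≠ 2) (h : ℓ ∣ q - 1)
    (hbig : 24 ≤ q) {n k : ℕ} (hn : 0 < n) (hk : 0 < k)
    (hg : Nat.gcd (Nat.gcd n k) (q - 1) ≤ 2) (hnk : ¬ (ℓ ∣ n ∧ ℓ ∣ k)) {ε ρ : ZMod q}
    (hε : ε ≠ 0) (hρ : ρ ≠ 0) :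
    6 * Nat.card {p : ZMod q × ZMod q // ∃ s : ZMod q, p.1 ^ n + ε * p.2 ^ k = ρ * s ^ ℓ}
      ≤ 5 * q ^ 2 := by
  classical
  have hcard : Nat.card (ZMod q)ˣ = q - 1 := by rw [Nat.card_eq_fintype_card, ZMod.card_units q]
  have hℓ3 : 3 ≤ ℓ := by
    have := hℓ.two_le
    omega
  set E2 := {p : (ZMod q)ˣ × (ZMod q)ˣ // ∃ s : (ZMod q)ˣ,
      (p.1 : ZMod q) ^ n + ε * (p.2 : ZMod q) ^ k = ρ * (s : ZMod q) ^ ℓ} with hE2
  have h2 : Nat.card E2 * ℓ ≤ 2 * ((q - 1) * (q - 1)) := card_unit_part hℓ h hg hnk hε hρ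
  set u : (ZMod q)ˣ := - (Units.mk0 ε hε)⁻¹ with hu
  set E1 := {p : (ZMod q)ˣ × (ZMod q)ˣ // p.2 ^ k = u * p.1 ^ n} with hE1
  have h1 : Nat.card E1 ≤ 2 * (q - 1) := by
    have := card_fibre (G := (ZMod q)ˣ) n k (by rw [hcard]; exact hg) u
    rwa [hcard] at this
  -- injection
  have hle : Nat.card {p : ZMod q × ZMod q // ∃ s : ZMod q, p.1 ^ n + ε * p.2 ^ k = ρ * s ^ ℓ} ≤
      Nat.card ((ZMod q ⊕ ZMod q) ⊕ (E1 ⊕ E2)) := by
    let G : ((ZMod q ⊕ ZMod q) ⊕ (E1 ⊕ E2)) → ZMod q × ZMod q := fun t =>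
      match t with
      | Sum.inl (Sum.inl y) => (0, y)
      | Sum.inl (Sum.inr x) => (x, 0)
      | Sum.inr (Sum.inl p) => ((p.1.1 : ZMod q), (p.1.2 : ZMod q))
      | Sum.inr (Sum.inr p) => ((p.1.1 : ZMod q), (p.1.2 : ZMod q))
    have hsurj : ∀ p : {p : ZMod q × ZMod q // ∃ s : ZMod q, p.1 ^ n + ε * p.2 ^ k = ρ * s ^ ℓ},
        ∃ t, G t = p.1 := by
      rintro ⟨⟨x, y⟩, s, hs⟩
      simp only at hs
      by_cases hx : x = 0
      · exact ⟨Sum.inl (Sum.inl y), by simp only [G, hx]⟩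
      by_cases hy : y = 0
      · exact ⟨Sum.inl (Sum.inr x), by simp only [G, hy]⟩
      by_cases hs0 : s = 0
      · refine ⟨Sum.inr (Sum.inl ⟨(Units.mk0 x hx, Units.mk0 y hy), ?_⟩), ?_⟩
        · apply Units.ext
          simp only [Units.val_pow_eq_pow_val, Units.val_mk0, Units.val_mul, hu, Units.val_neg,
            Units.val_inv_eq_inv_val]
          rw [hs0, zero_pow hℓ.ne_zero, mul_zero] at hs
          field_simp
          linear_combination hs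
        · simp only [G, Units.val_mk0]
      · refine ⟨Sum.inr (Sum.inr ⟨(Units.mk0 x hx, Units.mk0 y hy), Units.mk0 s hs0, ?_⟩), ?_⟩
        · simp only [Units.val_mk0]
          exact hs
        · simp only [G, Units.val_mk0]
    choose f hf using hsurj
    apply Nat.card_le_card_of_injective f
    intro p r hpr
    apply Subtype.ext
    rw [← hf p, ← hf r, hpr]
  have hsum : Nat.card ((ZMod q ⊕ ZMod q) ⊕ (E1 ⊕ E2)) = (q + q) + (Nat.card E1 + Nat.card E2) := by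
    rw [Nat.card_sum, Nat.card_sum, Nat.card_sum, Nat.card_zmod]
  rw [hsum] at hle
  have hq1 : q - 1 ≤ q := Nat.sub_le _ _
  have h3 : Nat.card E2 * 3 ≤ 2 * (q * q) := by
    calc Nat.card E2 * 3 ≤ Nat.card E2 * ℓ := Nat.mul_le_mul_left _ hℓ3
      _ ≤ 2 * ((q - 1) * (q - 1)) := h2
      _ ≤ 2 * (q * q) := by gcongr
  nlinarith

end Pool.Agent.Work.MP_2738db_nt_W
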