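import Pool.Agent.Work.SW.AP

/-!
Sieving primes `q` with `q - 1` dividing a fixed number `L`, `log L` small compared to their number.
-/

set_option autoImplicit false

namespace Pool.Agent.Work.MP_2738db_nt_W

open Finset ArithmeticFunction Filter

/-- Many primes in progressions to moduli up to a power of the logarithm. -/
theorem primes_ap : ∃ T1 : ℝ, ∀ t : ℝ, T1 ≤ t → ∀ D c : ℕ, 0 < D → (D : ℝ) ≤ 16 * t ^ 16 →
    c.Coprime D → Real.exp t / (2 * D * t)
      ≤ (((Ioc 0 ⌊Real.exp t⌋₊).filter (fun q => q.Prime ∧ q % D = c % D)).card : ℝ) := by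
  obtain ⟨C, hC, hap⟩ := Pool.Agent.SW.psi_ap 17 17
  -- `128 t^17 ≤ exp (t/2)`
  have hev : ∀ᶠ t : ℝ in atTop, 128 * t ^ 17 ≤ Real.exp (t / 2) := by
    have h1 : (fun x : ℝ => x ^ 17) =o[atTop] fun x : ℝ => Real.exp ((1 / 2) * x) :=
      isLittleO_pow_exp_pos_mul_atTop 17 (by norm_num)
    have h2 := h1.bound (show (0 : ℝ) < 1 / 128 by norm_num)
    filter_upwards [h2, eventually_ge_atTop 0] with t ht ht0
    rw [Real.norm_eq_abs, Real.norm_eq_abs, abs_of_nonneg (by positivity),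
      abs_of_nonneg (Real.exp_pos _).le] at ht
    have : (1 / 2 : ℝ) * t = t / 2 := by ring
    rw [this] at ht
    linarith
  obtain ⟨T2, hT2⟩ := eventually_atTop.mp hev
  refine ⟨max T2 (max 16 (64 * C)), ?_⟩
  intro t ht D c hD hDt hco
  have htT2 : T2 ≤ t := (le_max_left _ _).trans ht
  have ht16 : 16 ≤ t := (le_max_left _ _).trans ((le_max_right _ _).trans ht)
  have htC : 64 * C ≤ t := (le_max_right _ _).trans ((le_max_right _ _).trans ht)
  have ht0 : 0 < t := by linarith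
  have hexp := hT2 t htT2
  set X := Real.exp t with hX
  have hX0 : 0 < X := Real.exp_pos t
  have hX2 : 2 ≤ X := by
    have := Real.add_one_le_exp t
    linarith
  have hlogX : Real.log X = t := Real.log_exp t
  have hDr : (0 : ℝ) < D := by exact_mod_cast hD
  have : NeZero D := ⟨hD.ne'⟩
  have hD17 : (D : ℝ) ≤ (Real.log X) ^ 17 := by
    rw [hlogX]
    calc (D : ℝ) ≤ 16 * t ^ 16 := hDt
      _ ≤ t * t ^ 16 := by gcongr
      _ = t ^ 17 := by ring
  have h1 := hap D (c : ZMod D) ((ZMod.isUnit_iff_coprime c D).mpr hco) X hX2 hD17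
  rw [hlogX] at h1
  have h1' := (abs_le.mp h1).1
  have hφ : (0 : ℝ) < D.totient := by exact_mod_cast Nat.totient_pos.mpr hD
  have hφD : (D.totient : ℝ) ≤ D := by exact_mod_cast Nat.totient_le D
  have h2 : X / D ≤ X / D.totient := by gcongr
  have h3 : C * (X / t ^ 17) ≤ X / (4 * D) := by
    rw [← mul_div_assoc, div_le_div_iff₀ (by positivity) (by positivity)]
    calc C * X * (4 * D) ≤ C * X * (4 * (16 * t ^ 16)) := by gcongr
      _ = X * (64 * C) * t ^ 16 := by ring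
      _ ≤ X * t * t ^ 16 := by gcongr
      _ = X * t ^ 17 := by ring
  have hsq : √X = Real.exp (t / 2) := by
    rw [hX, Real.sqrt_eq_rpow, ← Real.exp_mul]
    congr 1
    ring
  have hss : √X * √X = X := Real.mul_self_sqrt hX0.le
  have h4 : 2 * √X * t ≤ X / (4 * D) := by
    rw [le_div_iff₀ (by positivity)]
    calc 2 * √X * t * (4 * D) ≤ 2 * √X * t * (4 * (16 * t ^ 16)) := by gcongr
      _ = √X * (128 * t ^ 17) := by ring
      _ ≤ √X * √X := by
          rw [hsq]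
          gcongr
      _ = X := hss
  -- the upper bound
  have h5 : ∑ n ∈ (Ioc 0 ⌊X⌋₊).filter (fun n : ℕ => (n : ZMod D) = (c : ZMod D)), Λ n
      ≤ (((Ioc 0 ⌊X⌋₊).filter (fun q => q.Prime ∧ q % D = c % D)).card : ℝ) * t + 2 * √X * t := by
    have h6 : ∑ n ∈ (Ioc 0 ⌊X⌋₊).filter (fun n : ℕ => (n : ZMod D) = (c : ZMod D)), Λ n
        ≤ ∑ n ∈ Ioc 0 ⌊X⌋₊, ((if n.Prime ∧ n % D = c % D then t else 0)
          + (if ¬ n.Prime then Λ n else 0)) := by
      rw [sum_filter]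
      refine sum_le_sum fun n hn => ?_
      rw [mem_Ioc] at hn
      have hΛ0 : 0 ≤ Λ n := vonMangoldt_nonneg
      have hΛ : Λ n ≤ t := by
        refine vonMangoldt_le_log.trans ?_
        rw [← hlogX]
        apply Real.log_le_log (by exact_mod_cast hn.1)
        exact (Nat.cast_le.mpr hn.2).trans (Nat.floor_le hX0.le)
      have hiff := ZMod.natCast_eq_natCast_iff' n c D
      by_cases hp : n.Prime
      · rw [if_neg (not_not.mpr hp), add_zero]
        by_cases hc : (n : ZMod D) = (c : ZMod D)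
        · rw [if_pos hc, if_pos ⟨hp, hiff.mp hc⟩]
          exact hΛ
        · rw [if_neg hc, if_neg (fun h => hc (hiff.mpr h.2))]
      · have e0 : (if n.Prime ∧ n % D = c % D then t else 0) = 0 := if_neg (fun h => hp h.1)
        rw [if_pos hp, e0, zero_add]
        split_ifs
        · exact le_rfl
        · exact hΛ0
    refine h6.trans ?_
    rw [sum_add_distrib, ← sum_filter, ← sum_filter, sum_const, nsmul_eq_mul]
    gcongr
    have h7 := Chebyshev.psi_sub_theta_eq_sum_not_prime X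
    rw [← h7]
    have h8 := Chebyshev.psi_sub_theta_le (x := X) (by linarith)
    rw [hlogX] at h8
    exact h8
  rw [div_le_iff₀ (by positivity)]
  have h6 : X / (2 * D) ≤ (((Ioc 0 ⌊X⌋₊).filter (fun q => q.Prime ∧ q % D = c % D)).card : ℝ) * t := by
    have e1 : X / D = 4 * (X / (4 * D)) := by field_simp
    have e2 : X / (2 * D) = 2 * (X / (4 * D)) := by field_simp; ring
    rw [e2]
    linarith
  rw [div_le_iff₀ (by positivity)] at h6
  calc X ≤ (((Ioc 0 ⌊X⌋₊).filter (fun q => q.Prime ∧ q % D = c % D)).card : ℝ) * t * (2 * D) := h6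
    _ = _ := by ring

/-- Many primes in `(y, 2y]`. -/
theorem primes_dyadic : ∃ Y : ℝ, ∀ y : ℝ, Y ≤ y →
    y / (8 * Real.log y) ≤ (((Ioc ⌊y⌋₊ ⌊2 * y⌋₊).filter Nat.Prime).card : ℝ) := by
  obtain ⟨C, hC, hpnt⟩ := Pool.Agent.SW.pnt 1
  have hev1 : ∀ᶠ y : ℝ in atTop, 12 * C ≤ Real.log y :=
    Real.tendsto_log_atTop.eventually_ge_atTop _
  have hev2 : ∀ᶠ y : ℝ in atTop, 16 * Real.log y ≤ √y / 8 := by
    have h1 : (fun x : ℝ => Real.log x) =o[atTop] fun x : ℝ => x ^ ((1 : ℝ) / 2) :=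
      isLittleO_log_rpow_atTop (by norm_num)
    have h2 := h1.bound (show (0 : ℝ) < 1 / 128 by norm_num)
    filter_upwards [h2, eventually_ge_atTop 1] with y hy hy1
    rw [← Real.sqrt_eq_rpow, Real.norm_eq_abs, Real.norm_eq_abs,
      abs_of_nonneg (Real.log_nonneg hy1), abs_of_nonneg (Real.sqrt_nonneg y)] at hy
    linarith
  obtain ⟨Y, hY⟩ := eventually_atTop.mp (hev1.and (hev2.and (eventually_ge_atTop (4 : ℝ))))
  refine ⟨Y, ?_⟩
  intro y hy
  obtain ⟨h1, h2, h4⟩ := hY y hy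
  have hy0 : 0 < y := by linarith
  have hlog : 0 < Real.log y := Real.log_pos (by linarith)
  have hlog2 : Real.log (2 * y) ≤ 2 * Real.log y := by
    rw [Real.log_mul (by norm_num) (by linarith)]
    have : Real.log 2 ≤ Real.log y := Real.log_le_log (by norm_num) (by linarith)
    linarith
  have hlog3 : Real.log y ≤ Real.log (2 * y) := Real.log_le_log hy0 (by linarith)
  have e1 := (abs_le.mp (hpnt y (by linarith))).2
  have e2 := (abs_le.mp (hpnt (2 * y) (by linarith))).1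
  rw [pow_one] at e1 e2
  have e3 : C * (y / Real.log y) ≤ y / 12 := by
    rw [← mul_div_assoc, div_le_div_iff₀ hlog (by norm_num)]
    nlinarith
  have e4 : C * (2 * y / Real.log (2 * y)) ≤ 2 * y / 12 := by
    rw [← mul_div_assoc, div_le_div_iff₀ (by linarith) (by norm_num)]
    nlinarith
  have hfl : ⌊y⌋₊ ≤ ⌊2 * y⌋₊ := Nat.floor_le_floor (by linarith)
  have e5 : ∑ n ∈ Ioc ⌊y⌋₊ ⌊2 * y⌋₊, Λ n = ∑ n ∈ Ioc 0 ⌊2 * y⌋₊, Λ n - ∑ n ∈ Ioc 0 ⌊y⌋₊, Λ n := by
    rw [← Finset.sum_Ioc_consecutive _ (Nat.zero_le _) hfl]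
    ring
  have e6 : y / 2 ≤ ∑ n ∈ Ioc ⌊y⌋₊ ⌊2 * y⌋₊, Λ n := by
    rw [e5]
    linarith
  have e7 : ∑ n ∈ Ioc ⌊y⌋₊ ⌊2 * y⌋₊, Λ n
      ≤ (((Ioc ⌊y⌋₊ ⌊2 * y⌋₊).filter Nat.Prime).card : ℝ) * (2 * Real.log y)
        + 2 * √(2 * y) * Real.log (2 * y) := by
    have h6 : ∑ n ∈ Ioc ⌊y⌋₊ ⌊2 * y⌋₊, Λ n
        ≤ ∑ n ∈ Ioc ⌊y⌋₊ ⌊2 * y⌋₊, ((if n.Prime then 2 * Real.log y else 0)
          + (if ¬ n.Prime then Λ n else 0)) := by
      refine sum_le_sum fun n hn => ?_
      rw [mem_Ioc] at hn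
      by_cases hp : n.Prime
      · rw [if_pos hp, if_neg (not_not.mpr hp), add_zero]
        refine vonMangoldt_le_log.trans (le_trans ?_ hlog2)
        apply Real.log_le_log (by exact_mod_cast (by omega : 0 < n))
        exact (Nat.cast_le.mpr hn.2).trans (Nat.floor_le (by linarith))
      · rw [if_neg hp, if_pos hp, zero_add]
    refine h6.trans ?_
    rw [sum_add_distrib, ← sum_filter, ← sum_filter, sum_const, nsmul_eq_mul]
    gcongr
    have h7 := Chebyshev.psi_sub_theta_eq_sum_not_prime (2 * y)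
    refine le_trans ?_ (Chebyshev.psi_sub_theta_le (x := 2 * y) (by linarith))
    rw [h7]
    apply sum_le_sum_of_subset_of_nonneg
    · intro n hn
      rw [mem_filter, mem_Ioc] at hn ⊢
      exact ⟨⟨by omega, hn.1.2⟩, hn.2⟩
    · intro _ _ _
      exact vonMangoldt_nonneg
  have e8 : 2 * √(2 * y) * Real.log (2 * y) ≤ y / 4 := by
    have h5 : √(2 * y) ≤ 2 * √y := by
      rw [Real.sqrt_le_left (by positivity), mul_pow, Real.sq_sqrt hy0.le]
      linarith
    have hss : √y * √y = y := Real.mul_self_sqrt hy0.le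
    have hl0 : 0 ≤ Real.log (2 * y) := by linarith
    calc 2 * √(2 * y) * Real.log (2 * y) ≤ 2 * (2 * √y) * (2 * Real.log y) := by gcongr
      _ = √y * (8 * Real.log y) := by ring
      _ ≤ √y * (√y / 8) := by
          gcongr
          linarith
      _ = y / 8 := by rw [← mul_div_assoc, hss]
      _ ≤ y / 4 := by linarith
  rw [div_le_iff₀ (by positivity)]
  linarith

theorem odd_of_mod (m q : ℕ) (hm : 2 ≤ m) (h : q % (2 * m) = (1 + m) % (2 * m)) :
    ∃ k, Odd k ∧ q = 1 + m * k := by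
  rw [Nat.mod_eq_of_lt (by omega : 1 + m < 2 * m)] at h
  refine ⟨2 * (q / (2 * m)) + 1, odd_two_mul_add_one _, ?_⟩
  have h1 := Nat.div_add_mod q (2 * m)
  rw [h] at h1
  nlinarith

/-- For one modulus. -/
theorem count_k {t y : ℝ} {l M : ℕ} (hT1 : ∀ D c : ℕ, 0 < D → (D : ℝ) ≤ 16 * t ^ 16 →
    c.Coprime D → Real.exp t / (2 * D * t)
      ≤ (((Ioc 0 ⌊Real.exp t⌋₊).filter (fun q => q.Prime ∧ q % D = c % D)).card : ℝ))
    (ht : 16 ≤ t) (hy : y = t ^ 2) (hl : 0 < l) (hlt : (l : ℝ) ≤ t ^ 12)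
    (hM1 : y ^ 2 < M) (hM2 : (M : ℝ) ≤ 4 * y ^ 2) :
    Real.exp t / (32 * l * y ^ 2 * t)
      ≤ (((Ioc 0 ⌊Real.exp t / (2 * l * y ^ 2)⌋₊).filter (fun k => Odd k ∧
        (1 + 2 * l * M * k).Prime ∧ 1 + 2 * l * M * k ≤ ⌊Real.exp t⌋₊)).card : ℝ) := by
  have ht0 : 0 < t := by linarith
  have hy0 : 0 < y := by rw [hy]; positivity
  have hlr : (1 : ℝ) ≤ l := by exact_mod_cast hl
  have hMr : (0 : ℝ) < M := lt_of_le_of_lt (by positivity) hM1
  have hM0 : 0 < M := by exact_mod_cast hMr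
  have hX0 : 0 < Real.exp t := Real.exp_pos t
  set m := 2 * l * M with hm
  have hm2 : 2 ≤ m := by
    rw [hm]
    have := Nat.mul_pos hl hM0
    nlinarith
  have hco : (1 + m).Coprime (2 * m) := by
    apply Nat.Coprime.mul_right
    · rw [hm, mul_assoc, Nat.coprime_two_right]
      exact ⟨l * M, by ring⟩
    · simp
  have hD : ((2 * m : ℕ) : ℝ) ≤ 16 * t ^ 16 := by
    rw [hm]
    push_cast
    calc 2 * (2 * (l : ℝ) * M) ≤ 2 * (2 * t ^ 12 * (4 * y ^ 2)) := by gcongr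
      _ = 16 * t ^ 16 := by rw [hy]; ring
  have h1 := hT1 (2 * m) (1 + m) (by omega) hD hco
  have h2 : ((Ioc 0 ⌊Real.exp t⌋₊).filter (fun q => q.Prime ∧ q % (2 * m) = (1 + m) % (2 * m))).card
      ≤ ((Ioc 0 ⌊Real.exp t / (2 * l * y ^ 2)⌋₊).filter (fun k => Odd k ∧
        (1 + m * k).Prime ∧ 1 + m * k ≤ ⌊Real.exp t⌋₊)).card := by
    apply card_le_card_of_injOn (fun q => (q - 1) / m)
    · intro q hq
      have hq' := mem_filter.mp hq
      obtain ⟨hqI, hqp, hqm⟩ := hq'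
      rw [mem_Ioc] at hqI
      obtain ⟨k, hk, hqk⟩ := odd_of_mod m q hm2 hqm
      have hk2 : (q - 1) / m = k := by
        rw [hqk, Nat.add_sub_cancel_left, Nat.mul_div_cancel_left k (by omega)]
      have hk0 : 0 < k := hk.pos
      show (q - 1) / m ∈ _
      rw [hk2, mem_coe, mem_filter, mem_Ioc]
      refine ⟨⟨hk0, ?_⟩, hk, hqk ▸ hqp, hqk ▸ hqI.2⟩
      apply Nat.le_floor
      rw [le_div_iff₀ (by positivity)]
      have h3 : (q : ℝ) ≤ Real.exp t := (Nat.cast_le.mpr hqI.2).trans (Nat.floor_le hX0.le)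
      have h4 : (q : ℝ) = 1 + 2 * l * M * k := by
        rw [hqk, hm]
        push_cast
        ring
      have h5 : (k : ℝ) * (2 * l * y ^ 2) ≤ k * (2 * l * M) := by gcongr
      linarith
    · intro q hq q' hq' heq
      rw [coe_filter] at hq hq'
      obtain ⟨k, _, hqk⟩ := odd_of_mod m q hm2 hq.2.2
      obtain ⟨k', _, hqk'⟩ := odd_of_mod m q' hm2 hq'.2.2
      have hk2 : (q - 1) / m = k := by
        rw [hqk, Nat.add_sub_cancel_left, Nat.mul_div_cancel_left k (by omega)]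
      have hk2' : (q' - 1) / m = k' := by
        rw [hqk', Nat.add_sub_cancel_left, Nat.mul_div_cancel_left k' (by omega)]
      have heq' : (q - 1) / m = (q' - 1) / m := heq
      rw [hk2, hk2'] at heq'
      rw [hqk, hqk', heq']
  have h3 : (((Ioc 0 ⌊Real.exp t⌋₊).filter (fun q => q.Prime ∧ q % (2 * m) = (1 + m) % (2 * m))).card : ℝ)
      ≤ (((Ioc 0 ⌊Real.exp t / (2 * l * y ^ 2)⌋₊).filter (fun k => Odd k ∧
        (1 + m * k).Prime ∧ 1 + m * k ≤ ⌊Real.exp t⌋₊)).card : ℝ) := by exact_mod_cast h2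
  refine le_trans ?_ (h1.trans h3)
  have h4 : 2 * ((2 * m : ℕ) : ℝ) * t ≤ 32 * l * y ^ 2 * t := by
    rw [hm]
    push_cast
    have : 2 * (2 * (2 * (l : ℝ) * M)) ≤ 2 * (2 * (2 * (l : ℝ) * (4 * y ^ 2))) := by gcongr
    calc 2 * (2 * (2 * (l : ℝ) * M)) * t ≤ 2 * (2 * (2 * (l : ℝ) * (4 * y ^ 2))) * t := by gcongr
      _ = _ := by ring
  have h5 : (0 : ℝ) < 2 * ((2 * m : ℕ) : ℝ) * t := by
    have : (0 : ℝ) < ((2 * m : ℕ) : ℝ) := by exact_mod_cast (by omega : 0 < 2 * m)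
    positivity
  gcongr

theorem omega_le (m : ℕ) (hm : 0 < m) : (m.primeFactors.card : ℝ) * Real.log 2 ≤ Real.log m := by
  have h5 : 2 ^ m.primeFactors.card ≤ m := by
    calc 2 ^ m.primeFactors.card ≤ ∏ p ∈ m.primeFactors, p := by
          rw [← prod_const]
          exact prod_le_prod (fun _ _ => by norm_num)
            (fun p hp => (Nat.prime_of_mem_primeFactors hp).two_le)
      _ ≤ m := Nat.le_of_dvd hm (Nat.prod_primeFactors_dvd m)
  have h6 : Real.log ((2 ^ m.primeFactors.card : ℕ) : ℝ) ≤ Real.log m := by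
    apply Real.log_le_log
    · positivity
    · exact_mod_cast h5
  rw [Nat.cast_pow, Real.log_pow] at h6
  exact_mod_cast h6

/-- The combinatorial core. -/
theorem pigeon {t y : ℝ} {l : ℕ} (P : Finset ℕ) (hT1 : ∀ D c : ℕ, 0 < D → (D : ℝ) ≤ 16 * t ^ 16 →
    c.Coprime D → Real.exp t / (2 * D * t)
      ≤ (((Ioc 0 ⌊Real.exp t⌋₊).filter (fun q => q.Prime ∧ q % D = c % D)).card : ℝ))
    (ht : 16 ≤ t) (hy : y = t ^ 2) (hl : 0 < l) (hlt : (l : ℝ) ≤ t ^ 12)
    (hP : ∀ r ∈ P, r.Prime ∧ y < r ∧ (r : ℝ) ≤ 2 * y) (hexp : 2 * t ^ 16 ≤ Real.exp t)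
    (n0 : ℕ) (hn0 : 16 * t * n0 ≤ (P.card.choose 2 : ℝ)) (hn0' : 0 < n0) :
    ∃ (k0 : ℕ) (Q : Finset ℕ), 0 < k0 ∧ Odd k0 ∧ (k0 : ℝ) ≤ Real.exp t / (2 * l * y ^ 2) ∧
      Q.card = n0 ∧ ∀ q ∈ Q, q.Prime ∧ (q : ℝ) ≤ Real.exp t ∧
        ∃ s ⊆ P, s.card = 2 ∧ q = 1 + 2 * l * (∏ r ∈ s, r) * k0 := by
  classical
  have ht0 : 0 < t := by linarith
  have hy0 : 0 < y := by rw [hy]; positivity
  have hlr : (1 : ℝ) ≤ l := by exact_mod_cast hl
  have hX0 : 0 < Real.exp t := Real.exp_pos t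
  set S := P.powersetCard 2 with hS
  set K := ⌊Real.exp t / (2 * l * y ^ 2)⌋₊ with hK
  set G : Finset ℕ → ℕ → Prop := fun s k => Odd k ∧
        (1 + 2 * l * (∏ r ∈ s, r) * k).Prime ∧ 1 + 2 * l * (∏ r ∈ s, r) * k ≤ ⌊Real.exp t⌋₊ with hG
  -- bounds for the products
  have hprod : ∀ s ∈ S, y ^ 2 < ((∏ r ∈ s, r : ℕ) : ℝ) ∧ ((∏ r ∈ s, r : ℕ) : ℝ) ≤ 4 * y ^ 2 := by
    intro s hs
    rw [hS, mem_powersetCard] at hs
    obtain ⟨a, b, hab, rfl⟩ := card_eq_two.mp hs.2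
    rw [prod_pair hab]
    have ha := hP a (hs.1 (by simp))
    have hb := hP b (hs.1 (by simp))
    push_cast
    constructor
    · nlinarith [ha.2.1, hb.2.1]
    · nlinarith [ha.2.2, hb.2.2, ha.2.1, hb.2.1]
  have hsum : ((P.card.choose 2 : ℝ)) * (Real.exp t / (32 * l * y ^ 2 * t))
      ≤ ∑ s ∈ S, (((Ioc 0 K).filter (fun k => G s k)).card : ℝ) := by
    have h1 : ∑ s ∈ S, (Real.exp t / (32 * l * y ^ 2 * t))
        ≤ ∑ s ∈ S, (((Ioc 0 K).filter (fun k => G s k)).card : ℝ) := by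
      refine sum_le_sum fun s hs => ?_
      exact count_k hT1 ht hy hl hlt (hprod s hs).1 (hprod s hs).2
    rw [sum_const, nsmul_eq_mul, hS, card_powersetCard] at h1
    exact h1
  have hswap : ∑ s ∈ S, (((Ioc 0 K).filter (fun k => G s k)).card : ℝ)
      = ∑ k ∈ Ioc 0 K, ((S.filter (fun s => G s k)).card : ℝ) := by
    simp_rw [card_filter]
    push_cast
    rw [sum_comm]
  have hKr : (K : ℝ) ≤ Real.exp t / (2 * l * y ^ 2) := Nat.floor_le (by positivity)
  have hK1 : 1 ≤ K := by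
    rw [hK, Nat.one_le_floor_iff, le_div_iff₀ (by positivity)]
    calc 1 * (2 * (l : ℝ) * y ^ 2) ≤ 1 * (2 * t ^ 12 * y ^ 2) := by gcongr
      _ = 2 * t ^ 16 := by rw [hy]; ring
      _ ≤ _ := hexp
  have hle : ∑ k ∈ Ioc 0 K, (n0 : ℝ) ≤ ∑ k ∈ Ioc 0 K, ((S.filter (fun s => G s k)).card : ℝ) := by
    rw [← hswap]
    refine le_trans ?_ hsum
    rw [sum_const, Nat.card_Ioc, nsmul_eq_mul, Nat.sub_zero]
    calc (K : ℝ) * n0 ≤ (Real.exp t / (2 * l * y ^ 2)) * n0 := by gcongr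
      _ = (16 * t * n0) * (Real.exp t / (32 * l * y ^ 2 * t)) := by
          field_simp
          ring
      _ ≤ _ := by gcongr
  obtain ⟨k0, hk0, hk0n⟩ := exists_le_of_sum_le (nonempty_Ioc.mpr hK1) hle
  rw [mem_Ioc] at hk0
  have hk0n' : n0 ≤ (S.filter (fun s => G s k0)).card := by exact_mod_cast hk0n
  obtain ⟨s1, hs1⟩ : (S.filter (fun s => G s k0)).Nonempty := by
    rw [← card_pos]
    omega
  have hodd : Odd k0 := ((mem_filter.mp hs1).2).1
  -- the map to primes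
  have hinj : Set.InjOn (fun s : Finset ℕ => 1 + 2 * l * (∏ r ∈ s, r) * k0)
      (S.filter (fun s => G s k0) : Finset (Finset ℕ)) := by
    intro s hs s' hs' heq
    have hs2 := (mem_filter.mp hs).1
    have hs2' := (mem_filter.mp hs').1
    rw [hS, mem_powersetCard] at hs2 hs2'
    have heq' : 1 + 2 * l * (∏ r ∈ s, r) * k0 = 1 + 2 * l * (∏ r ∈ s', r) * k0 := heq
    have h1 : 2 * l * (∏ r ∈ s, r) * k0 = 2 * l * (∏ r ∈ s', r) * k0 := by omega
    have h2 := Nat.eq_of_mul_eq_mul_right hk0.1 h1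
    have h3 := Nat.eq_of_mul_eq_mul_left (by omega : 0 < 2 * l) h2
    have h4 : (∏ r ∈ s, r).primeFactors = s :=
      Nat.primeFactors_prod fun p hp => (hP p (hs2.1 hp)).1
    have h5 : (∏ r ∈ s', r).primeFactors = s' :=
      Nat.primeFactors_prod fun p hp => (hP p (hs2'.1 hp)).1
    rw [← h4, ← h5, h3]
  set Q0 := (S.filter (fun s => G s k0)).image (fun s : Finset ℕ => 1 + 2 * l * (∏ r ∈ s, r) * k0)
    with hQ0
  have hQ0card : n0 ≤ Q0.card := by
    rw [hQ0, card_image_of_injOn hinj]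
    exact hk0n'
  obtain ⟨Q, hQsub, hQcard⟩ := exists_subset_card_eq hQ0card
  refine ⟨k0, Q, hk0.1, hodd, ?_, hQcard, ?_⟩
  · exact (Nat.cast_le.mpr hk0.2).trans hKr
  · intro q hq
    have hq' := hQsub hq
    rw [hQ0, mem_image] at hq'
    obtain ⟨s, hs, rfl⟩ := hq'
    rw [mem_filter, hS, mem_powersetCard] at hs
    obtain ⟨⟨hsP, hs2⟩, _, hp, hX⟩ := hs
    refine ⟨hp, ?_, s, hsP, hs2, rfl⟩
    exact (Nat.cast_le.mpr hX).trans (Nat.floor_le hX0.le)

/-- Properties of the primes of the sieving set. -/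
theorem q_props {y : ℝ} {ℓ k0 : ℕ} (P : Finset ℕ) (hy : 90000 ≤ y)
    (hP : ∀ r ∈ P, r.Prime ∧ y < r ∧ (r : ℝ) ≤ 2 * y) (hℓ : ℓ.Prime) (hℓ2 : ℓ ≠ 2)
    (hk0 : 0 < k0) (hk0odd : Odd k0) (q : ℕ) (hqp : q.Prime) (s : Finset ℕ) (hsP : s ⊆ P)
    (hs2 : s.card = 2) (hqs : q = 1 + 2 * ℓ * (∏ r ∈ s, r) * k0) :
    q % 4 = 3 ∧ ℓ ∣ q - 1 ∧ q - 1 ∣ 2 * ℓ * k0 * (∏ r ∈ P, r) ∧ ¬ q ∣ 2 * ℓ * k0 * (∏ r ∈ P, r) ∧
      100 * ℓ ≤ q := by
  have hℓodd : Odd ℓ := hℓ.odd_of_ne_two hℓ2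
  have hℓ0 : 0 < ℓ := hℓ.pos
  have hℓr : (1 : ℝ) ≤ ℓ := by exact_mod_cast hℓ0
  obtain ⟨a, b, hab, hsab⟩ := card_eq_two.mp hs2
  have hdvdW : ∏ r ∈ s, r ∣ ∏ r ∈ P, r := prod_dvd_prod_of_subset _ _ _ hsP
  subst hsab
  have ha := hP a (hsP (by simp))
  have hb := hP b (hsP (by simp))
  rw [prod_pair hab] at hqs hdvdW
  have ha2 : a ≠ 2 := by
    intro h
    have := ha.2.1
    rw [h] at this
    norm_num at this
    linarith
  have hb2 : b ≠ 2 := by
    intro h
    have := hb.2.1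
    rw [h] at this
    norm_num at this
    linarith
  have haodd := ha.1.odd_of_ne_two ha2
  have hbodd := hb.1.odd_of_ne_two hb2
  have hodd : Odd (ℓ * (a * b) * k0) := (hℓodd.mul (haodd.mul hbodd)).mul hk0odd
  have hq1 : q - 1 = 2 * ℓ * (a * b) * k0 := by rw [hqs]; omega
  have hy0 : 0 < y := by linarith
  have habr : y * y ≤ (a : ℝ) * b := mul_le_mul ha.2.1.le hb.2.1.le hy0.le (Nat.cast_nonneg a)
  have hk0r : (1 : ℝ) ≤ k0 := by exact_mod_cast hk0
  have hqr : (q : ℝ) = 1 + 2 * ℓ * (a * b) * k0 := by rw [hqs]; push_cast; ring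
  have hyy : 90000 * y ≤ y * y := mul_le_mul_of_nonneg_right hy hy0.le
  have hbig : 2 * (ℓ : ℝ) * (90000 * y) ≤ q := by
    rw [hqr]
    have h0 : 90000 * y ≤ (a : ℝ) * b := hyy.trans habr
    have h1 : 2 * (ℓ : ℝ) * (90000 * y) * 1 ≤ 2 * (ℓ : ℝ) * (a * b) * k0 := by
      have h2 : 2 * (ℓ : ℝ) * (90000 * y) ≤ 2 * (ℓ : ℝ) * (a * b) :=
        mul_le_mul_of_nonneg_left h0 (by positivity)
      exact mul_le_mul h2 hk0r (by norm_num) (by positivity)
    linarith
  refine ⟨?_, ?_, ?_, ?_, ?_⟩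
  · obtain ⟨j, hj⟩ := hodd
    have : q = 1 + 2 * (ℓ * (a * b) * k0) := by rw [hqs]; ring
    rw [hj] at this
    omega
  · rw [hq1]
    exact ⟨2 * (a * b) * k0, by ring⟩
  · rw [hq1]
    obtain ⟨j, hj⟩ := hdvdW
    exact ⟨j, by rw [hj]; ring⟩
  · intro hdvd
    have hpos2 : 0 < 2 * ℓ * k0 := by positivity
    have hab1 : 1 ≤ a * b := Nat.mul_pos ha.1.pos hb.1.pos
    have hlt : 2 * ℓ * k0 < q := by
      rw [hqs]
      have : 2 * ℓ * k0 ≤ 2 * ℓ * (a * b) * k0 := by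
        calc 2 * ℓ * k0 = 2 * ℓ * 1 * k0 := by ring
          _ ≤ 2 * ℓ * (a * b) * k0 := by gcongr
      omega
    rcases (Nat.Prime.dvd_mul hqp).mp hdvd with h | h
    · exact absurd (Nat.le_of_dvd hpos2 h) (by omega)
    · rw [Prime.dvd_finsetProd_iff hqp.prime] at h
      obtain ⟨r, hr, hqr'⟩ := h
      have hr' := hP r hr
      have h1 : q = r := (Nat.prime_dvd_prime_iff_eq hqp hr'.1).mp hqr'
      have h2 : (q : ℝ) ≤ 2 * y := by rw [h1]; exact hr'.2.2
      have h3 : 2 * (1 : ℝ) * (90000 * y) ≤ 2 * (ℓ : ℝ) * (90000 * y) := by gcongr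
      linarith
  · have h1 : (100 : ℝ) * ℓ ≤ q := by
      refine le_trans ?_ hbig
      have h2 : (100 : ℝ) ≤ 2 * (90000 * y) := by linarith
      calc (100 : ℝ) * ℓ ≤ (2 * (90000 * y)) * ℓ := by gcongr
        _ = _ := by ring
    exact_mod_cast h1

/-- The final numerical inequality. -/
theorem final_num {t y lL ll w p n0 W4 : ℝ} (ht : 300 ≤ t) (hy : y = t ^ 2)
    (hlogt : Real.log t ≤ t / 10) (hlogt1 : 1 ≤ Real.log t) (hll0 : 0 ≤ ll)
    (hll : ll ≤ 12 * Real.log t) (hw : w ≤ t / Real.log 2 + p) (hp0 : 0 ≤ p)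
    (hp : p * (2 * Real.log t) ≤ W4) (hW4 : W4 ≤ 2 * y * Real.log 4)
    (hlL : lL ≤ t + 2 * y * Real.log 4) (hn0 : 200 * y ≤ n0) :
    Real.log 8 + 2 * lL + w * ll + n0 * Real.log (5 / 6) ≤ -(16 * Real.log t) := by
  have hl2 := Real.log_two_gt_d9
  have hl2' := Real.log_two_lt_d9
  have hl4 : Real.log 4 = 2 * Real.log 2 := by
    rw [show (4 : ℝ) = 2 ^ 2 by norm_num, Real.log_pow]; norm_num
  have hl8 : Real.log 8 = 3 * Real.log 2 := by
    rw [show (8 : ℝ) = 2 ^ 3 by norm_num, Real.log_pow]; norm_num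
  have hl56 : Real.log (5 / 6) ≤ -(1 / 6) := by
    have := Real.log_le_sub_one_of_pos (show (0 : ℝ) < 5 / 6 by norm_num)
    linarith
  have hy0 : 0 < y := by rw [hy]; positivity
  have hl20 : 0 < Real.log 2 := by linarith
  have f1 : w * ll ≤ (t / Real.log 2 + p) * (12 * Real.log t) := by
    have h0 : 0 ≤ t / Real.log 2 + p := by positivity
    calc w * ll ≤ (t / Real.log 2 + p) * ll := mul_le_mul_of_nonneg_right hw hll0
      _ ≤ _ := mul_le_mul_of_nonneg_left hll h0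
  have f3 : t / Real.log 2 ≤ 3 / 2 * t := by
    rw [div_le_iff₀ hl20]
    nlinarith
  have f4 : t / Real.log 2 * (12 * Real.log t) ≤ (3 / 2 * t) * (12 * (t / 10)) := by gcongr
  have f2 : p * (12 * Real.log t) ≤ 12 * (y * Real.log 4) := by linarith
  have f5 : n0 * Real.log (5 / 6) ≤ 200 * y * (-(1 / 6)) := by
    have hn00 : 0 ≤ n0 := le_trans (by positivity) hn0
    have g1 : n0 * Real.log (5 / 6) ≤ n0 * (-(1 / 6)) := mul_le_mul_of_nonneg_left hl56 hn00
    linarith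
  have f7 : y * Real.log 4 ≤ y * 1.3864 := by
    apply mul_le_mul_of_nonneg_left _ hy0.le
    rw [hl4]
    linarith
  have f8 : w * ll ≤ (3 / 2 * t) * (12 * (t / 10)) + 12 * (y * Real.log 4) := by
    have : (t / Real.log 2 + p) * (12 * Real.log t)
        = t / Real.log 2 * (12 * Real.log t) + p * (12 * Real.log t) := by ring
    linarith
  have f9 : (3 / 2 * t) * (12 * (t / 10)) = 9 / 5 * y := by rw [hy]; ring
  have f10 : 300 * t ≤ y := by
    rw [hy]
    nlinarith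
  rw [hl8]
  linarith

/-- **Block Q.** -/
theorem exists_sieve_primes : ∃ T₀ : ℝ, ∀ t : ℝ, T₀ ≤ t → ∀ ℓ : ℕ, ℓ.Prime → ℓ ≠ 2 →
    (ℓ : ℝ) ≤ t ^ 12 → ∃ (Q : Finset ℕ) (L : ℕ), 0 < L ∧
      (∀ q ∈ Q, q.Prime ∧ q % 4 = 3 ∧ ℓ ∣ q - 1 ∧ q - 1 ∣ L ∧ ¬ q ∣ L ∧ 100 * ℓ ≤ q) ∧
      ((∏ q ∈ Q, q : ℕ) : ℝ) ≤ Real.exp (t ^ 4) ∧
      8 * (L : ℝ) ^ 2 * (ℓ : ℝ) ^ (L.primeFactors.card) * (5 / 6 : ℝ) ^ (Q.card) ≤ (t⁻¹) ^ 16 := by
  obtain ⟨T1, hT1⟩ := primes_ap
  obtain ⟨Y, hY⟩ := primes_dyadic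
  have hev1 : ∀ᶠ t : ℝ in atTop, 4096 * 4 * 201 * (Real.log t) ^ 2 ≤ t := by
    have h1 : (fun x : ℝ => Real.log x ^ 2) =o[atTop] (id : ℝ → ℝ) :=
      Real.isLittleO_pow_log_id_atTop
    have h2 := h1.bound (show (0 : ℝ) < 1 / (4096 * 4 * 201) by norm_num)
    filter_upwards [h2, eventually_ge_atTop 0] with t ht ht0
    rw [Real.norm_eq_abs, Real.norm_eq_abs, abs_of_nonneg (by positivity), id,
      abs_of_nonneg ht0] at ht
    linarith
  have hev2 : ∀ᶠ t : ℝ in atTop, 2 * t ^ 16 ≤ Real.exp t := by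
    have h1 : (fun x : ℝ => x ^ 16) =o[atTop] fun x : ℝ => Real.exp (1 * x) :=
      isLittleO_pow_exp_pos_mul_atTop 16 (by norm_num)
    have h2 := h1.bound (show (0 : ℝ) < 1 / 2 by norm_num)
    filter_upwards [h2, eventually_ge_atTop 0] with t ht ht0
    rw [Real.norm_eq_abs, Real.norm_eq_abs, abs_of_nonneg (by positivity),
      abs_of_nonneg (Real.exp_pos _).le, one_mul] at ht
    linarith
  have hev3 : ∀ᶠ t : ℝ in atTop, Y ≤ t ^ 2 := by
    filter_upwards [eventually_ge_atTop (max Y 1)] with t ht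
    have h1 : Y ≤ t := (le_max_left _ _).trans ht
    have h2 : 1 ≤ t := (le_max_right _ _).trans ht
    nlinarith
  have hev4 : ∀ᶠ t : ℝ in atTop, Real.log t ≤ t / 10 := by
    have h2 := Real.isLittleO_log_id_atTop.bound (show (0 : ℝ) < 1 / 10 by norm_num)
    filter_upwards [h2, eventually_ge_atTop 1] with t ht ht1
    rw [Real.norm_eq_abs, Real.norm_eq_abs, abs_of_nonneg (Real.log_nonneg ht1), id,
      abs_of_nonneg (by linarith)] at ht
    linarith
  obtain ⟨T0, hT0⟩ := eventually_atTop.mp (hev1.and (hev2.and (hev3.and (hev4.and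
    ((eventually_ge_atTop T1).and (eventually_ge_atTop (300 : ℝ)))))))
  refine ⟨T0, ?_⟩
  intro t ht ℓ hℓ hℓ2 hℓt
  obtain ⟨e1, e2, e3, e4, e5, e6⟩ := hT0 t ht
  have ht0 : 0 < t := by linarith
  have hlogt : 0 < Real.log t := Real.log_pos (by linarith)
  have hlog1 : 1 ≤ Real.log t := by
    rw [Real.le_log_iff_exp_le ht0]
    have := Real.exp_one_lt_d9
    linarith
  have hℓ0 : 0 < ℓ := hℓ.pos
  have hℓr : (2 : ℝ) ≤ ℓ := by exact_mod_cast hℓ.two_le
  have hℓodd : Odd ℓ := hℓ.odd_of_ne_two hℓ2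
  set y := t ^ 2 with hy
  have hy0 : 0 < y := by positivity
  have hylog : Real.log y = 2 * Real.log t := by rw [hy, Real.log_pow]; norm_num
  set P := (Ioc ⌊y⌋₊ ⌊2 * y⌋₊).filter Nat.Prime with hPdef
  have hPcard := hY y e3
  rw [hylog] at hPcard
  have hP : ∀ r ∈ P, r.Prime ∧ y < r ∧ (r : ℝ) ≤ 2 * y := by
    intro r hr
    rw [hPdef, mem_filter, mem_Ioc] at hr
    refine ⟨hr.2, (Nat.floor_lt hy0.le).mp hr.1.1, ?_⟩
    exact (Nat.cast_le.mpr hr.1.2).trans (Nat.floor_le (by linarith))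
  set n0 := ⌈200 * y⌉₊ with hn0
  have hn0l : 200 * y ≤ n0 := Nat.le_ceil _
  have hn0u : (n0 : ℝ) ≤ 200 * y + 1 := (Nat.ceil_lt_add_one (by linarith)).le
  have hn0pos : 0 < n0 := by
    rw [hn0, Nat.ceil_pos]
    linarith
  have hpairs : 16 * t * n0 ≤ (P.card.choose 2 : ℝ) := by
    rw [Nat.cast_choose_two]
    set n : ℝ := (P.card : ℝ) with hn
    have h1 : y / (16 * Real.log t) ≤ n := by
      refine le_trans (le_of_eq ?_) hPcard
      ring
    have h2 : 2 ≤ n := by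
      refine le_trans ?_ h1
      rw [le_div_iff₀ (by positivity)]
      rw [hy]
      nlinarith
    have h3 : n ^ 2 / 4 ≤ n * (n - 1) / 2 := by nlinarith
    refine le_trans ?_ h3
    have h4 : (y / (16 * Real.log t)) ^ 2 ≤ n ^ 2 := by gcongr
    have h5 : 16 * t * n0 ≤ (y / (16 * Real.log t)) ^ 2 / 4 := by
      rw [div_pow, div_div, le_div_iff₀ (by positivity)]
      have h6 : (n0 : ℝ) ≤ 201 * y := by
        have : 1 ≤ y := by rw [hy]; nlinarith
        linarith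
      calc 16 * t * n0 * ((16 * Real.log t) ^ 2 * 4)
          ≤ 16 * t * (201 * y) * ((16 * Real.log t) ^ 2 * 4) := by gcongr
        _ = t * y * (4096 * 4 * 201 * (Real.log t) ^ 2) := by ring
        _ ≤ t * y * t := by gcongr
        _ = y ^ 2 := by rw [hy]; ring
    linarith
  obtain ⟨k0, Q, hk0, hk0odd, hk0X, hQcard, hQ⟩ := pigeon P (hT1 t e5) (by linarith) hy hℓ0 hℓt hP e2
    n0 hpairs hn0pos
  set W := ∏ r ∈ P, r with hW
  have hW0 : 0 < W := prod_pos fun r hr => (hP r hr).1.pos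
  set L := 2 * ℓ * k0 * W with hL
  have hL0 : 0 < L := by positivity
  have h2lk : (2 * (ℓ : ℝ) * k0) ≤ Real.exp t / y ^ 2 := by
    calc 2 * (ℓ : ℝ) * k0 ≤ 2 * (ℓ : ℝ) * (Real.exp t / (2 * ℓ * y ^ 2)) := by gcongr
      _ = _ := by field_simp
  have hy9 : 90000 ≤ y := by rw [hy]; nlinarith
  refine ⟨Q, L, hL0, ?_, ?_, ?_⟩
  · intro q hq
    obtain ⟨hqp, hqX, s, hsP, hs2, hqs⟩ := hQ q hq
    exact ⟨hqp, q_props P hy9 hP hℓ hℓ2 hk0 hk0odd q hqp s hsP hs2 hqs⟩
  · push_cast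
    calc ∏ q ∈ Q, (q : ℝ) ≤ ∏ q ∈ Q, Real.exp t := by
          apply Finset.prod_le_prod
          · intro q _
            exact Nat.cast_nonneg q
          · intro q hq
            exact (hQ q hq).2.1
      _ = Real.exp (t * n0) := by
          rw [prod_const, hQcard, ← Real.exp_nat_mul]
          congr 1
          ring
      _ ≤ Real.exp (t ^ 4) := by
          apply Real.exp_le_exp.mpr
          calc t * n0 ≤ t * (200 * y + 1) := by gcongr
            _ ≤ t ^ 4 := by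
                rw [hy]
                have h1 : 200 * t ^ 2 + 1 ≤ t ^ 3 := by nlinarith [sq_nonneg t]
                calc t * (200 * t ^ 2 + 1) ≤ t * t ^ 3 := by gcongr
                  _ = t ^ 4 := by ring
  · rw [hQcard]
    -- logarithms
    have hθ : Real.log W ≤ 2 * y * Real.log 4 := by
      have h1 := Chebyshev.theta_le_log4_mul_x (x := 2 * y) (by linarith)
      have h2 : Real.log W ≤ Chebyshev.theta (2 * y) := by
        rw [hW, Nat.cast_prod, Real.log_prod (fun r hr => by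
          have := (hP r hr).1.pos
          positivity)]
        unfold Chebyshev.theta
        apply sum_le_sum_of_subset_of_nonneg
        · intro r hr
          rw [hPdef, mem_filter, mem_Ioc] at hr
          rw [mem_filter, mem_Ioc]
          exact ⟨⟨by omega, hr.1.2⟩, hr.2⟩
        · intro r hr _
          exact Real.log_natCast_nonneg r
      linarith
    have hPlog : (P.card : ℝ) * (2 * Real.log t) ≤ Real.log W := by
      rw [hW, Nat.cast_prod, Real.log_prod (fun r hr => by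
          have := (hP r hr).1.pos
          positivity), ← nsmul_eq_mul, ← sum_const]
      refine sum_le_sum fun r hr => ?_
      rw [← hylog]
      exact Real.log_le_log hy0 (hP r hr).2.1.le
    have hWr : (0 : ℝ) < W := by exact_mod_cast hW0
    have h2lk0 : (0 : ℝ) < 2 * (ℓ : ℝ) * k0 := by
      have : (0 : ℝ) < k0 := by exact_mod_cast hk0
      positivity
    have hlog2lk : Real.log (2 * (ℓ : ℝ) * k0) ≤ t := by
      rw [Real.log_le_iff_le_exp h2lk0]
      refine h2lk.trans ?_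
      rw [div_le_iff₀ (by positivity)]
      have h1 : (1 : ℝ) ≤ y ^ 2 := by
        apply one_le_pow₀
        rw [hy]
        nlinarith
      have := Real.exp_pos t
      nlinarith
    have hlogL : Real.log L ≤ t + 2 * y * Real.log 4 := by
      rw [hL]
      push_cast
      rw [Real.log_mul h2lk0.ne' hWr.ne']
      linarith
    have homega : (L.primeFactors.card : ℝ) ≤ t / Real.log 2 + P.card := by
      have h1 : L.primeFactors.card ≤ (2 * ℓ * k0).primeFactors.card + P.card := by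
        have h2 : L.primeFactors = (2 * ℓ * k0).primeFactors ∪ W.primeFactors := by
          rw [hL]
          exact Nat.primeFactors_mul (by positivity) hW0.ne'
        have h3 : W.primeFactors = P := Nat.primeFactors_prod fun p hp => (hP p hp).1
        rw [h2, h3]
        exact card_union_le _ _
      have h2 := omega_le (2 * ℓ * k0) (by positivity)
      have h3 : ((2 * ℓ * k0).primeFactors.card : ℝ) ≤ t / Real.log 2 := by
        rw [le_div_iff₀ (Real.log_pos (by norm_num))]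
        refine h2.trans ?_
        push_cast
        exact hlog2lk
      have h4 : (L.primeFactors.card : ℝ) ≤ ((2 * ℓ * k0).primeFactors.card : ℝ) + P.card := by
        exact_mod_cast h1
      linarith
    have hlogℓ : Real.log ℓ ≤ 12 * Real.log t := by
      have h1 : Real.log ℓ ≤ Real.log (t ^ 12) := Real.log_le_log (by linarith) hℓt
      rw [Real.log_pow] at h1
      exact_mod_cast h1
    have hlogℓ0 : 0 ≤ Real.log ℓ := Real.log_nonneg (by linarith)
    have hLr : (0 : ℝ) < L := by exact_mod_cast hL0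
    have hmain : Real.log 8 + 2 * Real.log L + L.primeFactors.card * Real.log ℓ
        + n0 * Real.log (5 / 6) ≤ -(16 * Real.log t) :=
      final_num e6 hy e4 hlog1 hlogℓ0 hlogℓ homega (Nat.cast_nonneg _) hPlog hθ hlogL hn0l
    have hlhs : 8 * (L : ℝ) ^ 2 * (ℓ : ℝ) ^ (L.primeFactors.card) * (5 / 6 : ℝ) ^ n0
        = Real.exp (Real.log 8 + 2 * Real.log L + L.primeFactors.card * Real.log ℓ
        + n0 * Real.log (5 / 6)) := by
      have hℓr0 : (0 : ℝ) < ℓ := by linarith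
      rw [Real.exp_add, Real.exp_add, Real.exp_add, Real.exp_log (by norm_num), Real.exp_nat_mul,
        Real.exp_nat_mul, Real.exp_log hℓr0, Real.exp_log (by norm_num : (0 : ℝ) < 5 / 6)]
      congr 3
      rw [show (2 : ℝ) * Real.log L = ((2 : ℕ) : ℝ) * Real.log L by norm_num, Real.exp_nat_mul,
        Real.exp_log hLr]
    have hrhs : (t⁻¹) ^ 16 = Real.exp (-(16 * Real.log t)) := by
      rw [Real.exp_neg, show (16 : ℝ) * Real.log t = ((16 : ℕ) : ℝ) * Real.log t by norm_num,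
        Real.exp_nat_mul, Real.exp_log ht0, inv_pow]
    rw [hlhs, hrhs]
    exact Real.exp_le_exp.mpr hmain

end Pool.Agent.Work.MP_2738db_nt_W
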