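import Mathlib

/-!
Zero estimate for functions `∑ c_{k,l} binom(z,k) (x^r y^s)^l` on points `z = r k₀ + s ℓ`.
-/

namespace Pool.Agent.Work.MP_2738db_nt_W

open Finset BigOperators Polynomial

lemma coeff_prod_deg {ι : Type*} (s : Finset ι) (f : ι → ℚ[X]) (d : ι → ℕ)
    (h : ∀ i ∈ s, (f i).natDegree ≤ d i) :
    (∏ i ∈ s, f i).coeff (∑ i ∈ s, d i) = ∏ i ∈ s, (f i).coeff (d i) ∧
      (∏ i ∈ s, f i).natDegree ≤ ∑ i ∈ s, d i := by
  classical
  induction s using Finset.induction_on with
  | empty => simp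
  | insert a s ha ih =>
    obtain ⟨h1, h2⟩ := ih (fun i hi => h i (mem_insert_of_mem hi))
    rw [Finset.prod_insert ha, Finset.sum_insert ha, Finset.prod_insert ha]
    have h3 := h a (mem_insert_self a s)
    refine ⟨?_, ?_⟩
    · rw [Polynomial.coeff_mul_add_eq_of_natDegree_le h3 h2, h1]
    · exact (Polynomial.natDegree_mul_le).trans (by omega)

/-- the core of the zero estimate. -/
lemma zero_core {n : ℕ} (hn : 0 < n) (lam : Fin n → ℕ) (hlam : Function.Injective lam)
    (P : Fin n → ℚ[X]) (hP : ∀ j, P j ≠ 0) (K : ℕ) (hK : ∀ j, (P j).natDegree ≤ K)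
    (y : ℚ) (hy : 1 < y) (ℓ : ℕ) {τ : Type*} (T : Finset τ) (zf : τ → ℕ)
    (hinj : Set.InjOn zf T) (η : τ → ℚ) (hη : ∀ z ∈ T, η z ≠ 0)
    (hT : K * n < T.card)
    (hz : ∀ z ∈ T, ∀ s : Fin n,
      ∑ j, (P j).eval ((zf z : ℚ) + (s : ℕ) * ℓ) * (η z * y ^ (s : ℕ)) ^ lam j = 0) :
    False := by
  classical
  let E : Matrix (Fin n) (Fin n) ℚ[X] :=
    Matrix.of fun s j => (P j).comp (X + C (((s : ℕ) : ℚ) * ℓ)) * C ((y ^ (s : ℕ)) ^ lam j)
  let d : Fin n → ℕ := fun j => (P j).natDegree
  have hEdeg : ∀ s j, (E s j).natDegree ≤ d j := by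
    intro s j
    simp only [E, Matrix.of_apply]
    refine (Polynomial.natDegree_mul_C_le _ _).trans ?_
    rw [Polynomial.natDegree_comp]
    rw [Polynomial.natDegree_X_add_C, mul_one]
  have hEcoeff : ∀ s j, (E s j).coeff (d j) = (P j).leadingCoeff * (y ^ lam j) ^ (s : ℕ) := by
    intro s j
    simp only [E, Matrix.of_apply, Polynomial.coeff_mul_C]
    have h1 : ((P j).comp (X + C (((s : ℕ) : ℚ) * ℓ))).coeff (d j) = (P j).leadingCoeff := by
      have h2 : ((P j).comp (X + C (((s : ℕ) : ℚ) * ℓ))).natDegree = d j := by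
        rw [Polynomial.natDegree_comp, Polynomial.natDegree_X_add_C, mul_one]
      have h3 : ((P j).comp (X + C (((s : ℕ) : ℚ) * ℓ))).leadingCoeff = (P j).leadingCoeff := by
        rw [Polynomial.leadingCoeff_comp (by rw [Polynomial.natDegree_X_add_C]; exact one_ne_zero)]
        rw [Polynomial.leadingCoeff_X_add_C, one_pow, mul_one]
      rw [← h3, Polynomial.leadingCoeff, h2]
    rw [h1, ← pow_mul, ← pow_mul, mul_comm (lam j)]
  -- the determinant is a nonzero polynomial
  have hcoef : (E.det).coeff (∑ j, d j) = (∏ j, (P j).leadingCoeff) *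
      (Matrix.vandermonde fun j => y ^ lam j).det := by
    rw [← Matrix.det_transpose (Matrix.vandermonde fun j => y ^ lam j)]
    rw [Matrix.det_apply', Matrix.det_apply' , Polynomial.finsetSum_coeff, Finset.mul_sum]
    apply Finset.sum_congr rfl
    intro σ _
    have h1 := (coeff_prod_deg univ (fun j => E (σ j) j) d (fun j _ => hEdeg (σ j) j)).1
    have h2 : (((Equiv.Perm.sign σ : ℤ) : ℚ[X]) * ∏ i, E (σ i) i).coeff (∑ j, d j)
        = ((Equiv.Perm.sign σ : ℤ) : ℚ) * (∏ i, E (σ i) i).coeff (∑ j, d j) := by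
      rw [← Polynomial.C_eq_intCast, Polynomial.coeff_C_mul]
    rw [h2, h1]
    simp only [hEcoeff, Finset.prod_mul_distrib, Matrix.transpose_apply, Matrix.vandermonde_apply]
    ring
  have hne : E.det ≠ 0 := by
    intro h0
    rw [h0, Polynomial.coeff_zero] at hcoef
    have h1 : (∏ j, (P j).leadingCoeff) ≠ 0 :=
      Finset.prod_ne_zero_iff.mpr fun j _ => Polynomial.leadingCoeff_ne_zero.mpr (hP j)
    have h2 : (Matrix.vandermonde fun j => y ^ lam j).det ≠ 0 := by
      rw [Matrix.det_vandermonde_ne_zero_iff]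
      intro i j hij
      apply hlam
      exact pow_right_injective₀ (by linarith) (ne_of_gt hy) hij
    exact (mul_ne_zero h1 h2) hcoef.symm
  have hdeg : E.det.natDegree ≤ K * n := by
    rw [Matrix.det_apply']
    apply (Polynomial.natDegree_sum_le_of_forall_le _ _ _)
    intro σ _
    have h1 := (coeff_prod_deg univ (fun j => E (σ j) j) d (fun j _ => hEdeg (σ j) j)).2
    refine (Polynomial.natDegree_mul_le).trans ?_
    rw [Polynomial.natDegree_intCast, zero_add]
    refine h1.trans ?_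
    calc ∑ j, d j ≤ ∑ _j : Fin n, K := Finset.sum_le_sum fun j _ => hK j
      _ = K * n := by simp [mul_comm]
  apply hne
  apply Polynomial.eq_zero_of_natDegree_lt_card_of_eval_eq_zero' _ (T.image (fun z => (zf z : ℚ)))
  · intro x hx
    obtain ⟨z, hzT, rfl⟩ := Finset.mem_image.mp hx
    have h1 : (E.det).eval (zf z : ℚ) = (E.map (Polynomial.evalRingHom (zf z : ℚ))).det := by
      rw [← Polynomial.coe_evalRingHom, RingHom.map_det]
      rfl
    rw [h1]
    rw [← Matrix.exists_mulVec_eq_zero_iff]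
    refine ⟨fun j => (η z) ^ lam j, ?_, ?_⟩
    · intro h0
      have := congrFun h0 ⟨0, hn⟩
      simp only [Pi.zero_apply] at this
      exact (pow_ne_zero _ (hη z hzT)) this
    · funext s
      simp only [Matrix.mulVec, dotProduct, Matrix.map_apply, E, Matrix.of_apply,
        Polynomial.coe_evalRingHom, Polynomial.eval_mul, Polynomial.eval_comp, Polynomial.eval_add,
        Polynomial.eval_X, Polynomial.eval_C, Pi.zero_apply]
      rw [← hz z hzT s]
      apply Finset.sum_congr rfl
      intro j _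
      rw [mul_pow]
      ring
  · rw [Finset.card_image_of_injOn]
    · omega
    · intro a ha b hb hab
      exact hinj ha hb (Nat.cast_injective hab)

/-- binomial polynomial -/
noncomputable def bp (k : ℕ) : ℚ[X] := C ((k.factorial : ℚ)⁻¹) * descPochhammer ℚ k

lemma bp_eval (k z : ℕ) : (bp k).eval (z : ℚ) = (Nat.choose z k : ℚ) := by
  rw [bp, Polynomial.eval_mul, Polynomial.eval_C, descPochhammer_eval_eq_descFactorial,
    Nat.descFactorial_eq_factorial_mul_choose, Nat.cast_mul, ← mul_assoc, inv_mul_cancel₀, one_mul]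
  exact_mod_cast Nat.factorial_ne_zero k

lemma bp_natDegree (k : ℕ) : (bp k).natDegree ≤ k := by
  refine (Polynomial.natDegree_C_mul_le _ _).trans ?_
  rw [descPochhammer_natDegree]

/-- linear independence of binomial polynomials (as functions on ℕ). -/
lemma bp_indep {K : ℕ} (c : Fin K → ℚ) (h : ∑ k, C (c k) * bp k = 0) : ∀ k, c k = 0 := by
  have h1 : ∀ z : ℕ, ∑ k : Fin K, c k * (Nat.choose z k : ℚ) = 0 := by
    intro z
    have h2 := congrArg (Polynomial.eval (z : ℚ)) h
    simp only [Polynomial.eval_finsetSum, Polynomial.eval_mul, Polynomial.eval_C, bp_eval,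
      Polynomial.eval_zero] at h2
    exact h2
  have h3 : ∀ n : ℕ, ∀ hn : n < K, c ⟨n, hn⟩ = 0 := by
    intro n
    induction n using Nat.strong_induction_on with
    | _ n ih =>
      intro hn
      have h4 := h1 n
      rw [Finset.sum_eq_single (⟨n, hn⟩ : Fin K)] at h4
      · simpa using h4
      · intro k _ hk
        rcases lt_trichotomy (k : ℕ) n with h5 | h5 | h5
        · have := ih k h5 k.2
          simp only [Fin.eta] at this
          rw [this, zero_mul]
        · exact absurd (Fin.ext h5) hk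
        · rw [Nat.choose_eq_zero_of_lt h5]; simp
      · intro h5
        exact absurd (Finset.mem_univ _) h5
  intro k
  exact h3 k k.2

/-- Zero estimate. -/
theorem zero_est {K L R S : ℕ} (X1 Y1 k₀ ℓ : ℕ) (hX : 1 ≤ X1) (hY : 2 ≤ Y1)
    (hcop : Nat.Coprime ℓ k₀) (hR : R ≤ ℓ) (hKL : K * L ≤ R * S) (hK : 1 ≤ K) (hL : 1 ≤ L)
    (c : Fin K × Fin L → ℚ)
    (h : ∀ r < R, ∀ t < S + L,
      ∑ i : Fin K × Fin L, c i * ((Nat.choose (r * k₀ + t * ℓ) i.1 : ℚ) * ((X1 : ℚ) ^ r * (Y1 : ℚ) ^ t) ^ (i.2 : ℕ)) = 0) :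
    c = 0 := by
  classical
  by_contra hc
  let J : Finset (Fin L) := univ.filter (fun l => ∃ k, c (k, l) ≠ 0)
  have hJ : 0 < J.card := by
    rw [Finset.card_pos]
    obtain ⟨⟨k, l⟩, hkl⟩ := Function.ne_iff.mp hc
    exact ⟨l, by simp only [J, mem_filter, mem_univ, true_and]; exact ⟨k, hkl⟩⟩
  let e : Fin J.card ≃ J := J.equivFin.symm
  have hJL : J.card ≤ L := by
    have := Finset.card_le_univ J
    simpa using this
  let P : Fin J.card → ℚ[X] := fun j => ∑ k : Fin K, C (c (k, (e j : Fin L))) * bp k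
  have hfilt : ∀ l : Fin L, l ∉ J → ∀ k, c (k, l) = 0 := by
    intro l hl k
    by_contra h1
    exact hl (by simp only [J, mem_filter, mem_univ, true_and]; exact ⟨k, h1⟩)
  apply zero_core hJ (fun j => ((e j : Fin L) : ℕ)) (by
      intro i j hij
      apply e.injective
      apply Subtype.ext
      exact Fin.ext hij) P (by
      intro j h0
      have h1 := bp_indep _ h0
      have h2 := (e j).2
      simp only [J, mem_filter, mem_univ, true_and] at h2
      obtain ⟨k, hk⟩ := h2
      exact hk (h1 k)) (K - 1) (by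
      intro j
      apply Polynomial.natDegree_sum_le_of_forall_le
      intro k _
      refine (Polynomial.natDegree_C_mul_le _ _).trans ((bp_natDegree _).trans ?_)
      have := k.2
      omega) (Y1 : ℚ) (by exact_mod_cast hY) ℓ
      (τ := ℕ × ℕ) (range R ×ˢ range S) (fun t => t.1 * k₀ + t.2 * ℓ) ?_
      (fun t => (X1 : ℚ) ^ t.1 * (Y1 : ℚ) ^ t.2) ?_ ?_ ?_
  · rintro ⟨r, s⟩ hrs ⟨r', s'⟩ hrs' heq
    simp only [coe_product, coe_range, Set.mem_prod, Set.mem_Iio] at hrs hrs' heq
    have hℓ : 0 < ℓ := by omega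
    have h1 : r = r' := by
      have h2 : (r * k₀) % ℓ = (r' * k₀) % ℓ := by
        have := congrArg (fun z => z % ℓ) heq
        simpa [Nat.add_mul_mod_self_right] using this
      have h3 : r ≡ r' [MOD ℓ] := Nat.ModEq.cancel_right_of_coprime hcop h2
      have h4 := Nat.ModEq.eq_of_lt_of_lt h3 (by omega) (by omega)
      exact h4
    subst h1
    have h5 : s * ℓ = s' * ℓ := by omega
    have h6 := Nat.eq_of_mul_eq_mul_right hℓ h5
    rw [h6]
  · intro t _
    have h1 : (X1 : ℚ) ≠ 0 := by exact_mod_cast (by omega : X1 ≠ 0)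
    have h2 : (Y1 : ℚ) ≠ 0 := by exact_mod_cast (by omega : Y1 ≠ 0)
    exact mul_ne_zero (pow_ne_zero _ h1) (pow_ne_zero _ h2)
  · rw [card_product, card_range, card_range]
    calc (K - 1) * J.card ≤ (K - 1) * L := Nat.mul_le_mul_left _ hJL
      _ < K * L := Nat.mul_lt_mul_of_pos_right (by omega) hL
      _ ≤ R * S := hKL
  · rintro ⟨r, s⟩ hrs t
    simp only [mem_product, mem_range] at hrs
    have h1 := h r hrs.1 (s + t) (by have := t.2; omega)
    rw [Fintype.sum_prod_type_right] at h1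
    rw [← h1]
    have h2 : ∑ l : Fin L, ∑ k : Fin K, c (k, l) * ((Nat.choose (r * k₀ + (s + (t : ℕ)) * ℓ) k : ℚ) * ((X1 : ℚ) ^ r * (Y1 : ℚ) ^ (s + (t : ℕ))) ^ (l : ℕ))
        = ∑ l ∈ J, ∑ k : Fin K, c (k, l) * ((Nat.choose (r * k₀ + (s + (t : ℕ)) * ℓ) k : ℚ) * ((X1 : ℚ) ^ r * (Y1 : ℚ) ^ (s + (t : ℕ))) ^ (l : ℕ)) := by
      symm
      apply Finset.sum_subset (Finset.subset_univ _)
      intro l _ hl
      apply Finset.sum_eq_zero
      intro k _
      rw [hfilt l hl k, zero_mul]
    simp only at h2 ⊢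
    rw [h2, ← Finset.sum_coe_sort J, ← Equiv.sum_comp e]
    apply Finset.sum_congr rfl
    intro j _
    have h3 : ((r * k₀ + s * ℓ : ℕ) : ℚ) + (t : ℕ) * ℓ = ((r * k₀ + (s + (t : ℕ)) * ℓ : ℕ) : ℚ) := by
      push_cast; ring
    rw [h3]
    simp only [P, Polynomial.eval_finsetSum, Polynomial.eval_mul, Polynomial.eval_C, bp_eval]
    rw [Finset.sum_mul]
    apply Finset.sum_congr rfl
    intro k _
    rw [pow_add]
    ring

/-- a matrix with independent rows has a nonzero maximal minor. -/
lemma exists_minor {ι P : Type*} [Fintype ι] [DecidableEq ι] [Fintype P] (A : Matrix ι P ℚ)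
    (h : ∀ c : ι → ℚ, (∀ j, ∑ i, c i * A i j = 0) → c = 0) :
    ∃ g : ι → P, (A.submatrix id g).det ≠ 0 := by
  classical
  -- columns span
  have hspan : (⊤ : Submodule ℚ (ι → ℚ)) ≤ Submodule.span ℚ (Set.range fun j => fun i => A i j) := by
    by_contra hcon
    have hlt : Submodule.span ℚ (Set.range fun j => fun i => A i j) < ⊤ := by
      rw [lt_top_iff_ne_top]
      intro h1
      exact hcon h1.ge
    obtain ⟨f, hf, hf2⟩ := Submodule.exists_le_ker_of_lt_top _ hlt
    have h2 : (fun i => f (Pi.single i 1)) = (0 : ι → ℚ) := by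
      apply h
      intro j
      have h3 : f (fun i => A i j) = 0 := by
        have := hf2 (Submodule.subset_span ⟨j, rfl⟩)
        exact this
      have h4 : (fun i => A i j) = ∑ i, A i j • (Pi.single i (1 : ℚ) : ι → ℚ) := by
        funext i
        simp [Finset.sum_apply, Pi.single_apply]
      rw [h4, map_sum] at h3
      simp only [map_smul, smul_eq_mul] at h3
      rw [← h3]
      apply Finset.sum_congr rfl
      intro i _
      ring
    apply hf
    apply LinearMap.pi_ext'
    intro i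
    apply LinearMap.ext_ring
    have := congrFun h2 i
    simpa using this
  let b := Module.Basis.ofSpan hspan
  let e := (Pi.basisFun ℚ ι).indexEquiv b
  let b' := b.reindex e.symm
  have hb' : ∀ i, ∃ j : P, (fun i' => A i' j) = b' i := by
    intro i
    have h1 := Module.Basis.ofSpan_subset hspan ⟨e i, rfl⟩
    obtain ⟨j, hj⟩ := h1
    refine ⟨j, ?_⟩
    simp only [b', Module.Basis.reindex_apply, Equiv.symm_symm]
    exact hj
  choose g hg using hb'
  refine ⟨g, ?_⟩
  have h2 : LinearIndependent ℚ (A.submatrix id g).col := by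
    have h3 : (A.submatrix id g).col = b' := by
      funext j
      rw [← hg j]
      rfl
    rw [h3]
    exact b'.linearIndependent
  rw [Matrix.linearIndependent_cols_iff_isUnit, Matrix.isUnit_iff_isUnit_det] at h2
  exact h2.ne_zero

end Pool.Agent.Work.MP_2738db_nt_W
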