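import Pool.Agent.Work.MP_2738db_nt_W.Val
import Pool.Agent.Work.MP_2738db_nt_W.Zero

/-!
p-adic lower bound for linear forms in two logarithms (rational integers), unbalanced heights:
linear in the larger height and with `log ℓ` only.
-/

namespace Pool.Agent.Work.MP_2738db_nt_W

open Finset BigOperators

/-- common root: `X ≡ Θ^k₀`, `Y ≡ Θ^ℓ`. -/
lemma exists_theta {p M : ℕ} (hp : p.Prime) (hM : 1 ≤ M) {X Y k₀ ℓ : ℕ} (hcop : Nat.Coprime ℓ k₀)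
    (hX : (p : ℤ) ∣ (X : ℤ) - 1) (hY : (p : ℤ) ∣ (Y : ℤ) - 1)
    (h : (p : ℤ) ^ M ∣ (X : ℤ) ^ ℓ - (Y : ℤ) ^ k₀) :
    ∃ Θ : ℤ, (p : ℤ) ∣ Θ - 1 ∧ (p : ℤ) ^ M ∣ (X : ℤ) - Θ ^ k₀ ∧ (p : ℤ) ^ M ∣ (Y : ℤ) - Θ ^ ℓ := by
  haveI : Fact p.Prime := ⟨hp⟩
  have hXu : IsUnit (X : ZMod (p ^ M)) := by
    rw [ZMod.isUnit_iff_coprime]
    apply Nat.Coprime.pow_right
    rw [Nat.coprime_comm, hp.coprime_iff_not_dvd]
    intro h1
    have h2 : (p : ℤ) ∣ (X : ℤ) := by exact_mod_cast h1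
    have h3 : (p : ℤ) ∣ 1 := by have := dvd_sub h2 hX; simpa using this
    have h4 : p ∣ 1 := by exact_mod_cast h3
    exact hp.one_lt.ne' (Nat.dvd_one.mp h4)
  have hYu : IsUnit (Y : ZMod (p ^ M)) := by
    rw [ZMod.isUnit_iff_coprime]
    apply Nat.Coprime.pow_right
    rw [Nat.coprime_comm, hp.coprime_iff_not_dvd]
    intro h1
    have h2 : (p : ℤ) ∣ (Y : ℤ) := by exact_mod_cast h1
    have h3 : (p : ℤ) ∣ 1 := by have := dvd_sub h2 hY; simpa using this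
    have h4 : p ∣ 1 := by exact_mod_cast h3
    exact hp.one_lt.ne' (Nat.dvd_one.mp h4)
  obtain ⟨x, hx⟩ := hXu
  obtain ⟨y, hy⟩ := hYu
  have hxy : x ^ ℓ = y ^ k₀ := by
    apply Units.ext
    rw [Units.val_pow_eq_pow_val, Units.val_pow_eq_pow_val, hx, hy]
    have h1 : (((X : ℤ) ^ ℓ - (Y : ℤ) ^ k₀ : ℤ) : ZMod (p ^ M)) = 0 := by
      rw [ZMod.intCast_zmod_eq_zero_iff_dvd]
      exact_mod_cast h
    push_cast at h1
    exact sub_eq_zero.mp h1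
  -- Bezout
  have hb : ((Nat.gcd ℓ k₀ : ℕ) : ℤ) = ℓ * Nat.gcdA ℓ k₀ + k₀ * Nat.gcdB ℓ k₀ := Nat.gcd_eq_gcd_ab ℓ k₀
  rw [Nat.Coprime] at hcop
  rw [hcop] at hb
  set t : ℤ := Nat.gcdA ℓ k₀ with ht
  set s : ℤ := Nat.gcdB ℓ k₀ with hs
  let θ : (ZMod (p ^ M))ˣ := x ^ s * y ^ t
  have hxy' : (x : (ZMod (p ^ M))ˣ) ^ (ℓ : ℤ) = y ^ (k₀ : ℤ) := by
    rw [zpow_natCast, zpow_natCast]; exact hxy
  have hθ1 : θ ^ (k₀ : ℤ) = x := by
    simp only [θ, mul_zpow, ← zpow_mul]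
    have h1 : y ^ (t * (k₀ : ℤ)) = x ^ ((ℓ : ℤ) * t) := by
      rw [mul_comm t, zpow_mul, ← hxy', ← zpow_mul]
    rw [h1, ← zpow_add]
    have h2 : s * (k₀ : ℤ) + (ℓ : ℤ) * t = 1 := by push_cast at hb; linarith
    rw [h2, zpow_one]
  have hθ2 : θ ^ (ℓ : ℤ) = y := by
    simp only [θ, mul_zpow, ← zpow_mul]
    have h1 : x ^ (s * (ℓ : ℤ)) = y ^ ((k₀ : ℤ) * s) := by
      rw [mul_comm s, zpow_mul, hxy', ← zpow_mul]
    rw [h1, ← zpow_add]
    have h2 : (k₀ : ℤ) * s + t * (ℓ : ℤ) = 1 := by push_cast at hb; linarith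
    rw [h2, zpow_one]
  rw [zpow_natCast] at hθ1 hθ2
  haveI : NeZero (p ^ M) := ⟨pow_ne_zero _ hp.ne_zero⟩
  refine ⟨((θ : ZMod (p ^ M)).val : ℤ), ?_, ?_, ?_⟩
  · -- reduction mod p
    have hdvd : p ∣ p ^ M := dvd_pow_self p (by omega)
    let φ : ZMod (p ^ M) →+* ZMod p := ZMod.castHom hdvd (ZMod p)
    have h1 : φ (X : ZMod (p ^ M)) = 1 := by
      rw [map_natCast]
      have : (((X : ℤ) - 1 : ℤ) : ZMod p) = 0 := by
        rw [ZMod.intCast_zmod_eq_zero_iff_dvd]; exact hX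
      push_cast at this
      exact sub_eq_zero.mp this
    have h2 : φ (Y : ZMod (p ^ M)) = 1 := by
      rw [map_natCast]
      have : (((Y : ℤ) - 1 : ℤ) : ZMod p) = 0 := by
        rw [ZMod.intCast_zmod_eq_zero_iff_dvd]; exact hY
      push_cast at this
      exact sub_eq_zero.mp this
    have h3 : Units.map (φ : ZMod (p ^ M) →* ZMod p) x = 1 := by
      apply Units.ext
      simp only [Units.coe_map, MonoidHom.coe_coe, Units.val_one]
      rw [hx]; exact h1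
    have h4 : Units.map (φ : ZMod (p ^ M) →* ZMod p) y = 1 := by
      apply Units.ext
      simp only [Units.coe_map, MonoidHom.coe_coe, Units.val_one]
      rw [hy]; exact h2
    have h5 : Units.map (φ : ZMod (p ^ M) →* ZMod p) θ = 1 := by
      simp only [θ, map_mul, map_zpow, h3, h4, one_zpow, mul_one]
    have h6 : φ (θ : ZMod (p ^ M)) = 1 := by
      have := congrArg Units.val h5
      simpa using this
    have h7 : (((θ : ZMod (p ^ M)).val : ℕ) : ZMod p) = 1 := by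
      have h8 : (((θ : ZMod (p ^ M)).val : ℕ) : ZMod (p ^ M)) = (θ : ZMod (p ^ M)) := ZMod.natCast_zmod_val _
      rw [← h6, ← h8, map_natCast]
      congr 1
      rw [h8]
    rw [← ZMod.intCast_zmod_eq_zero_iff_dvd]
    push_cast
    rw [h7, sub_self]
  · have h1 : (((X : ℤ) - ((θ : ZMod (p ^ M)).val : ℤ) ^ k₀ : ℤ) : ZMod (p ^ M)) = 0 := by
      push_cast
      rw [ZMod.natCast_zmod_val, ← hx, ← Units.val_pow_eq_pow_val, hθ1, sub_self]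
    rw [ZMod.intCast_zmod_eq_zero_iff_dvd] at h1
    exact_mod_cast h1
  · have h1 : (((Y : ℤ) - ((θ : ZMod (p ^ M)).val : ℤ) ^ ℓ : ℤ) : ZMod (p ^ M)) = 0 := by
      push_cast
      rw [ZMod.natCast_zmod_val, ← hy, ← Units.val_pow_eq_pow_val, hθ2, sub_self]
    rw [ZMod.intCast_zmod_eq_zero_iff_dvd] at h1
    exact_mod_cast h1

lemma abs_det_le {ι : Type*} [Fintype ι] [DecidableEq ι] (A : Matrix ι ι ℤ) (b : ι → ℝ)
    (h : ∀ i j, |(A i j : ℝ)| ≤ b i) :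
    |(A.det : ℝ)| ≤ (Fintype.card ι).factorial * ∏ i, b i := by
  rw [← Matrix.det_transpose, Matrix.det_apply']
  push_cast
  refine (Finset.abs_sum_le_sum_abs _ _).trans ?_
  calc ∑ σ : Equiv.Perm ι, |((Equiv.Perm.sign σ : ℤ) : ℝ) * ∏ i, ((A.transpose (σ i) i : ℤ) : ℝ)|
      ≤ ∑ _σ : Equiv.Perm ι, ∏ i, b i := by
        apply Finset.sum_le_sum
        intro σ _
        rw [abs_mul, Finset.abs_prod]
        have h1 : |((Equiv.Perm.sign σ : ℤ) : ℝ)| = 1 := by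
          rcases Int.units_eq_one_or (Equiv.Perm.sign σ) with h2 | h2 <;> simp [h2]
        rw [h1, one_mul]
        apply Finset.prod_le_prod
        · intro i _; exact abs_nonneg _
        · intro i _; exact h i (σ i)
    _ = (Fintype.card ι).factorial * ∏ i, b i := by
        rw [Finset.sum_const, Finset.card_univ, Fintype.card_perm, nsmul_eq_mul]

/-- the main determinant inequality -/
theorem core_ineq {p M : ℕ} (hp : p.Prime) {X Y k₀ ℓ K L R S Z : ℕ}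
    (hX0 : 1 ≤ X) (hY0 : 2 ≤ Y) (hcop : Nat.Coprime ℓ k₀)
    (hX : (p : ℤ) ∣ (X : ℤ) - 1) (hY : (p : ℤ) ∣ (Y : ℤ) - 1)
    (h : (p : ℤ) ^ M ∣ (X : ℤ) ^ ℓ - (Y : ℤ) ^ k₀)
    (hR : R ≤ ℓ) (hKL : K * L ≤ R * S) (hK : 1 ≤ K) (hL : 1 ≤ L) (hM : K * L ≤ M)
    (hZ : R * k₀ + (S + L) * ℓ ≤ Z) (B : ℝ) (hB : ∀ k < K, ∀ z ≤ Z, (Nat.choose z k : ℝ) ≤ B) :
    (p : ℝ) ^ (K * K * ∑ l ∈ range L, l) ≤ (K * L).factorial * (B ^ (K * L) *
      ((X : ℝ) ^ R * (Y : ℝ) ^ (S + L)) ^ (K * ∑ l ∈ range L, l)) := by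
  classical
  have hM1 : 1 ≤ M := le_trans (Nat.mul_pos hK hL) hM
  obtain ⟨Θ, hΘ1, hΘX, hΘY⟩ := exists_theta hp hM1 hcop hX hY h
  let zz : Fin R × Fin (S + L) → ℕ := fun t => (t.1 : ℕ) * k₀ + (t.2 : ℕ) * ℓ
  have hzz : ∀ t, zz t ≤ Z := by
    intro t
    have h1 : (t.1 : ℕ) * k₀ ≤ R * k₀ := Nat.mul_le_mul_right _ t.1.2.le
    have h2 : (t.2 : ℕ) * ℓ ≤ (S + L) * ℓ := Nat.mul_le_mul_right _ t.2.2.le
    simp only [zz]; omega
  let A : Matrix (Fin K × Fin L) (Fin R × Fin (S + L)) ℤ := Matrix.of fun i t =>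
    (Nat.choose (zz t) i.1 : ℤ) * ((X : ℤ) ^ (t.1 : ℕ) * (Y : ℤ) ^ (t.2 : ℕ)) ^ (i.2 : ℕ)
  obtain ⟨g, hg⟩ := exists_minor (A.map (Int.castRingHom ℚ)) (by
    intro c hc
    apply zero_est X Y k₀ ℓ hX0 hY0 hcop hR hKL hK hL c
    intro r hr t ht
    have := hc (⟨r, hr⟩, ⟨t, ht⟩)
    rw [← this]
    apply Finset.sum_congr rfl
    intro i _
    simp [A, zz])
  have hdet : (A.submatrix id g).det ≠ 0 := by
    intro h0
    apply hg
    have h1 : (A.map (Int.castRingHom ℚ)).submatrix id g = (A.submatrix id g).map (Int.castRingHom ℚ) := rfl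
    rw [h1, ← RingHom.mapMatrix_apply, ← RingHom.map_det, h0, map_zero]
  -- p-adic side
  have hpow : ∀ t : Fin R × Fin (S + L), (p : ℤ) ^ M ∣
      (X : ℤ) ^ (t.1 : ℕ) * (Y : ℤ) ^ (t.2 : ℕ) - Θ ^ (zz t) := by
    intro t
    have h1 : (X : ℤ) ≡ Θ ^ k₀ [ZMOD (p : ℤ) ^ M] := (Int.modEq_iff_dvd.mpr (by
      have := (dvd_neg.mpr hΘX); rwa [neg_sub] at this))
    have h2 : (Y : ℤ) ≡ Θ ^ ℓ [ZMOD (p : ℤ) ^ M] := (Int.modEq_iff_dvd.mpr (by
      have := (dvd_neg.mpr hΘY); rwa [neg_sub] at this))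
    have h3 : (X : ℤ) ^ (t.1 : ℕ) * (Y : ℤ) ^ (t.2 : ℕ) ≡ Θ ^ (zz t) [ZMOD (p : ℤ) ^ M] := by
      have h4 : Θ ^ (zz t) = (Θ ^ k₀) ^ (t.1 : ℕ) * (Θ ^ ℓ) ^ (t.2 : ℕ) := by
        rw [← pow_mul, ← pow_mul, ← pow_add]
        congr 1
        simp only [zz]; ring
      rw [h4]
      exact Int.ModEq.mul (h1.pow _) (h2.pow _)
    exact Int.modEq_iff_dvd.mp h3.symm
  have hG : ∀ i j : Fin K × Fin L, ∃ G : ℤ, A i (g j) =
      (∑ m ∈ range (Z + 1), nc (Θ ^ (i.2 : ℕ)) i.1 m * (Nat.choose (zz (g j)) m : ℤ)) + (p : ℤ) ^ M * G := by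
    intro i j
    rw [← nc_sum _ _ _ _ (hzz (g j))]
    have h1 : (p : ℤ) ^ M ∣ ((X : ℤ) ^ ((g j).1 : ℕ) * (Y : ℤ) ^ ((g j).2 : ℕ)) ^ (i.2 : ℕ)
        - (Θ ^ (zz (g j))) ^ (i.2 : ℕ) := (hpow (g j)).trans (sub_dvd_pow_sub_pow _ _ _)
    obtain ⟨G, hG⟩ := h1
    refine ⟨(Nat.choose (zz (g j)) i.1 : ℤ) * G, ?_⟩
    simp only [A, Matrix.of_apply]
    have h2 : (Θ ^ (i.2 : ℕ)) ^ (zz (g j)) = (Θ ^ (zz (g j))) ^ (i.2 : ℕ) := by
      rw [← pow_mul, ← pow_mul, mul_comm]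
    rw [h2]
    linear_combination (Nat.choose (zz (g j)) i.1 : ℤ) * hG
  choose G hG using hG
  have hEeq : A.submatrix id g = Matrix.of fun i j =>
      (∑ m ∈ range (Z + 1), nc (Θ ^ (i.2 : ℕ)) i.1 m * (Nat.choose (zz (g j)) m : ℤ)) + (p : ℤ) ^ M * G i j := by
    funext i j
    exact hG i j
  have hcard : Fintype.card (Fin K × Fin L) = K * L := by simp
  have hV : (p : ℤ) ^ (K * K * ∑ l ∈ range L, l) ∣ (A.submatrix id g).det := by
    rw [hEeq]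
    apply det_val (p : ℤ) Z M (K * K * ∑ l ∈ range L, l) (fun i => (i.1 : ℕ))
      (fun i m => nc (Θ ^ (i.2 : ℕ)) i.1 m) (fun m j => (Nat.choose (zz (g j)) m : ℤ)) G
    · intro i m
      apply nc_dvd
      exact hΘ1.trans (by simpa using sub_dvd_pow_sub_pow Θ 1 (i.2 : ℕ))
    · rw [hcard]; exact hM
    · rw [hcard, Fintype.sum_prod_type]
      simp only [Finset.sum_const, Finset.card_univ, Fintype.card_fin, smul_eq_mul]
      rw [← Finset.mul_sum, Fin.sum_univ_eq_sum_range (fun k => k) K]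
      have h1 := Finset.sum_range_id_mul_two L
      have h2 := Finset.sum_range_id_mul_two K
      rw [Nat.le_div_iff_mul_le (by norm_num)]
      obtain ⟨L', rfl⟩ : ∃ L', L = L' + 1 := ⟨L - 1, by omega⟩
      obtain ⟨K', rfl⟩ : ∃ K', K = K' + 1 := ⟨K - 1, by omega⟩
      simp only [Nat.add_sub_cancel] at h1 h2
      have h3 : (K' + 1) * (L' + 1) - 1 = K' * L' + K' + L' := by
        have : (K' + 1) * (L' + 1) = K' * L' + K' + L' + 1 := by ring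
        omega
      rw [h3]
      nlinarith [h1, h2]
  -- size
  have hBnn : 0 ≤ B := le_trans (by positivity) (hB 0 (by omega) 0 (by omega))
  have hsize := abs_det_le (A.submatrix id g)
    (fun i => B * ((X : ℝ) ^ R * (Y : ℝ) ^ (S + L)) ^ (i.2 : ℕ)) (by
      intro i j
      simp only [A, Matrix.submatrix_apply, Matrix.of_apply, id_eq]
      push_cast
      rw [abs_of_nonneg (by positivity)]
      apply mul_le_mul (hB _ i.1.2 _ (hzz (g j))) _ (by positivity) hBnn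
      apply pow_le_pow_left₀ (by positivity)
      apply mul_le_mul _ _ (by positivity) (by positivity)
      · exact pow_le_pow_right₀ (by exact_mod_cast hX0) (g j).1.2.le
      · exact pow_le_pow_right₀ (by exact_mod_cast (by omega : 1 ≤ Y)) (g j).2.2.le)
  rw [hcard, Fintype.prod_prod_type] at hsize
  have hprod : ∏ _k : Fin K, ∏ l : Fin L, (B * ((X : ℝ) ^ R * (Y : ℝ) ^ (S + L)) ^ (l : ℕ))
      = B ^ (K * L) * ((X : ℝ) ^ R * (Y : ℝ) ^ (S + L)) ^ (K * ∑ l ∈ range L, l) := by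
    rw [Finset.prod_const, Finset.card_univ, Fintype.card_fin, Finset.prod_mul_distrib, Finset.prod_const,
      Finset.card_univ, Fintype.card_fin, Finset.prod_pow_eq_pow_sum, mul_pow, ← pow_mul, ← pow_mul,
      Fin.sum_univ_eq_sum_range (fun l => l) L, mul_comm L K, mul_comm (∑ l ∈ range L, l) K]
  have hprod' : ∏ i : Fin K, ∏ l : Fin L, (B * ((X : ℝ) ^ R * (Y : ℝ) ^ (S + L)) ^ ((((i, l) : Fin K × Fin L).2 : Fin L) : ℕ))
      = B ^ (K * L) * ((X : ℝ) ^ R * (Y : ℝ) ^ (S + L)) ^ (K * ∑ l ∈ range L, l) := hprod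
  rw [hprod'] at hsize
  refine le_trans ?_ hsize
  have h1 : (p : ℤ) ^ (K * K * ∑ l ∈ range L, l) ≤ |(A.submatrix id g).det| :=
    Int.le_of_dvd (abs_pos.mpr hdet) ((dvd_abs _ _).mpr hV)
  exact_mod_cast h1

end Pool.Agent.Work.MP_2738db_nt_W
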